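import Mathlib

/-!
# Definitions for the theorem of Oxtoby and Ulam and for the reduction to the boundary sphere

`V n = Fin n → ℝ` with the sup norm. `inn a b` is the open box, `bdry a b` the boundary of the closed
box `Icc a b`. `Good ν`: the measure is finite on compact sets, has no atoms and is positive on
nonempty open sets.
-/

namespace Pool.Agent.W_d1cfb0_h99

open MeasureTheory Set

abbrev V (n : ℕ) := Fin n → ℝ

/-- The open box. -/
def inn {n : ℕ} (a b : V n) : Set (V n) := {x | ∀ i, a i < x i ∧ x i < b i}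

/-- The boundary of the closed box. -/
def bdry {n : ℕ} (a b : V n) : Set (V n) := Icc a b \ inn a b

/-- Locally finite, no atoms, full support. -/
structure Good {n : ℕ} (ν : Measure (V n)) : Prop where
  fin : ∀ K : Set (V n), IsCompact K → ν K < ⊤
  atom : ∀ x : V n, ν {x} = 0
  pos : ∀ U : Set (V n), IsOpen U → U.Nonempty → 0 < ν U

/-- `L` is a partition of the box `q` into boxes. -/
structure Part {n : ℕ} (q : V n × V n) (L : List (V n × V n)) : Prop where
  lt : ∀ p ∈ L, ∀ i, p.1 i < p.2 i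
  sub : ∀ p ∈ L, Icc p.1 p.2 ⊆ Icc q.1 q.2
  cover : ∀ x ∈ Icc q.1 q.2, ∃ p ∈ L, x ∈ Icc p.1 p.2
  disj : L.Pairwise fun p p' =>
    Disjoint (inn p.1 p.2) (Icc p'.1 p'.2) ∧ Disjoint (Icc p.1 p.2) (inn p'.1 p'.2)

/-- `ν` and `μ` agree on the boxes of `L`, whose boundaries are null. -/
structure Agree {n : ℕ} (ν μ : Measure (V n)) (L : List (V n × V n)) : Prop where
  mass : ∀ p ∈ L, ν (Icc p.1 p.2) = μ (Icc p.1 p.2)
  nul : ∀ p ∈ L, ν (bdry p.1 p.2) = 0
  nul' : ∀ p ∈ L, μ (bdry p.1 p.2) = 0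

theorem isOpen_inn {n : ℕ} (a b : V n) : IsOpen (inn a b) := by
  have : inn a b = Set.pi Set.univ fun i => Ioo (a i) (b i) := by
    ext x
    simp [inn, Set.mem_pi]
  rw [this]
  exact isOpen_set_pi Set.finite_univ fun i _ => isOpen_Ioo

theorem inn_subset {n : ℕ} (a b : V n) : inn a b ⊆ Icc a b :=
  fun _ hx => ⟨fun i => (hx i).1.le, fun i => (hx i).2.le⟩

theorem isClosed_bdry {n : ℕ} (a b : V n) : IsClosed (bdry a b) :=
  isClosed_Icc.sdiff (isOpen_inn a b)

theorem mem_bdry {n : ℕ} {a b x : V n} : x ∈ bdry a b ↔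
    x ∈ Icc a b ∧ ∃ i, x i = a i ∨ x i = b i := by
  constructor
  · rintro ⟨h1, h2⟩
    refine ⟨h1, ?_⟩
    by_contra h3
    push Not at h3
    exact h2 fun i => ⟨lt_of_le_of_ne (h1.1 i) (Ne.symm (h3 i).1), lt_of_le_of_ne (h1.2 i) (h3 i).2⟩
  · rintro ⟨h1, i, h2⟩
    refine ⟨h1, fun h3 => ?_⟩
    rcases h2 with h2 | h2
    · exact (h3 i).1.ne' h2
    · exact (h3 i).2.ne h2

theorem Good.map {n : ℕ} {ν : Measure (V n)} (hν : Good ν) (g : V n ≃ₜ V n) : Good (ν.map g) := by
  have hm : Measurable g := g.continuous.measurable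
  refine ⟨fun K hK => ?_, fun x => ?_, fun U hU hne => ?_⟩
  · rw [Measure.map_apply hm hK.measurableSet]
    have : g ⁻¹' K = g.symm '' K := by
      rw [g.symm.image_eq_preimage_symm]
      rfl
    rw [this]
    exact hν.fin _ (hK.image g.symm.continuous)
  · rw [Measure.map_apply hm (measurableSet_singleton x)]
    have : g ⁻¹' {x} = {g.symm x} := by
      ext y
      simp only [mem_preimage, mem_singleton_iff]
      exact ⟨fun h => by rw [← h, g.symm_apply_apply], fun h => by rw [h, g.apply_symm_apply]⟩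
    rw [this]
    exact hν.atom _
  · rw [Measure.map_apply hm hU.measurableSet]
    refine hν.pos _ (hU.preimage g.continuous) ?_
    obtain ⟨x, hx⟩ := hne
    exact ⟨g.symm x, by rw [mem_preimage, g.apply_symm_apply]; exact hx⟩

theorem map_map' {n : ℕ} (ν : Measure (V n)) (g f : V n ≃ₜ V n) :
    (ν.map g).map f = ν.map (g.trans f) := by
  rw [Measure.map_map f.continuous.measurable g.continuous.measurable]
  rfl

theorem map_apply' {n : ℕ} (ν : Measure (V n)) (g : V n ≃ₜ V n) (A : Set (V n)) :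
    (ν.map g) A = ν (g ⁻¹' A) :=
  g.measurableEmbedding.map_apply ν A

end Pool.Agent.W_d1cfb0_h99
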