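import Pool.Agent.W_d1cfb0_h99.PVG
import Pool.Agent.W_d1cfb0_h99.Defs

/-!
# The cube `[0,1]^n` and the ball of the sup norm

`Phi x = (x + 1) / 2` takes the closed unit ball of the sup norm onto the cube. `io` is its restriction
to the unit sphere.
-/

namespace Pool.Agent.W_d1cfb0_h99

open Metric Set

/-- `x ↦ (x + 1) / 2`, from the sup norm to the Euclidean norm. -/
noncomputable def Phi (n : ℕ) : V n ≃ₜ En n where
  toFun x := WithLp.toLp 2 fun i => (x i + 1) / 2
  invFun y := fun i => 2 * y i - 1
  left_inv x := by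
    ext i
    show 2 * ((x i + 1) / 2) - 1 = x i
    ring
  right_inv y := by
    ext i
    show ((2 * y i - 1) + 1) / 2 = y i
    ring
  continuous_toFun := by
    refine (PiLp.continuous_toLp 2 (fun _ : Fin n => ℝ)).comp ?_
    fun_prop
  continuous_invFun := by fun_prop

theorem Phi_apply {n : ℕ} (x : V n) (i : Fin n) : Phi n x i = (x i + 1) / 2 := rfl

theorem mem_ball_iff {n : ℕ} (x : V n) : x ∈ closedBall (0 : V n) 1 ↔ Phi n x ∈ Cu n := by
  rw [mem_closedBall_zero_iff, pi_norm_le_iff_of_nonneg zero_le_one]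
  refine forall_congr' fun i => ?_
  rw [Phi_apply, Real.norm_eq_abs, abs_le, mem_Icc]
  constructor
  · rintro ⟨h1, h2⟩
    constructor <;> linarith
  · rintro ⟨h1, h2⟩
    constructor <;> linarith

/-- The ball of the sup norm is the cube. -/
noncomputable def Jo (n : ℕ) : closedBall (0 : V n) 1 ≃ₜ Cu n := (Phi n).subtype mem_ball_iff

theorem Jo_apply {n : ℕ} (x : closedBall (0 : V n) 1) : (Jo n x : En n) = Phi n x := rfl

/-- The sphere in the cube. -/
noncomputable def io (n : ℕ) (s : sphere (0 : V n) 1) : Cu n :=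
  Jo n ⟨s, sphere_subset_closedBall s.2⟩

theorem continuous_io (n : ℕ) : Continuous (io n) := by
  refine (Jo n).continuous.comp ?_
  exact Continuous.subtype_mk continuous_subtype_val _

theorem io_inj (n : ℕ) : Function.Injective (io n) := by
  intro s t h
  have h1 := (Jo n).injective h
  have h2 := congrArg (Subtype.val : closedBall (0 : V n) 1 → V n) h1
  exact Subtype.ext h2

/-- A point of the ball has norm `1` iff the corresponding point of the cube has a coordinate `0` or
`1`. -/
theorem norm_eq_one_iff {n : ℕ} (hn : 1 ≤ n) {x : V n} (hx : x ∈ closedBall (0 : V n) 1) :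
    ‖x‖ = 1 ↔ ∃ i, Phi n x i = 0 ∨ Phi n x i = 1 := by
  have hx1 := mem_closedBall_zero_iff.1 hx
  constructor
  · intro h1
    by_contra h2
    push Not at h2
    have h3 : ∀ i, ‖x i‖ < 1 := by
      intro i
      have h4 := norm_le_pi_norm x i
      rw [h1] at h4
      refine lt_of_le_of_ne h4 fun h5 => ?_
      rw [Real.norm_eq_abs] at h5
      have h6 := h2 i
      rw [Phi_apply] at h6
      rcases (abs_eq zero_le_one).1 h5 with h7 | h7
      · exact h6.2 (by rw [h7]; norm_num)
      · exact h6.1 (by rw [h7]; norm_num)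
    have : Nonempty (Fin n) := ⟨⟨0, hn⟩⟩
    have h4 : ‖x‖ < 1 := (pi_norm_lt_iff zero_lt_one).2 h3
    exact h4.ne h1
  · rintro ⟨i, h⟩
    refine le_antisymm hx1 ?_
    have h4 := norm_le_pi_norm x i
    rw [Real.norm_eq_abs] at h4
    rw [Phi_apply] at h
    rcases h with h | h
    · have : x i = -1 := by linarith
      rw [this] at h4
      norm_num at h4
      exact h4
    · have : x i = 1 := by linarith
      rw [this] at h4
      norm_num at h4
      exact h4

/-- The boundary points of the cube are the points of the sphere. -/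
theorem exists_io {n : ℕ} (hn : 1 ≤ n) {p : Cu n} (hp : ∃ i, (p : En n) i = 0 ∨ (p : En n) i = 1) :
    ∃ s, io n s = p := by
  obtain ⟨x, rfl⟩ := (Jo n).surjective p
  have h1 := (norm_eq_one_iff hn x.2).2 hp
  exact ⟨⟨x, mem_sphere_zero_iff_norm.2 h1⟩, rfl⟩

end Pool.Agent.W_d1cfb0_h99
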