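import Pool.Agent.W_d1cfb0_h99.Defs
import Pool.Agent.W_bb4b37_h53.BrouwerA

/-!
# Homeomorphisms of the cube preserve the boundary, in all dimensions

`Q = closedBall (0 : V n) 1 = [-1, 1]^n`, `S = sphere 0 1`.

Proof (as in `W_d1cfb0_h45.Inv`, `n = 2`). Suppose `‖p‖ = 1` and `q = h p` has `‖q‖ < 1`. Let
`σ = 1 - ‖q‖ > 0`. Put `Y x = q + (σ / max ‖x‖ (1/2)) • x`, `l x = min 1 (max 0 (2 ‖x‖ - 1))` and
`F x = l x • h⁻¹ (Y x)`, continuous, `F x ≠ p`: if `l x < 1` then `‖F x‖ < 1`; if `l x = 1` then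
`F x = h⁻¹ (Y x) ≠ h⁻¹ q`. So `G x = h (F x) ≠ q` and `G x = q + σ x` for `‖x‖ = 1`.
`f x = - (G x - q) / ‖G x - q‖` has a fixed point by `Pool.Agent.KK.brouwer_cube`, `‖x‖ = 1`, so
`f x = -x`, a contradiction.
-/

namespace Pool.Agent.W_d1cfb0_h99

open Metric

theorem bd_map {n : ℕ} (h : closedBall (0 : V n) 1 ≃ₜ closedBall (0 : V n) 1)
    (p : closedBall (0 : V n) 1) (hp : ‖(p : V n)‖ = 1) : ‖(h p : V n)‖ = 1 := by
  by_contra hq
  set q : closedBall (0 : V n) 1 := h p with hqdef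
  have hq1 : ‖(q : V n)‖ ≤ 1 := mem_closedBall_zero_iff.1 q.2
  set σ : ℝ := 1 - ‖(q : V n)‖ with hσ
  have hσ0 : 0 < σ := sub_pos.2 (lt_of_le_of_ne hq1 hq)
  have hm : ∀ x : V n, 0 < max ‖x‖ (1 / 2) := fun x => lt_max_of_lt_right (by norm_num)
  have hYm : ∀ x : V n, (q : V n) + (σ / max ‖x‖ (1 / 2)) • x ∈ closedBall (0 : V n) 1 := by
    intro x
    rw [mem_closedBall_zero_iff]
    have h1 : ‖(σ / max ‖x‖ (1 / 2)) • x‖ ≤ σ := by
      rw [norm_smul, Real.norm_eq_abs, abs_of_pos (div_pos hσ0 (hm x)), div_mul_eq_mul_div,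
        div_le_iff₀ (hm x)]
      exact mul_le_mul_of_nonneg_left (le_max_left _ _) hσ0.le
    have h2 := norm_add_le (q : V n) ((σ / max ‖x‖ (1 / 2)) • x)
    linarith
  set Y : V n → closedBall (0 : V n) 1 := fun x => ⟨_, hYm x⟩ with hY
  have hYc : Continuous Y := by
    refine Continuous.subtype_mk ?_ _
    exact continuous_const.add ((continuous_const.div (continuous_norm.max continuous_const)
      fun x => (hm x).ne').smul continuous_id)
  set l : V n → ℝ := fun x => min 1 (max 0 (2 * ‖x‖ - 1)) with hl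
  have hlc : Continuous l := by
    rw [hl]
    fun_prop
  have hl0 : ∀ x, 0 ≤ l x := fun x => le_min zero_le_one (le_max_left _ _)
  have hl1 : ∀ x, l x ≤ 1 := fun x => min_le_left _ _
  have hsn : ∀ x, ‖(h.symm (Y x) : V n)‖ ≤ 1 := fun x => mem_closedBall_zero_iff.1 (h.symm (Y x)).2
  have hFn : ∀ x, ‖l x • (h.symm (Y x) : V n)‖ ≤ l x := by
    intro x
    rw [norm_smul, Real.norm_eq_abs, abs_of_nonneg (hl0 x)]
    exact mul_le_of_le_one_right (hl0 x) (hsn x)
  set F : V n → closedBall (0 : V n) 1 := fun x =>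
    ⟨l x • (h.symm (Y x) : V n), mem_closedBall_zero_iff.2 ((hFn x).trans (hl1 x))⟩ with hF
  have hFc : Continuous F := by
    refine Continuous.subtype_mk ?_ _
    exact hlc.smul (continuous_subtype_val.comp (h.symm.continuous.comp hYc))
  have hone : ∀ x : V n, l x = 1 → F x = h.symm (Y x) := by
    intro x hx
    apply Subtype.ext
    show l x • (h.symm (Y x) : V n) = _
    rw [hx, one_smul]
  have hFp : ∀ x, F x ≠ p := by
    intro x hx
    by_cases h1 : l x = 1
    · rw [hone x h1] at hx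
      have h2 : Y x = q := by
        rw [hqdef, ← hx, h.apply_symm_apply]
      have h3 : (q : V n) + (σ / max ‖x‖ (1 / 2)) • x = q := congrArg Subtype.val h2
      have h4 : (σ / max ‖x‖ (1 / 2)) • x = 0 := by
        have := add_eq_left.1 h3
        exact this
      have h5 : x = 0 := by
        rcases smul_eq_zero.1 h4 with h6 | h6
        · exact absurd h6 (div_pos hσ0 (hm x)).ne'
        · exact h6
      rw [hl] at h1
      simp only [h5, norm_zero] at h1
      norm_num at h1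
    · have h2 : ‖(F x : V n)‖ < 1 := (hFn x).trans_lt (lt_of_le_of_ne (hl1 x) h1)
      rw [hx, hp] at h2
      exact lt_irrefl _ h2
  set g : V n → V n := fun x => (h (F x) : V n) - (q : V n) with hg
  have hgc : Continuous g :=
    (continuous_subtype_val.comp (h.continuous.comp hFc)).sub continuous_const
  have hg0 : ∀ x, g x ≠ 0 := by
    intro x hx
    apply hFp x
    apply h.injective
    rw [← hqdef]
    exact Subtype.ext (sub_eq_zero.1 hx)
  set f : V n → V n := fun x => -(‖g x‖⁻¹ • g x) with hf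
  have hfc : Continuous f :=
    ((hgc.norm.inv₀ fun x => norm_ne_zero_iff.2 (hg0 x)).smul hgc).neg
  have hfn : ∀ x, ‖f x‖ = 1 := by
    intro x
    have h1 : ‖g x‖ ≠ 0 := norm_ne_zero_iff.2 (hg0 x)
    rw [hf]
    simp only
    rw [norm_neg, norm_smul, norm_inv, norm_norm, inv_mul_cancel₀ h1]
  obtain ⟨x, _, hx⟩ := Pool.Agent.KK.brouwer_cube n f hfc.continuousOn (by
    intro x _ i
    have h1 := norm_le_pi_norm (f x) i
    rw [hfn x, Real.norm_eq_abs] at h1
    exact abs_le.1 h1)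
  have hxn : ‖x‖ = 1 := by
    rw [← hx]
    exact hfn x
  have hlx : l x = 1 := by
    rw [hl]
    simp only [hxn]
    norm_num
  have hgx : g x = σ • x := by
    show (h (F x) : V n) - (q : V n) = σ • x
    rw [hone x hlx, h.apply_symm_apply]
    show (q : V n) + (σ / max ‖x‖ (1 / 2)) • x - (q : V n) = σ • x
    rw [hxn, add_sub_cancel_left]
    norm_num
  have h1 : f x = -x := by
    rw [hf]
    simp only
    rw [hgx, norm_smul, hxn, Real.norm_eq_abs, abs_of_pos hσ0, mul_one, smul_smul,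
      inv_mul_cancel₀ hσ0.ne', one_smul]
  rw [hx] at h1
  have h2 : x = 0 := self_eq_neg.1 h1
  rw [h2, norm_zero] at hxn
  exact zero_ne_one hxn

/-- The restriction of a homeomorphism of the cube to the boundary sphere. -/
theorem exists_res {n : ℕ} (h : closedBall (0 : V n) 1 ≃ₜ closedBall (0 : V n) 1) :
    ∃ b : sphere (0 : V n) 1 ≃ₜ sphere (0 : V n) 1, ∀ s : sphere (0 : V n) 1,
      (h ⟨s, sphere_subset_closedBall s.2⟩ : V n) = b s := by
  have hm : ∀ (k : closedBall (0 : V n) 1 ≃ₜ closedBall (0 : V n) 1) (s : sphere (0 : V n) 1),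
      (k ⟨s, sphere_subset_closedBall s.2⟩ : V n) ∈ sphere (0 : V n) 1 := fun k s =>
    mem_sphere_zero_iff_norm.2 (bd_map k _ (mem_sphere_zero_iff_norm.1 s.2))
  have hc : ∀ k : closedBall (0 : V n) 1 ≃ₜ closedBall (0 : V n) 1, Continuous
      fun s : sphere (0 : V n) 1 => (⟨_, hm k s⟩ : sphere (0 : V n) 1) := fun k =>
    Continuous.subtype_mk (continuous_subtype_val.comp (k.continuous.comp
      (Continuous.subtype_mk continuous_subtype_val _))) _
  refine ⟨⟨⟨fun s => ⟨_, hm h s⟩, fun s => ⟨_, hm h.symm s⟩, fun s => ?_, fun s => ?_⟩,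
    hc h, hc h.symm⟩, fun s => rfl⟩
  · apply Subtype.ext
    show (h.symm ⟨(h ⟨s, sphere_subset_closedBall s.2⟩ : V n), _⟩ : V n) = s
    have : (⟨(h ⟨s, sphere_subset_closedBall s.2⟩ : V n),
        sphere_subset_closedBall (hm h s)⟩ : closedBall (0 : V n) 1) =
        h ⟨s, sphere_subset_closedBall s.2⟩ := rfl
    rw [this, h.symm_apply_apply]
  · apply Subtype.ext
    show (h ⟨(h.symm ⟨s, sphere_subset_closedBall s.2⟩ : V n), _⟩ : V n) = s
    have : (⟨(h.symm ⟨s, sphere_subset_closedBall s.2⟩ : V n),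
        sphere_subset_closedBall (hm h.symm s)⟩ : closedBall (0 : V n) 1) =
        h.symm ⟨s, sphere_subset_closedBall s.2⟩ := rfl
    rw [this, h.apply_symm_apply]

end Pool.Agent.W_d1cfb0_h99
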