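import Pool.Agent.W_d1cfb0_h99.Defs

/-!
# Measures which agree on the boxes of a partition
-/

namespace Pool.Agent.W_d1cfb0_h99

open MeasureTheory Set
open scoped ENNReal

theorem aedisj {n : ℕ} {μ : Measure (V n)} {p : V n × V n} {M : List (V n × V n)}
    (hd : ∀ p' ∈ M, Disjoint (Icc p.1 p.2) (inn p'.1 p'.2))
    (h0 : ∀ p' ∈ M, μ (bdry p'.1 p'.2) = 0) :
    μ (Icc p.1 p.2 ∩ ⋃ p' ∈ M, Icc p'.1 p'.2) = 0 := by
  refine measure_mono_null (t := ⋃ p' ∈ M, bdry p'.1 p'.2) ?_ ?_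
  · rintro x ⟨hx, hx2⟩
    obtain ⟨p', hp', hx'⟩ := mem_iUnion₂.1 hx2
    refine mem_iUnion₂.2 ⟨p', hp', hx', fun hi => ?_⟩
    exact Set.disjoint_left.1 (hd p' hp') hx hi
  · have : (⋃ p' ∈ M, bdry p'.1 p'.2) = ⋃ p' ∈ {p' | p' ∈ M}, bdry p'.1 p'.2 := rfl
    rw [this, measure_biUnion_null_iff (M.finite_toSet.countable)]
    exact h0

theorem sum_eq {n : ℕ} {μ : Measure (V n)} (M : List (V n × V n))
    (hd : M.Pairwise fun p p' =>
      Disjoint (inn p.1 p.2) (Icc p'.1 p'.2) ∧ Disjoint (Icc p.1 p.2) (inn p'.1 p'.2))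
    (h0 : ∀ p ∈ M, μ (bdry p.1 p.2) = 0) :
    μ (⋃ p ∈ M, Icc p.1 p.2) = (M.map fun p => μ (Icc p.1 p.2)).sum := by
  induction M with
  | nil => simp
  | cons p M ih =>
    rw [List.pairwise_cons] at hd
    have h1 : (⋃ p' ∈ p :: M, Icc p'.1 p'.2) = Icc p.1 p.2 ∪ ⋃ p' ∈ M, Icc p'.1 p'.2 := by
      ext x
      simp
    have hm : MeasurableSet (⋃ p' ∈ M, Icc p'.1 p'.2) := by
      have : (⋃ p' ∈ M, Icc p'.1 p'.2) = ⋃ p' ∈ {p' | p' ∈ M}, Icc p'.1 p'.2 := rfl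
      rw [this]
      exact MeasurableSet.biUnion (M.finite_toSet.countable) fun p' _ => measurableSet_Icc
    rw [h1, List.map_cons, List.sum_cons,
      measure_union₀ hm.nullMeasurableSet (aedisj (fun p' hp' => (hd.1 p' hp').2)
        fun p' hp' => h0 p' (List.mem_cons_of_mem _ hp')),
      ih hd.2 fun p' hp' => h0 p' (List.mem_cons_of_mem _ hp')]

theorem cells {n : ℕ} {ν μ : Measure (V n)} {q : V n × V n} {L : List (V n × V n)}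
    (hL : Part q L) (hA : Agree ν μ L) {η : ℝ}
    (hη : ∀ p ∈ L, ∀ x ∈ Icc p.1 p.2, ∀ y ∈ Icc p.1 p.2, dist x y ≤ η) {K : Set (V n)}
    (hK : K ⊆ Icc q.1 q.2) :
    ν K ≤ μ {y | y ∈ Icc q.1 q.2 ∧ ∃ x ∈ K, dist x y ≤ η} := by
  classical
  set M := L.filter fun p => ∃ x ∈ K, x ∈ Icc p.1 p.2 with hM
  have hsub : ∀ p ∈ M, p ∈ L := fun p hp => (List.mem_filter.1 hp).1
  have hd := hL.disj.filter fun p => ∃ x ∈ K, x ∈ Icc p.1 p.2
  have h1 : K ⊆ ⋃ p ∈ M, Icc p.1 p.2 := by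
    intro x hx
    obtain ⟨p, hp, hxp⟩ := hL.cover x (hK hx)
    refine mem_iUnion₂.2 ⟨p, List.mem_filter.2 ⟨hp, ?_⟩, hxp⟩
    simpa using ⟨x, hx, hxp⟩
  have h2 : (⋃ p ∈ M, Icc p.1 p.2) ⊆ {y | y ∈ Icc q.1 q.2 ∧ ∃ x ∈ K, dist x y ≤ η} := by
    intro y hy
    obtain ⟨p, hp, hyp⟩ := mem_iUnion₂.1 hy
    obtain ⟨hpL, hpK⟩ := List.mem_filter.1 hp
    have hpK' : ∃ x ∈ K, x ∈ Icc p.1 p.2 := by simpa using hpK
    obtain ⟨x, hx, hxp⟩ := hpK'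
    exact ⟨hL.sub p hpL hyp, x, hx, hη p hpL x hxp y hyp⟩
  calc ν K ≤ ν (⋃ p ∈ M, Icc p.1 p.2) := measure_mono h1
    _ = (M.map fun p => ν (Icc p.1 p.2)).sum := sum_eq M hd fun p hp => hA.nul p (hsub p hp)
    _ = (M.map fun p => μ (Icc p.1 p.2)).sum := by
        congr 1
        exact List.map_congr_left fun p hp => hA.mass p (hsub p hp)
    _ = μ (⋃ p ∈ M, Icc p.1 p.2) := (sum_eq M hd fun p hp => hA.nul' p (hsub p hp)).symm
    _ ≤ μ {y | y ∈ Icc q.1 q.2 ∧ ∃ x ∈ K, dist x y ≤ η} := measure_mono h2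

/-- Comparison on compact sets implies equality. -/
theorem eq_of_compact {n : ℕ} {ν μ : Measure (V n)} (hν : Good ν) (hμ : Good μ) {q : V n × V n}
    (h : ∀ K : Set (V n), IsCompact K → K ⊆ Icc q.1 q.2 → ν K ≤ μ K)
    (h' : ∀ K : Set (V n), IsCompact K → K ⊆ Icc q.1 q.2 → μ K ≤ ν K) {A : Set (V n)}
    (hA : MeasurableSet A) (hAq : A ⊆ Icc q.1 q.2) : ν A = μ A := by
  have i1 : IsFiniteMeasureOnCompacts ν := ⟨fun {K} hK => hν.fin K hK⟩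
  have i2 : IsFiniteMeasureOnCompacts μ := ⟨fun {K} hK => hμ.fin K hK⟩
  have f1 : ν A ≠ ⊤ := ((measure_mono hAq).trans_lt (hν.fin _ isCompact_Icc)).ne
  have f2 : μ A ≠ ⊤ := ((measure_mono hAq).trans_lt (hμ.fin _ isCompact_Icc)).ne
  rw [hA.measure_eq_iSup_isCompact_of_ne_top f1, hA.measure_eq_iSup_isCompact_of_ne_top f2]
  refine le_antisymm ?_ ?_
  · exact iSup_mono fun K => iSup_mono fun hKA => iSup_mono fun hK => h K hK (hKA.trans hAq)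
  · exact iSup_mono fun K => iSup_mono fun hKA => iSup_mono fun hK => h' K hK (hKA.trans hAq)

end Pool.Agent.W_d1cfb0_h99
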