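import Pool.Agent.W_d1cfb0_h99.Defs

/-!
# Cone extension of a homeomorphism of the boundary sphere

`cone b x = ‖x‖ • b (‖x‖⁻¹ • x)`, `cone b 0 = 0` (sup norm), a homeomorphism of `V n` which preserves
the norm and equals `b` on the unit sphere.
-/

namespace Pool.Agent.W_d1cfb0_h99

open Metric Filter Topology

open Classical in
/-- The cone of a self-map of the unit sphere. -/
noncomputable def coneFun {n : ℕ} (b : sphere (0 : V n) 1 → sphere (0 : V n) 1) (x : V n) : V n :=
  if h : x = 0 then 0 else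
    ‖x‖ • (b ⟨‖x‖⁻¹ • x, by
      rw [mem_sphere_zero_iff_norm, norm_smul, norm_inv, norm_norm,
        inv_mul_cancel₀ (norm_ne_zero_iff.2 h)]⟩ : V n)

theorem norm_coneFun {n : ℕ} (b : sphere (0 : V n) 1 → sphere (0 : V n) 1) (x : V n) :
    ‖coneFun b x‖ = ‖x‖ := by
  unfold coneFun
  split_ifs with h
  · rw [h]
  · have := mem_sphere_zero_iff_norm.1 (b ⟨‖x‖⁻¹ • x, by
      rw [mem_sphere_zero_iff_norm, norm_smul, norm_inv, norm_norm,
        inv_mul_cancel₀ (norm_ne_zero_iff.2 h)]⟩).2
    rw [norm_smul, norm_norm, this, mul_one]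

theorem coneFun_smul {n : ℕ} (b : sphere (0 : V n) 1 → sphere (0 : V n) 1) {r : ℝ} (hr : 0 < r)
    (s : sphere (0 : V n) 1) : coneFun b (r • (s : V n)) = r • (b s : V n) := by
  have hs := mem_sphere_zero_iff_norm.1 s.2
  have hn : ‖r • (s : V n)‖ = r := by
    rw [norm_smul, hs, mul_one, Real.norm_of_nonneg hr.le]
  have h0 : r • (s : V n) ≠ 0 := by
    rw [← norm_ne_zero_iff, hn]
    exact hr.ne'
  have hm : ‖r • (s : V n)‖⁻¹ • r • (s : V n) = s := by
    rw [hn, smul_smul, inv_mul_cancel₀ hr.ne', one_smul]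
  have h2 : ∀ (y : V n) (hy : y ∈ sphere (0 : V n) 1), y = s → b ⟨y, hy⟩ = b s := by
    rintro y hy rfl
    rfl
  unfold coneFun
  rw [dif_neg h0, h2 _ _ hm, hn]

theorem exists_polar {n : ℕ} {x : V n} (h : x ≠ 0) :
    ∃ (r : ℝ) (s : sphere (0 : V n) 1), 0 < r ∧ x = r • (s : V n) := by
  refine ⟨‖x‖, ⟨‖x‖⁻¹ • x, ?_⟩, norm_pos_iff.2 h, ?_⟩
  · rw [mem_sphere_zero_iff_norm, norm_smul, norm_inv, norm_norm,
      inv_mul_cancel₀ (norm_ne_zero_iff.2 h)]
  · change x = ‖x‖ • ‖x‖⁻¹ • x
    rw [smul_smul, mul_inv_cancel₀ (norm_ne_zero_iff.2 h), one_smul]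

theorem coneFun_zero {n : ℕ} (b : sphere (0 : V n) 1 → sphere (0 : V n) 1) :
    coneFun b 0 = 0 := by
  unfold coneFun
  rw [dif_pos rfl]

theorem coneFun_comp {n : ℕ} (b c : sphere (0 : V n) 1 → sphere (0 : V n) 1)
    (h : ∀ s, c (b s) = s) (x : V n) : coneFun c (coneFun b x) = x := by
  by_cases h0 : x = 0
  · rw [h0, coneFun_zero, coneFun_zero]
  · obtain ⟨r, s, hr, rfl⟩ := exists_polar h0
    rw [coneFun_smul b hr, coneFun_smul c hr, h]

theorem continuous_coneFun {n : ℕ} {b : sphere (0 : V n) 1 → sphere (0 : V n) 1}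
    (hb : Continuous b) : Continuous (coneFun b) := by
  rw [continuous_iff_continuousAt]
  intro x
  by_cases h0 : x = 0
  · subst h0
    unfold ContinuousAt
    rw [coneFun_zero, tendsto_zero_iff_norm_tendsto_zero]
    simp only [norm_coneFun]
    exact tendsto_norm_zero
  · have hopen : {y : V n | y ≠ 0} ∈ 𝓝 x := isOpen_ne.mem_nhds h0
    have hc : ContinuousOn (fun y : V n => coneFun b y) {y : V n | y ≠ 0} := by
      rw [continuousOn_iff_continuous_domRestrict]
      have e : Set.domRestrict {y : V n | y ≠ 0} (fun y : V n => coneFun b y) =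
          fun y : {y : V n // y ≠ 0} => ‖(y : V n)‖ • (b ⟨‖(y : V n)‖⁻¹ • (y : V n), by
            rw [mem_sphere_zero_iff_norm, norm_smul, norm_inv, norm_norm,
              inv_mul_cancel₀ (norm_ne_zero_iff.2 y.2)]⟩ : V n) := by
        funext y
        change coneFun b (y : V n) = _
        unfold coneFun
        rw [dif_neg y.2]
      rw [e]
      refine (continuous_norm.comp continuous_subtype_val).smul
        (continuous_subtype_val.comp (hb.comp (Continuous.subtype_mk ?_ _)))
      exact ((continuous_norm.comp continuous_subtype_val).inv₀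
        fun y => norm_ne_zero_iff.2 y.2).smul continuous_subtype_val
    exact hc.continuousAt hopen

theorem exists_cone {n : ℕ} (b : sphere (0 : V n) 1 ≃ₜ sphere (0 : V n) 1) :
    ∃ g : V n ≃ₜ V n, (∀ x, ‖g x‖ = ‖x‖) ∧ ∀ s : sphere (0 : V n) 1, g s = b s := by
  refine ⟨{ toFun := coneFun b
            invFun := coneFun b.symm
            left_inv := coneFun_comp b b.symm fun s => b.symm_apply_apply s
            right_inv := coneFun_comp b.symm b fun s => b.apply_symm_apply s
            continuous_toFun := continuous_coneFun b.continuous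
            continuous_invFun := continuous_coneFun b.symm.continuous }, norm_coneFun b,
    fun s => ?_⟩
  have := coneFun_smul b one_pos s
  rw [one_smul, one_smul] at this
  exact this

end Pool.Agent.W_d1cfb0_h99
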