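import Mathlib

/-!
# Families of sets with null `(N+1)`-fold intersections; a polynomial identity
-/

namespace Pool.Agent.W_d1cfb0_h99

open MeasureTheory Set
open scoped ENNReal

theorem count_finset {α ι : Type*} {mα : MeasurableSpace α} (μ : Measure α)
    (A : ι → Set α) (hA : ∀ t, MeasurableSet (A t)) (N : ℕ)
    (h : ∀ F : Finset ι, F.card = N + 1 → μ (⋂ t ∈ F, A t) = 0) (F : Finset ι) :
    ∑ t ∈ F, μ (A t) ≤ N * μ Set.univ := by
  classical
  have h1 : ∑ t ∈ F, μ (A t) = ∫⁻ x, ∑ t ∈ F, (A t).indicator (1 : α → ℝ≥0∞) x ∂μ := by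
    rw [lintegral_finsetSum _ (fun t _ => (measurable_one.indicator (hA t)))]
    refine Finset.sum_congr rfl fun t _ => ?_
    rw [lintegral_indicator_one (hA t)]
  have h2 : ∀ x, ∑ t ∈ F, (A t).indicator (1 : α → ℝ≥0∞) x =
      ((F.filter fun t => x ∈ A t).card : ℝ≥0∞) := by
    intro x
    rw [Finset.card_filter]
    push_cast
    refine Finset.sum_congr rfl fun t _ => ?_
    by_cases hx : x ∈ A t <;> simp [hx]
  have h3 : ∀ᵐ x ∂μ, (F.filter fun t => x ∈ A t).card ≤ N := by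
    have h4 : μ (⋃ F' ∈ F.powersetCard (N + 1), ⋂ t ∈ F', A t) = 0 := by
      refine (measure_biUnion_null_iff (I := (↑(F.powersetCard (N + 1)) : Set (Finset ι)))
        (Finset.countable_toSet _)).2 ?_
      intro F' hF'
      exact h F' (Finset.mem_powersetCard.1 hF').2
    refine (measure_mono_null ?_ h4 : μ {x | ¬ (F.filter fun t => x ∈ A t).card ≤ N} = 0)
    intro x hx
    rw [mem_ofPred_eq, not_le] at hx
    obtain ⟨F', hF', hc⟩ := Finset.exists_subset_card_eq (Nat.succ_le_of_lt hx)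
    refine mem_iUnion₂.2 ⟨F', ?_, mem_iInter₂.2 fun t ht => ?_⟩
    · rw [Finset.mem_powersetCard]
      exact ⟨hF'.trans (Finset.filter_subset _ _), hc⟩
    · exact (Finset.mem_filter.1 (hF' ht)).2
  rw [h1]
  calc ∫⁻ x, ∑ t ∈ F, (A t).indicator (1 : α → ℝ≥0∞) x ∂μ
      ≤ ∫⁻ _, (N : ℝ≥0∞) ∂μ := by
        refine lintegral_mono_ae ?_
        filter_upwards [h3] with x hx
        rw [h2]
        exact_mod_cast hx
    _ = N * μ Set.univ := by rw [lintegral_const]

theorem exists_null {α ι : Type*} {mα : MeasurableSpace α} (μ : Measure α) [IsFiniteMeasure μ]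
    (A : ι → Set α) (hA : ∀ t, MeasurableSet (A t)) (N : ℕ)
    (h : ∀ F : Finset ι, F.card = N + 1 → μ (⋂ t ∈ F, A t) = 0) [Uncountable ι] :
    ∃ t, μ (A t) = 0 := by
  by_contra hc
  push Not at hc
  have h1 : ∀ t, ∃ k : ℕ, (k + 1 : ℝ≥0∞)⁻¹ ≤ μ (A t) := by
    intro t
    obtain ⟨k, hk⟩ := ENNReal.exists_inv_nat_lt (hc t)
    refine ⟨k, le_trans ?_ hk.le⟩
    exact ENNReal.inv_le_inv.2 le_self_add
  choose k hk using h1
  obtain ⟨m, hm⟩ : ∃ m : ℕ, (k ⁻¹' {m}).Infinite := by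
    by_contra hf
    push Not at hf
    have h2 : (Set.univ : Set ι).Countable := by
      have : (Set.univ : Set ι) = ⋃ m, k ⁻¹' {m} := by
        ext t
        simp
      rw [this]
      exact countable_iUnion fun m => (hf m).countable
    exact not_countable (α := ι) (Set.countable_univ_iff.1 h2)
  have h3 : ∀ M : ℕ, (M : ℝ≥0∞) * (m + 1 : ℝ≥0∞)⁻¹ ≤ N * μ Set.univ := by
    intro M
    obtain ⟨F, hF, hc⟩ := hm.exists_subset_card_eq M
    calc (M : ℝ≥0∞) * (m + 1 : ℝ≥0∞)⁻¹ = ∑ _t ∈ F, (m + 1 : ℝ≥0∞)⁻¹ := by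
          rw [Finset.sum_const, hc, nsmul_eq_mul]
      _ ≤ ∑ t ∈ F, μ (A t) := Finset.sum_le_sum fun t ht => by
          have : k t = m := hF ht
          have h5 := hk t
          rw [this] at h5
          exact h5
      _ ≤ N * μ Set.univ := count_finset μ A hA N h F
  have h4 : (N * μ Set.univ : ℝ≥0∞) ≠ ⊤ := ENNReal.mul_ne_top (ENNReal.natCast_ne_top N)
    (measure_ne_top μ _)
  obtain ⟨M, hM⟩ := ENNReal.exists_nat_gt (ENNReal.mul_ne_top (a := N * μ Set.univ)
    (b := (m + 1 : ℝ≥0∞)) h4 (by simp))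
  have h6 := h3 M
  have h7 : (M : ℝ≥0∞) ≤ N * μ Set.univ * (m + 1) := by
    calc (M : ℝ≥0∞) = M * (m + 1 : ℝ≥0∞)⁻¹ * (m + 1) := by
          rw [mul_assoc, ENNReal.inv_mul_cancel (by simp) (by simp), mul_one]
      _ ≤ N * μ Set.univ * (m + 1) := by gcongr
  exact absurd hM (not_lt.2 h7)

/-- Equality of the coefficients of two polynomials of degree `≤ n` with equal values at `n + 1`
points. -/
theorem coeff_eq {n : ℕ} (c d : Fin (n + 1) → ℝ) (F : Finset ℝ) (hF : F.card = n + 1)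
    (h : ∀ t ∈ F, ∑ k, c k * t ^ (k : ℕ) = ∑ k, d k * t ^ (k : ℕ)) : c = d := by
  classical
  set p : Polynomial ℝ := ∑ k : Fin (n + 1), Polynomial.C (c k - d k) * Polynomial.X ^ (k : ℕ)
    with hp
  have h0 : p = 0 := by
    refine Polynomial.eq_zero_of_degree_lt_of_eval_finset_eq_zero F ?_ fun t ht => ?_
    · rw [hF]
      exact_mod_cast Polynomial.degree_sum_fin_lt fun k => c k - d k
    · rw [hp, Polynomial.eval_finsetSum]
      have := h t ht
      simp only [Polynomial.eval_mul, Polynomial.eval_C, Polynomial.eval_pow, Polynomial.eval_X]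
      simp only [sub_mul, Finset.sum_sub_distrib]
      rw [this, sub_self]
  funext k
  have h1 : p.coeff k = c k - d k := by
    rw [hp, Polynomial.finsetSum_coeff]
    simp only [Polynomial.coeff_C_mul, Polynomial.coeff_X_pow, mul_ite, mul_one, mul_zero]
    rw [Finset.sum_eq_single k]
    · simp
    · intro j _ hj
      rw [if_neg]
      intro hkj
      exact hj (Fin.ext hkj.symm)
    · simp
  rw [h0, Polynomial.coeff_zero] at h1
  linarith

end Pool.Agent.W_d1cfb0_h99
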