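import Pool.Agent.W_d1cfb0_U59.HomPolish

/-!
# Topological finite generation of homeomorphism groups: one-point compactification

`TFG X`: `Homeo X` with the compact-open topology (of maps and inverses) has a finite subset which
generates a dense subgroup.

(1) `TFG` is invariant under homeomorphisms `X ≃ₜ Y` (conjugation).
(2) For a compact metric space the closure in `homeoTopology` is `clo`.
(3) `TFG (E m)` implies `TFG (OnePoint (E m))`, `m ≥ 1`. Proof: `h ↦ h∞` (`Homeomorph.onePointCongr`) is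
continuous for the topologies `homeoTopology`, so the closure of the group
generated by the `h_i∞` contains the stabiliser of `∞`. Add one homeomorphism `ρ` of `OnePoint (E m)`
which moves `∞` (the antipodal map of the sphere). For `h` with `h ∞ = p ≠ ∞`
choose `s` in the stabiliser with `s (ρ ∞) = p` (a translation); `(s ρ)⁻¹ h` fixes `∞`.
(4) `OnePoint (E m)` is homeomorphic to the sphere of `EuclideanSpace ℝ (Fin (m + 1))`
(`onePointEquivSphereOfFinrankEq`), and this one to the unit sphere of the sup norm of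
`Fin (m + 1) → ℝ` (`x ↦ x / ‖x‖_∞`).
-/

namespace Pool.Agent.W_d1cfb0_h99

open Pool.Agent.W_MP_cd67d3_gt Pool.Agent.W_d1cfb0_h45 Metric Topology Filter Set

/-- `Homeo X` has a finite subset generating a dense subgroup (compact-open topology of maps and
inverses). -/
def TFG (X : Type*) [TopologicalSpace X] : Prop :=
  ∃ F : Set (X ≃ₜ X), F.Finite ∧ ∀ g : X ≃ₜ X,
    g ∈ @closure _ (homeoTopology X) (Subgroup.closure F : Set (X ≃ₜ X))

section

attribute [local instance] homeoTopology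

/-- A continuous homomorphism maps the closure of a finitely generated subgroup into the closure of a finitely
generated one. -/
theorem map_closure_sub {G B : Type*} [Group G] [TopologicalSpace G] [Group B] [TopologicalSpace B]
    (f : G →* B) (hf : Continuous f) (F : Set G) {g : G}
    (hg : g ∈ closure ((Subgroup.closure F : Subgroup G) : Set G)) :
    f g ∈ closure ((Subgroup.closure (f '' F) : Subgroup B) : Set B) := by
  have h1 : f '' ((Subgroup.closure F : Subgroup G) : Set G) =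
      ((Subgroup.closure (f '' F) : Subgroup B) : Set B) := by
    rw [← MonoidHom.map_closure]
    rfl
  rw [← h1]
  exact image_closure_subset_closure_image hf ⟨g, hg, rfl⟩

theorem TFG.congr {X Y : Type*} [TopologicalSpace X] [TopologicalSpace Y] (e : X ≃ₜ Y)
    (h : TFG X) : TFG Y := by
  obtain ⟨F, hF, hd⟩ := h
  obtain ⟨φ, hφ⟩ : ∃ φ : (X ≃ₜ X) →* (Y ≃ₜ Y), ∀ g, φ g = (e.symm.trans g).trans e := by
    refine ⟨MonoidHom.mk' (fun g => (e.symm.trans g).trans e) fun g g' => ?_, fun g => rfl⟩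
    ext y
    show e (g (g' (e.symm y))) = e (g (e.symm (e (g' (e.symm y)))))
    rw [e.symm_apply_apply]
  have hφc : Continuous φ := by
    rw [Pool.Agent.W_MP_cd67d3_gt.continuous_iff]
    have h1 : (toPair ∘ φ : (X ≃ₜ X) → _) = fun g =>
        (((⟨e, e.continuous⟩ : C(X, Y)).comp (toPair g).1).comp ⟨e.symm, e.symm.continuous⟩,
          ((⟨e, e.continuous⟩ : C(X, Y)).comp (toPair g).2).comp ⟨e.symm, e.symm.continuous⟩) := by
      funext g
      show toPair (φ g) = _
      rw [hφ]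
      rfl
    rw [h1]
    refine Continuous.prodMk ?_ ?_
    · exact (ContinuousMap.continuous_precomp _).comp ((ContinuousMap.continuous_postcomp _).comp
        (continuous_fst.comp continuous_toPair))
    · exact (ContinuousMap.continuous_precomp _).comp ((ContinuousMap.continuous_postcomp _).comp
        (continuous_snd.comp continuous_toPair))
  refine ⟨φ '' F, hF.image φ, fun g => ?_⟩
  have h2 := map_closure_sub φ hφc F (hd ((e.trans g).trans e.symm))
  have h3 : φ ((e.trans g).trans e.symm) = g := by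
    rw [hφ]
    ext y
    show e (e.symm (g (e (e.symm y)))) = g y
    rw [e.apply_symm_apply, e.apply_symm_apply]
  rw [h3] at h2
  exact h2

theorem mem_clo_iff {X : Type*} [MetricSpace X] [CompactSpace X] (S : Subgroup (X ≃ₜ X))
    (h : X ≃ₜ X) : h ∈ clo S ↔ h ∈ @closure _ (homeoTopology X) (S : Set (X ≃ₜ X)) := by
  rw [Pool.Agent.W_d1cfb0_U59.clo_eq_closure]

open OnePoint in
/-- Joint continuity of the extension to the one point compactification. -/
theorem continuous_map_onePoint {T X : Type*} [TopologicalSpace T] [TopologicalSpace X]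
    [LocallyCompactSpace X] [T2Space X] (f g : T → C(X, X)) (hf : Continuous f) (hg : Continuous g)
    (hgf : ∀ t x, g t (f t x) = x) :
    Continuous fun p : T × OnePoint X => OnePoint.map (f p.1) p.2 := by
  rw [continuous_iff_continuousAt]
  rintro ⟨t, x⟩
  induction x using OnePoint.rec with
  | infty =>
    show Tendsto (fun p : T × OnePoint X => OnePoint.map (f p.1) p.2) (𝓝 (t, ∞)) (𝓝 ∞)
    rw [hasBasis_nhds_infty.tendsto_right_iff]
    rintro K ⟨hKc, hK⟩
    obtain ⟨L, hL, hKL⟩ := exists_compact_superset (hK.image (g t).continuous)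
    have h1 : ∀ᶠ t' in 𝓝 t, MapsTo (g t') K (interior L) :=
      (hg.tendsto t).eventually (ContinuousMap.eventually_mapsTo hK isOpen_interior
        (mapsTo_iff_image_subset.2 hKL))
    have h2 : ∀ᶠ y in 𝓝 (∞ : OnePoint X), y ∈ ((↑) '' Lᶜ ∪ {∞} : Set (OnePoint X)) :=
      hasBasis_nhds_infty.mem_of_mem ⟨hL.isClosed, hL⟩
    rw [nhds_prod_eq]
    filter_upwards [h1.prod_mk h2] with p hp
    obtain ⟨hp1, hp2⟩ := hp
    rcases hp2 with ⟨y, hy, hyp⟩ | hp2
    · refine Or.inl ⟨f p.1 y, fun hyK => ?_, ?_⟩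
      · have h3 := interior_subset (hp1 hyK)
        rw [hgf] at h3
        exact hy h3
      · rw [← hyp]
        rfl
    · rw [show p.2 = ∞ from hp2]
      exact Or.inr rfl
  | coe y =>
    have h1 : Continuous fun q : T × X => ((f q.1 q.2 : X) : OnePoint X) := by
      refine continuous_coe.comp ?_
      exact ContinuousEval.continuous_eval.comp ((hf.comp continuous_fst).prodMk continuous_snd)
    have h2 : IsOpenEmbedding (Prod.map (id : T → T) ((↑) : X → OnePoint X)) :=
      IsOpenEmbedding.id.prodMap isOpenEmbedding_coe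
    have h3 := (h2.continuousAt_iff (f := Prod.map (id : T → T) ((↑) : X → OnePoint X))
      (g := fun p : T × OnePoint X => OnePoint.map (f p.1) p.2) (x := (t, y))).1
    exact h3 h1.continuousAt

/-- The extension to the one point compactification as a homomorphism. -/
theorem exists_Phi (X : Type*) [TopologicalSpace X] [LocallyCompactSpace X] [T2Space X] :
    ∃ Φ : (X ≃ₜ X) →* (OnePoint X ≃ₜ OnePoint X), Continuous Φ ∧ ∀ g, Φ g = g.onePointCongr := by
  obtain ⟨Φ, hΦ⟩ : ∃ Φ : (X ≃ₜ X) →* (OnePoint X ≃ₜ OnePoint X), ∀ g, Φ g = g.onePointCongr := by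
    refine ⟨MonoidHom.mk' (fun g => g.onePointCongr) fun g g' => ?_, fun g => rfl⟩
    ext x
    induction x using OnePoint.rec with
    | infty => rfl
    | coe y => rfl
  refine ⟨Φ, ?_, hΦ⟩
  rw [Pool.Agent.W_MP_cd67d3_gt.continuous_iff]
  have h1 : (toPair ∘ Φ : (X ≃ₜ X) → _) = fun g =>
      ((⟨g.onePointCongr, g.onePointCongr.continuous⟩ : C(OnePoint X, OnePoint X)),
        (⟨g.onePointCongr.symm, g.onePointCongr.symm.continuous⟩ : C(OnePoint X, OnePoint X))) := by
    funext g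
    show toPair (Φ g) = _
    rw [hΦ]
    rfl
  rw [h1]
  have h2 : Continuous fun g : X ≃ₜ X => (toPair g).1 := continuous_fst.comp continuous_toPair
  have h3 : Continuous fun g : X ≃ₜ X => (toPair g).2 := continuous_snd.comp continuous_toPair
  refine Continuous.prodMk ?_ ?_
  · refine ContinuousMap.continuous_of_continuous_uncurry _ ?_
    exact continuous_map_onePoint _ _ h2 h3 fun g x => g.symm_apply_apply x
  · refine ContinuousMap.continuous_of_continuous_uncurry _ ?_
    exact continuous_map_onePoint _ _ h3 h2 fun g x => g.apply_symm_apply x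

open OnePoint in
/-- A homeomorphism fixing the point at infinity comes from a homeomorphism. -/
theorem exists_restr {X : Type*} [TopologicalSpace X] (g : OnePoint X ≃ₜ OnePoint X) (hg : g ∞ = ∞) :
    ∃ h : X ≃ₜ X, h.onePointCongr = g := by
  have hg' : g.symm ∞ = ∞ := by
    rw [← hg, g.symm_apply_apply, hg]
  have key : ∀ (k : OnePoint X ≃ₜ OnePoint X), k ∞ = ∞ → ∃ f : X → X, ∀ x, ((f x : X) : OnePoint X) = k x := by
    intro k hk
    have h1 : ∀ x : X, ∃ y : X, (y : OnePoint X) = k x := by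
      intro x
      have h2 : k x ≠ ∞ := by
        intro h
        rw [← hk] at h
        exact OnePoint.coe_ne_infty x (k.injective h)
      exact OnePoint.ne_infty_iff_exists.1 h2
    choose f hf using h1
    exact ⟨f, hf⟩
  obtain ⟨f, hf⟩ := key g hg
  obtain ⟨f', hf'⟩ := key g.symm hg'
  have hc : ∀ (k : OnePoint X ≃ₜ OnePoint X) (f : X → X), (∀ x, ((f x : X) : OnePoint X) = k x) → Continuous f := by
    intro k f hf
    rw [isOpenEmbedding_coe.isInducing.continuous_iff]
    have : ((↑) : X → OnePoint X) ∘ f = k ∘ ((↑) : X → OnePoint X) := funext hf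
    rw [this]
    exact k.continuous.comp continuous_coe
  refine ⟨⟨⟨f, f', fun x => ?_, fun x => ?_⟩, hc g f hf, hc g.symm f' hf'⟩, ?_⟩
  · apply coe_injective
    rw [hf', hf, g.symm_apply_apply]
  · apply coe_injective
    rw [hf, hf', g.apply_symm_apply]
  · ext x
    induction x using OnePoint.rec with
    | infty => exact hg.symm
    | coe y => exact hf y

theorem sphere_map_ne {F₁ F₂ : Type*} [NormedAddCommGroup F₁] [NormedSpace ℝ F₁]
    [NormedAddCommGroup F₂] [NormedSpace ℝ F₂] (M : F₁ ≃L[ℝ] F₂) (s : sphere (0 : F₁) 1) : ‖M s‖ ≠ 0 := by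
  intro h
  rw [norm_eq_zero, M.map_eq_zero_iff] at h
  have hs := mem_sphere_zero_iff_norm.1 s.2
  rw [h, norm_zero] at hs
  exact zero_ne_one hs

/-- The radial map between unit spheres. -/
noncomputable def sphereMap {F₁ F₂ : Type*} [NormedAddCommGroup F₁] [NormedSpace ℝ F₁]
    [NormedAddCommGroup F₂] [NormedSpace ℝ F₂] (M : F₁ ≃L[ℝ] F₂) (s : sphere (0 : F₁) 1) :
    sphere (0 : F₂) 1 :=
  ⟨‖M s‖⁻¹ • M s, by
    rw [mem_sphere_zero_iff_norm, norm_smul, norm_inv, norm_norm, inv_mul_cancel₀ (sphere_map_ne M s)]⟩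

theorem continuous_sphereMap {F₁ F₂ : Type*} [NormedAddCommGroup F₁] [NormedSpace ℝ F₁]
    [NormedAddCommGroup F₂] [NormedSpace ℝ F₂] (M : F₁ ≃L[ℝ] F₂) : Continuous (sphereMap M) := by
  have h1 : Continuous fun s : sphere (0 : F₁) 1 => M s := M.continuous.comp continuous_subtype_val
  exact Continuous.subtype_mk ((h1.norm.inv₀ (sphere_map_ne M)).smul h1) _

theorem sphereMap_symm {F₁ F₂ : Type*} [NormedAddCommGroup F₁] [NormedSpace ℝ F₁]
    [NormedAddCommGroup F₂] [NormedSpace ℝ F₂] (M : F₁ ≃L[ℝ] F₂) (s : sphere (0 : F₁) 1) :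
    sphereMap M.symm (sphereMap M s) = s := by
  apply Subtype.ext
  show ‖M.symm (‖M s‖⁻¹ • M s)‖⁻¹ • M.symm (‖M s‖⁻¹ • M s) = (s : F₁)
  have h0 := sphere_map_ne M s
  rw [map_smul, M.symm_apply_apply, norm_smul, norm_inv, norm_norm, mem_sphere_zero_iff_norm.1 s.2,
    mul_one, inv_inv, smul_smul, mul_inv_cancel₀ h0, one_smul]

theorem sphere_homeo {E₁ E₂ : Type*} [NormedAddCommGroup E₁] [NormedSpace ℝ E₁] [NormedAddCommGroup E₂]
    [NormedSpace ℝ E₂] (L : E₁ ≃L[ℝ] E₂) : Nonempty (sphere (0 : E₁) 1 ≃ₜ sphere (0 : E₂) 1) :=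
  ⟨⟨⟨sphereMap L, sphereMap L.symm, sphereMap_symm L, sphereMap_symm L.symm⟩,
    continuous_sphereMap L, continuous_sphereMap L.symm⟩⟩

theorem onePoint_homeo_sphere (m : ℕ) :
    Nonempty (OnePoint (EuclideanSpace ℝ (Fin m)) ≃ₜ sphere (0 : Fin (m + 1) → ℝ) 1) := by
  have e := onePointEquivSphereOfFinrankEq (ι := Fin (m + 1)) (V := EuclideanSpace ℝ (Fin m)) (by simp)
  obtain ⟨e'⟩ := sphere_homeo (EuclideanSpace.equiv (Fin (m + 1)) ℝ)
  exact ⟨e.trans e'⟩

open OnePoint in
theorem TFG.onePoint {m : ℕ} (hm : 1 ≤ m) (h : TFG (EuclideanSpace ℝ (Fin m))) :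
    TFG (OnePoint (EuclideanSpace ℝ (Fin m))) := by
  obtain ⟨F, hF, hd⟩ := h
  obtain ⟨Φ, hΦc, hΦ⟩ := exists_Phi (EuclideanSpace ℝ (Fin m))
  obtain ⟨e⟩ := onePoint_homeo_sphere m
  obtain ⟨ρ, hρ⟩ : ∃ ρ : OnePoint (EuclideanSpace ℝ (Fin m)) ≃ₜ OnePoint (EuclideanSpace ℝ (Fin m)), ρ ∞ ≠ ∞ := by
    refine ⟨(e.trans (Homeomorph.neg _)).trans e.symm, fun h => ?_⟩
    have h1 : - e ∞ = e ∞ := by
      have h2 := congrArg e h
      rw [Homeomorph.trans_apply, Homeomorph.trans_apply, e.apply_symm_apply] at h2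
      exact h2
    have h3 : -((e ∞ : sphere (0 : Fin (m + 1) → ℝ) 1) : Fin (m + 1) → ℝ) = e ∞ := congrArg Subtype.val h1
    have h4 : ((e ∞ : sphere (0 : Fin (m + 1) → ℝ) 1) : Fin (m + 1) → ℝ) = 0 := self_eq_neg.1 h3.symm
    have h5 := mem_sphere_zero_iff_norm.1 (e ∞).2
    rw [h4, norm_zero] at h5
    exact zero_ne_one h5
  have : IsTopologicalGroup (OnePoint (EuclideanSpace ℝ (Fin m)) ≃ₜ OnePoint (EuclideanSpace ℝ (Fin m))) :=
    isTopologicalGroup
  refine ⟨insert ρ (Φ '' F), (hF.image Φ).insert ρ, fun g => ?_⟩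
  obtain ⟨H, hH⟩ : ∃ H, H = (Subgroup.closure (insert ρ (Φ '' F))).topologicalClosure := ⟨_, rfl⟩
  have hHc : ∀ k, k ∈ H ↔ k ∈ closure ((Subgroup.closure (insert ρ (Φ '' F)) : Subgroup
      (OnePoint (EuclideanSpace ℝ (Fin m)) ≃ₜ OnePoint (EuclideanSpace ℝ (Fin m)))) :
      Set (OnePoint (EuclideanSpace ℝ (Fin m)) ≃ₜ OnePoint (EuclideanSpace ℝ (Fin m)))) := by
    intro k
    rw [hH]
    rfl
  refine (hHc g).1 ?_
  have hst : ∀ k, Φ k ∈ H := by
    intro k
    have h1 := map_closure_sub Φ hΦc F (hd k)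
    exact (hHc _).2 (closure_mono (Subgroup.closure_mono (subset_insert _ _)) h1)
  have hρH : ρ ∈ H := (hHc _).2 (subset_closure (Subgroup.subset_closure (mem_insert _ _)))
  have hfix : ∀ k : OnePoint (EuclideanSpace ℝ (Fin m)) ≃ₜ OnePoint (EuclideanSpace ℝ (Fin m)), k ∞ = ∞ → k ∈ H := by
    intro k hk
    obtain ⟨k', hk'⟩ := exists_restr k hk
    rw [← hk', ← hΦ]
    exact hst k'
  by_cases hg : g ∞ = ∞
  · exact hfix g hg
  · obtain ⟨y, hy⟩ := OnePoint.ne_infty_iff_exists.1 hg
    obtain ⟨z, hz⟩ := OnePoint.ne_infty_iff_exists.1 hρ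
    obtain ⟨s, hs⟩ : ∃ s, s = Φ (Homeomorph.addRight (y - z)) := ⟨_, rfl⟩
    have hsH : s ∈ H := hs ▸ hst _
    have h1 : s (ρ ∞) = g ∞ := by
      rw [← hz, ← hy, hs, hΦ]
      show (((z + (y - z) : EuclideanSpace ℝ (Fin m))) : OnePoint (EuclideanSpace ℝ (Fin m))) = y
      rw [add_sub_cancel]
    have h2 : ((s * ρ)⁻¹ * g) ∞ = ∞ := by
      show (s * ρ)⁻¹ (g ∞) = ∞
      rw [← h1]
      exact (s * ρ).symm_apply_apply ∞
    have h3 := H.mul_mem (H.mul_mem hsH hρH) (hfix _ h2)
    rwa [mul_inv_cancel_left] at h3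

end

/-- In terms of `clo` on the unit sphere of the sup norm. -/
theorem sphere_clo {m : ℕ} (hm : 1 ≤ m) (h : TFG (EuclideanSpace ℝ (Fin m))) :
    ∃ F : Set (sphere (0 : Fin (m + 1) → ℝ) 1 ≃ₜ sphere (0 : Fin (m + 1) → ℝ) 1), F.Finite ∧
      ∀ b, b ∈ clo (Subgroup.closure F) := by
  obtain ⟨e⟩ := onePoint_homeo_sphere m
  obtain ⟨F, hF, hd⟩ := TFG.congr e (h.onePoint hm)
  exact ⟨F, hF, fun b => (mem_clo_iff _ b).2 (hd b)⟩

end Pool.Agent.W_d1cfb0_h99
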