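import Pool.Agent.W_d1cfb0_h99.Sigma
import Pool.Agent.W_d1cfb0_h99.OneP
import Pool.Agent.W_cd67d3_h45.Final

/-!
# The boundary of the cube, and the final forms
-/

namespace Pool.Agent.W_d1cfb0_h99

open Metric Set MeasureTheory Topology Filter Pool.Agent.W_d1cfb0_h45 Pool.Agent.W_MP_cd67d3_gt

/-- The boundary of the cube. -/
def Bd (n : ℕ) : Set (En n) := {x | x ∈ Cu n ∧ ∃ i, x i = 0 ∨ x i = 1}

theorem mem_sphere_iff {n : ℕ} (hn : 1 ≤ n) (x : V n) : x ∈ sphere (0 : V n) 1 ↔ Phi n x ∈ Bd n := by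
  constructor
  · intro h
    have h1 : x ∈ closedBall (0 : V n) 1 := sphere_subset_closedBall h
    exact ⟨(mem_ball_iff x).1 h1, (norm_eq_one_iff hn h1).1 (mem_sphere_zero_iff_norm.1 h)⟩
  · rintro ⟨h1, h2⟩
    have h3 := (mem_ball_iff x).2 h1
    exact mem_sphere_zero_iff_norm.2 ((norm_eq_one_iff hn h3).2 h2)

/-- The sphere of the sup norm is the boundary of the cube. -/
noncomputable def kap {n : ℕ} (hn : 1 ≤ n) : sphere (0 : V n) 1 ≃ₜ Bd n :=
  (Phi n).subtype (mem_sphere_iff hn)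

theorem kap_val {n : ℕ} (hn : 1 ≤ n) (s : sphere (0 : V n) 1) :
    ((kap hn s : Bd n) : En n) = (io n s : En n) := rfl

/-- `Homeo X` has a finite set generating a subgroup dense for the uniform distance of maps and
inverses. -/
def FG (X : Type*) [PseudoMetricSpace X] : Prop :=
  ∃ (k : ℕ) (T : Fin k → (X ≃ₜ X)), ∀ h, h ∈ clo (Subgroup.closure (Set.range T))

theorem FG_iff {X : Type*} [MetricSpace X] [CompactSpace X] : FG X ↔ TFG X := by
  constructor
  · rintro ⟨k, T, h⟩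
    exact ⟨Set.range T, Set.finite_range T, fun g => (mem_clo_iff _ g).1 (h g)⟩
  · rintro ⟨F, hF, h⟩
    obtain ⟨k, T, hT⟩ := exists_range hF
    refine ⟨k, T, fun g => ?_⟩
    rw [hT]
    exact (mem_clo_iff _ g).2 (h g)

theorem FG_sphere_iff {n : ℕ} (hn : 1 ≤ n) : FG (sphere (0 : V n) 1) ↔ FG (Bd n) := by
  have : CompactSpace (Bd n) := (kap hn).compactSpace
  rw [FG_iff, FG_iff]
  exact ⟨fun h => h.congr (kap hn), fun h => h.congr (kap hn).symm⟩

/-- `Σ_n` has a finite set generating a dense subgroup. -/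
def SigFG (n : ℕ) : Prop :=
  ∃ (k : ℕ) (T : Fin k → (Cu n ≃ₜ Cu n)), (∀ i, PV (T i)) ∧
    ∀ h, PV h → h ∈ clo (Subgroup.closure (Set.range T))

theorem sigFG_of_sphere {n : ℕ} (hn : 2 ≤ n) (h : FG (sphere (0 : V n) 1)) : SigFG n := by
  obtain ⟨k, T, hT⟩ := h
  exact of_sphere hn (Set.finite_range T) hT

/-- Approximation on all balls gives a point of the closure for the compact-open topology. -/
theorem mem_closure_of_balls {m : ℕ} (S : Set (En m ≃ₜ En m)) (h : En m ≃ₜ En m)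
    (hh : ∀ R : ℝ, ∀ ε : ℝ, 0 < ε → ∃ g ∈ S, ∀ p, ‖p‖ ≤ R →
      dist (g p) (h p) < ε ∧ dist (g⁻¹ p) (h⁻¹ p) < ε) :
    h ∈ @closure _ (homeoTopology (En m)) S := by
  letI : TopologicalSpace (En m ≃ₜ En m) := homeoTopology (En m)
  have hk : ∀ k : ℕ, ∃ g ∈ S, ∀ p, ‖p‖ ≤ (k : ℝ) →
      dist (g p) (h p) < 1 / ((k : ℝ) + 1) ∧ dist (g⁻¹ p) (h⁻¹ p) < 1 / ((k : ℝ) + 1) :=
    fun k => hh k _ (by positivity)
  choose g hg hgd using hk
  have hlim : Tendsto g atTop (𝓝 h) := by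
    rw [Pool.Agent.W_MP_cd67d3_gt.tendsto_iff]
    have key : ∀ (u : ℕ → C(En m, En m)) (v : C(En m, En m)),
        (∀ (k : ℕ) p, ‖p‖ ≤ (k : ℝ) → dist (u k p) (v p) < 1 / ((k : ℝ) + 1)) →
        Tendsto u atTop (𝓝 v) := by
      intro u v huv
      rw [ContinuousMap.tendsto_iff_forall_isCompact_tendstoUniformlyOn]
      intro K hK
      rw [Metric.tendstoUniformlyOn_iff]
      intro ε hε
      obtain ⟨R, hR⟩ := hK.isBounded.exists_norm_le
      obtain ⟨N1, hN1⟩ := exists_nat_gt R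
      obtain ⟨N2, hN2⟩ := exists_nat_one_div_lt hε
      filter_upwards [eventually_ge_atTop N1, eventually_ge_atTop N2] with k hk1 hk2 p hp
      rw [dist_comm]
      have h1 : (N1 : ℝ) ≤ k := by exact_mod_cast hk1
      have h2 : (N2 : ℝ) ≤ k := by exact_mod_cast hk2
      refine (huv k p ((hR p hp).trans (hN1.le.trans h1))).trans_le ?_
      refine le_trans ?_ hN2.le
      exact one_div_le_one_div_of_le (by positivity) (by linarith)
    exact (key (fun k => ⟨g k, (g k).continuous⟩) ⟨h, h.continuous⟩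
      fun k p hp => (hgd k p hp).1).prodMk_nhds
      (key (fun k => ⟨(g k).symm, (g k).symm.continuous⟩) ⟨h.symm, h.symm.continuous⟩
        fun k p hp => (hgd k p hp).2)
  exact mem_closure_of_tendsto hlim (Eventually.of_forall hg)

/-- `Homeo (ℝ^m)` has a finite set generating a subgroup dense for uniform convergence on compact
sets of maps and inverses. -/
def EuFG (m : ℕ) : Prop :=
  ∃ (k : ℕ) (T : Fin k → (En m ≃ₜ En m)), ∀ h : En m ≃ₜ En m, ∀ R : ℝ, ∀ ε : ℝ, 0 < ε →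
    ∃ g ∈ Subgroup.closure (Set.range T), ∀ p, ‖p‖ ≤ R →
      dist (g p) (h p) < ε ∧ dist (g⁻¹ p) (h⁻¹ p) < ε

theorem EuFG.tfg {m : ℕ} (h : EuFG m) : TFG (En m) := by
  obtain ⟨k, T, hT⟩ := h
  exact ⟨Set.range T, Set.finite_range T, fun g => mem_closure_of_balls _ g (hT g)⟩

theorem sigFG_of_tfg {m : ℕ} (hm : 1 ≤ m) (h : TFG (En m)) : SigFG (m + 1) := by
  obtain ⟨F, hF, hd⟩ := sphere_clo hm h
  exact of_sphere (by omega) hF hd

theorem sigFG_three : SigFG 3 := by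
  refine sigFG_of_tfg (m := 2) (by norm_num) ?_
  obtain ⟨h₁, h₂, h₃, -, -, -, hd⟩ := Pool.Agent.W_cd67d3_h45.final 2 le_rfl
  exact ⟨{h₁, h₂, h₃}, Set.toFinite _, hd⟩

end Pool.Agent.W_d1cfb0_h99
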