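import Pool.Agent.W_d1cfb0_h99.OneP
import Pool.Agent.W_MP_cd67d3_gt.Linear

/-!
# The homeomorphisms of the sphere which are the identity on a nonempty open set

There is a finite set of homeomorphisms of the sphere such that every homeomorphism which is the identity on some
nonempty open set is in the closure of the group generated by this set.
-/

namespace Pool.Agent.W_d1cfb0_h99

open Pool.Agent.W_MP_cd67d3_gt Pool.Agent.W_d1cfb0_h45 Metric Topology Filter Set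

section

attribute [local instance] homeoTopology

/-- Conjugation by a homeomorphism. -/
theorem exists_conj {X Y : Type*} [TopologicalSpace X] [TopologicalSpace Y] (e : X ≃ₜ Y) :
    ∃ φ : (X ≃ₜ X) →* (Y ≃ₜ Y), Continuous φ ∧ ∀ g, φ g = (e.symm.trans g).trans e := by
  obtain ⟨φ, hφ⟩ : ∃ φ : (X ≃ₜ X) →* (Y ≃ₜ Y), ∀ g, φ g = (e.symm.trans g).trans e := by
    refine ⟨MonoidHom.mk' (fun g => (e.symm.trans g).trans e) fun g g' => ?_, fun g => rfl⟩
    ext y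
    show e (g (g' (e.symm y))) = e (g (e.symm (e (g' (e.symm y)))))
    rw [e.symm_apply_apply]
  refine ⟨φ, ?_, hφ⟩
  rw [Pool.Agent.W_MP_cd67d3_gt.continuous_iff]
  have h1 : (toPair ∘ φ : (X ≃ₜ X) → _) = fun g =>
      (((⟨e, e.continuous⟩ : C(X, Y)).comp (toPair g).1).comp ⟨e.symm, e.symm.continuous⟩,
        ((⟨e, e.continuous⟩ : C(X, Y)).comp (toPair g).2).comp ⟨e.symm, e.symm.continuous⟩) := by
    funext g
    show toPair (φ g) = _
    rw [hφ]
    rfl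
  rw [h1]
  refine Continuous.prodMk ?_ ?_
  · exact (ContinuousMap.continuous_precomp _).comp ((ContinuousMap.continuous_postcomp _).comp
      (continuous_fst.comp continuous_toPair))
  · exact (ContinuousMap.continuous_precomp _).comp ((ContinuousMap.continuous_postcomp _).comp
      (continuous_snd.comp continuous_toPair))

open OnePoint in
/-- The same for the one point compactification of the Euclidean space. -/
theorem exists_stable_onePoint {m : ℕ} (hm : 1 ≤ m) :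
    ∃ F : Set (OnePoint (EuclideanSpace ℝ (Fin m)) ≃ₜ OnePoint (EuclideanSpace ℝ (Fin m))), F.Finite ∧
      ∀ b : OnePoint (EuclideanSpace ℝ (Fin m)) ≃ₜ OnePoint (EuclideanSpace ℝ (Fin m)),
        (∃ O, IsOpen O ∧ O.Nonempty ∧ ∀ x ∈ O, b x = x) →
        b ∈ closure ((Subgroup.closure F :
          Subgroup (OnePoint (EuclideanSpace ℝ (Fin m)) ≃ₜ OnePoint (EuclideanSpace ℝ (Fin m)))) :
          Set (OnePoint (EuclideanSpace ℝ (Fin m)) ≃ₜ OnePoint (EuclideanSpace ℝ (Fin m)))) := by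
  have : Nonempty (Fin m) := ⟨⟨0, by omega⟩⟩
  have : Nontrivial (EuclideanSpace ℝ (Fin m)) := inferInstance
  obtain ⟨v, hv⟩ := exists_norm_eq (EuclideanSpace ℝ (Fin m)) (zero_le_one)
  obtain ⟨D, hD⟩ : ∃ D : Set (EuclideanSpace ℝ (Fin m) ≃ₜ EuclideanSpace ℝ (Fin m)),
      D = {h | ∃ R : ℝ, ∀ x, R < ‖x‖ → h x = x} := ⟨_, rfl⟩
  obtain ⟨Φ, -, hΦ⟩ := encode hv D (fun h hh => by rw [hD] at hh; exact hh)
  have : IsTopologicalGroup (EuclideanSpace ℝ (Fin m) ≃ₜ EuclideanSpace ℝ (Fin m)) := isTopologicalGroup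
  have : IsTopologicalGroup (OnePoint (EuclideanSpace ℝ (Fin m)) ≃ₜ OnePoint (EuclideanSpace ℝ (Fin m))) :=
    isTopologicalGroup
  obtain ⟨Ψ, hΨc, hΨ⟩ := exists_Phi (EuclideanSpace ℝ (Fin m))
  obtain ⟨e⟩ := onePoint_homeo_sphere m
  obtain ⟨ρ, hρ⟩ : ∃ ρ : OnePoint (EuclideanSpace ℝ (Fin m)) ≃ₜ OnePoint (EuclideanSpace ℝ (Fin m)), ρ ∞ ≠ ∞ := by
    refine ⟨(e.trans (Homeomorph.neg _)).trans e.symm, fun h => ?_⟩
    have h1 : - e ∞ = e ∞ := by
      have h2 := congrArg e h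
      rw [Homeomorph.trans_apply, Homeomorph.trans_apply, e.apply_symm_apply] at h2
      exact h2
    have h3 : -((e ∞ : sphere (0 : Fin (m + 1) → ℝ) 1) : Fin (m + 1) → ℝ) = e ∞ := congrArg Subtype.val h1
    have h4 : ((e ∞ : sphere (0 : Fin (m + 1) → ℝ) 1) : Fin (m + 1) → ℝ) = 0 := self_eq_neg.1 h3.symm
    have h5 := mem_sphere_zero_iff_norm.1 (e ∞).2
    rw [h4, norm_zero] at h5
    exact zero_ne_one h5
  -- translations
  obtain ⟨H₁, hH₁⟩ : ∃ H₁ : Subgroup (EuclideanSpace ℝ (Fin m) ≃ₜ EuclideanSpace ℝ (Fin m)),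
      H₁ = (Subgroup.closure {transl v, Φ}).topologicalClosure := ⟨_, rfl⟩
  have hH₁c : (H₁ : Set (EuclideanSpace ℝ (Fin m) ≃ₜ EuclideanSpace ℝ (Fin m))) =
      closure ((Subgroup.closure {transl v, Φ} : Subgroup _) : Set _) := by
    rw [hH₁]
    rfl
  have htr : ∀ w, transl w ∈ H₁ := by
    intro w
    refine transl_mem (r := 1) le_rfl ?_ ?_ w
    · rw [hH₁c]
      exact isClosed_closure
    · intro h hh
      rw [hH₁c]
      refine hΦ ?_
      rw [hD]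
      exact hh.2
  refine ⟨insert ρ (Ψ '' {transl v, Φ}), ((Set.toFinite _).image Ψ).insert ρ, fun b hb => ?_⟩
  obtain ⟨H, hH⟩ : ∃ H, H = (Subgroup.closure (insert ρ (Ψ '' {transl v, Φ}))).topologicalClosure := ⟨_, rfl⟩
  have hHc : ∀ k, k ∈ H ↔ k ∈ closure ((Subgroup.closure (insert ρ (Ψ '' {transl v, Φ})) : Subgroup
      (OnePoint (EuclideanSpace ℝ (Fin m)) ≃ₜ OnePoint (EuclideanSpace ℝ (Fin m)))) :
      Set (OnePoint (EuclideanSpace ℝ (Fin m)) ≃ₜ OnePoint (EuclideanSpace ℝ (Fin m)))) := by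
    intro k
    rw [hH]
    rfl
  refine (hHc b).1 ?_
  have hst : ∀ k, k ∈ H₁ → Ψ k ∈ H := by
    intro k hk
    have hk' : k ∈ closure ((Subgroup.closure {transl v, Φ} : Subgroup
        (EuclideanSpace ℝ (Fin m) ≃ₜ EuclideanSpace ℝ (Fin m))) : Set _) := by
      rw [← hH₁c]
      exact hk
    have h1 := map_closure_sub Ψ hΨc {transl v, Φ} hk'
    exact (hHc _).2 (closure_mono (Subgroup.closure_mono (subset_insert _ _)) h1)
  have hρH : ρ ∈ H := (hHc _).2 (subset_closure (Subgroup.subset_closure (mem_insert _ _)))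
  obtain ⟨O, hO, hOne, hbO⟩ := hb
  have : NoncompactSpace (EuclideanSpace ℝ (Fin m)) := inferInstance
  obtain ⟨x, hxO, y, hy⟩ := (denseRange_coe (X := EuclideanSpace ℝ (Fin m))).inter_open_nonempty O hO hOne
  obtain ⟨z, hz⟩ := OnePoint.ne_infty_iff_exists.1 hρ
  obtain ⟨g, hg⟩ : ∃ g, g = ρ⁻¹ * Ψ (transl (z - y)) := ⟨_, rfl⟩
  have hgH : g ∈ H := by
    rw [hg]
    exact H.mul_mem (H.inv_mem hρH) (hst _ (htr _))
  have hgx : g x = ∞ := by
    rw [hg, ← hy, hΨ]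
    show ρ⁻¹ (((z - y + y : EuclideanSpace ℝ (Fin m))) : OnePoint (EuclideanSpace ℝ (Fin m))) = ∞
    rw [sub_add_cancel, hz]
    exact ρ.symm_apply_apply ∞
  have hgx' : g⁻¹ ∞ = x := by
    rw [← hgx]
    exact g.symm_apply_apply x
  obtain ⟨c, hc⟩ : ∃ c, c = g * b * g⁻¹ := ⟨_, rfl⟩
  have hcfix : ∀ p, g⁻¹ p ∈ O → c p = p := by
    intro p hp
    rw [hc]
    show g (b (g⁻¹ p)) = p
    rw [hbO _ hp]
    exact g.apply_symm_apply p
  have hcinf : c ∞ = ∞ := hcfix ∞ (by rw [hgx']; exact hxO)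
  obtain ⟨k, hk⟩ := exists_restr c hcinf
  have hkD : k ∈ D := by
    have h1 : (g⁻¹ : OnePoint (EuclideanSpace ℝ (Fin m)) ≃ₜ OnePoint (EuclideanSpace ℝ (Fin m))) ⁻¹' O ∈
        𝓝 (∞ : OnePoint (EuclideanSpace ℝ (Fin m))) := by
      refine (hO.preimage (g⁻¹ : OnePoint (EuclideanSpace ℝ (Fin m)) ≃ₜ _).continuous).mem_nhds ?_
      rw [mem_preimage, hgx']
      exact hxO
    obtain ⟨K, ⟨-, hK⟩, hKO⟩ := hasBasis_nhds_infty.mem_iff.1 h1
    obtain ⟨R, hR⟩ := hK.isBounded.exists_norm_le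
    rw [hD]
    refine ⟨R, fun p hp => ?_⟩
    have hpK : p ∉ K := fun h => absurd (hR p h) (not_le.2 hp)
    have h2 := hcfix p (hKO (Or.inl ⟨p, hpK, rfl⟩))
    rw [← hk] at h2
    exact coe_injective h2
  have hcH : c ∈ H := by
    rw [← hk, ← hΨ]
    refine hst k ?_
    have : k ∈ (H₁ : Set (EuclideanSpace ℝ (Fin m) ≃ₜ EuclideanSpace ℝ (Fin m))) := by
      rw [hH₁c]
      exact hΦ hkD
    exact this
  have hbe : b = g⁻¹ * c * g := by
    rw [hc]
    group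
  rw [hbe]
  exact H.mul_mem (H.mul_mem (H.inv_mem hgH) hcH) hgH

end

theorem exists_stable_gen {m : ℕ} (hm : 1 ≤ m) :
    ∃ F : Set (sphere (0 : Fin (m + 1) → ℝ) 1 ≃ₜ sphere (0 : Fin (m + 1) → ℝ) 1), F.Finite ∧
      ∀ b, (∃ O, IsOpen O ∧ O.Nonempty ∧ ∀ x ∈ O, b x = x) → b ∈ clo (Subgroup.closure F) := by
  obtain ⟨F, hF, hd⟩ := exists_stable_onePoint hm
  obtain ⟨e⟩ := onePoint_homeo_sphere m
  obtain ⟨φ, hφc, hφ⟩ := exists_conj e
  refine ⟨φ '' F, hF.image φ, fun b hb => (mem_clo_iff _ b).2 ?_⟩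
  obtain ⟨O, hO, ⟨x, hx⟩, hbO⟩ := hb
  have h1 := hd ((e.trans b).trans e.symm) ⟨e ⁻¹' O, hO.preimage e.continuous,
    ⟨e.symm x, by rw [mem_preimage, e.apply_symm_apply]; exact hx⟩, fun p hp => by
      rw [Homeomorph.trans_apply, Homeomorph.trans_apply, hbO _ hp, e.symm_apply_apply]⟩
  have h2 := @map_closure_sub _ _ _ (homeoTopology _) _ (homeoTopology _) φ hφc F _ h1
  have h3 : φ ((e.trans b).trans e.symm) = b := by
    rw [hφ]
    refine Homeomorph.ext fun y => ?_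
    show e (e.symm (b (e (e.symm y)))) = b y
    rw [e.apply_symm_apply, e.apply_symm_apply]
  rw [h3] at h2
  exact h2

end Pool.Agent.W_d1cfb0_h99
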