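import Pool.Agent.W_d1cfb0_h99.FinA
import Pool.Agent.W_d1cfb0_h99.Stab

/-!
# Boundary values which are limits of products of homeomorphisms with fixed open sets
-/

namespace Pool.Agent.W_d1cfb0_h99

open Metric Set MeasureTheory Topology Filter Pool.Agent.W_d1cfb0_h45 Pool.Agent.W_MP_cd67d3_gt

/-- `b` is the identity on a nonempty open subset of the boundary of the cube. -/
def IsLoc {n : ℕ} (b : Bd n ≃ₜ Bd n) : Prop :=
  ∃ O : Set (Bd n), IsOpen O ∧ O.Nonempty ∧ ∀ x ∈ O, b x = x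

/-- `b` is a reflection `x_i ↦ 1 - x_i`. -/
def IsRefl {n : ℕ} (b : Bd n ≃ₜ Bd n) : Prop :=
  ∃ i, ∀ p : Bd n, ((b p : Bd n) : En n) i = 1 - (p : En n) i ∧
    ∀ j, j ≠ i → ((b p : Bd n) : En n) j = (p : En n) j

/-- The group generated by these homeomorphisms. -/
def StG (n : ℕ) : Subgroup (Bd n ≃ₜ Bd n) := Subgroup.closure {b | IsLoc b ∨ IsRefl b}

/-- At most `n` reflections. -/
theorem finite_refl (n : ℕ) : {b : Bd n ≃ₜ Bd n | IsRefl b}.Finite := by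
  have h1 : {b : Bd n ≃ₜ Bd n | IsRefl b} ⊆ ⋃ i : Fin n, {b : Bd n ≃ₜ Bd n |
      ∀ p : Bd n, ((b p : Bd n) : En n) i = 1 - (p : En n) i ∧
        ∀ j, j ≠ i → ((b p : Bd n) : En n) j = (p : En n) j} := by
    rintro b ⟨i, hi⟩
    exact mem_iUnion.2 ⟨i, hi⟩
  refine (Set.finite_iUnion fun i => ?_).subset h1
  refine Set.Subsingleton.finite ?_
  intro b hb c hc
  ext p j
  by_cases h : j = i
  · subst h
    rw [(hb p).1, (hc p).1]
  · rw [(hb p).2 j h, (hc p).2 j h]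

theorem stable_part {n : ℕ} (hn : 2 ≤ n) :
    ∃ (k : ℕ) (T : Fin k → (Cu n ≃ₜ Cu n)), (∀ i, PV (T i)) ∧
      ∀ h : Cu n ≃ₜ Cu n, PV h →
        (∀ ε : ℝ, 0 < ε → ∃ b ∈ StG n, ∀ p : Bd n,
          dist ((b p : Bd n) : En n) (h ⟨p, p.2.1⟩ : Cu n) < ε ∧
          dist ((b⁻¹ p : Bd n) : En n) (h⁻¹ ⟨p, p.2.1⟩ : Cu n) < ε) →
        h ∈ clo (Subgroup.closure (Set.range T)) := by
  obtain ⟨m, rfl⟩ : ∃ m, n = m + 1 := ⟨n - 1, by omega⟩
  have hm : 1 ≤ m := by omega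
  have hn1 : 1 ≤ m + 1 := by omega
  obtain ⟨F, hF, hFs⟩ := exists_stable_gen hm
  set κ := kap hn1 with hκ
  have : CompactSpace (Bd (m + 1)) := κ.compactSpace
  -- conjugation to the sphere
  obtain ⟨φ, hφ⟩ : ∃ φ : (Bd (m + 1) ≃ₜ Bd (m + 1)) →*
      (sphere (0 : V (m + 1)) 1 ≃ₜ sphere (0 : V (m + 1)) 1),
      ∀ g, φ g = (κ.trans g).trans κ.symm := by
    refine ⟨MonoidHom.mk' (fun g => (κ.trans g).trans κ.symm) fun g g' => ?_, fun g => rfl⟩
    apply Homeomorph.ext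
    intro s
    show κ.symm (g (g' (κ s))) = κ.symm (g (κ (κ.symm (g' (κ s)))))
    rw [κ.apply_symm_apply]
  set F' : Set (sphere (0 : V (m + 1)) 1 ≃ₜ sphere (0 : V (m + 1)) 1) :=
    F ∪ φ '' {b | IsRefl b} with hF'
  have hF'f : F'.Finite := hF.union ((finite_refl _).image _)
  have hsub : clo (Subgroup.closure F) ⊆ clo (Subgroup.closure F') := by
    intro g hg ε hε
    obtain ⟨u, hu, h1⟩ := hg ε hε
    exact ⟨u, Subgroup.closure_mono subset_union_left hu, h1⟩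
  have hφS : ∀ b ∈ StG (m + 1), φ b ∈ clo (Subgroup.closure F') := by
    intro b hb
    refine Subgroup.closure_induction (p := fun b _ => φ b ∈ clo (Subgroup.closure F')) ?_ ?_ ?_ ?_ hb
    · rintro b (⟨O, hO, hne, hb⟩ | hb)
      · refine hsub (hFs _ ⟨κ ⁻¹' O, hO.preimage κ.continuous, ?_, ?_⟩)
        · obtain ⟨x, hx⟩ := hne
          exact ⟨κ.symm x, by rw [mem_preimage, κ.apply_symm_apply]; exact hx⟩
        · intro x hx
          rw [hφ]
          show κ.symm (b (κ x)) = x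
          rw [hb _ hx, κ.symm_apply_apply]
      · exact sub_clo _ (Subgroup.subset_closure (Or.inr ⟨b, hb, rfl⟩))
    · rw [map_one]
      exact sub_clo _ (Subgroup.one_mem _)
    · intro b c _ _ h1 h2
      rw [map_mul]
      exact clo_mul _ h1 h2
    · intro b _ h1
      rw [map_inv]
      exact clo_inv _ h1
  obtain ⟨k, T, hT, hmain⟩ := main_loc hn F' hF'f
  refine ⟨k, T, hT, fun h hh hb => ?_⟩
  obtain ⟨c, hc⟩ := res h
  refine hmain h hh c hc (clo_cl _ _ fun ε hε => ?_)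
  obtain ⟨δ, hδ, hu⟩ := Metric.uniformContinuous_iff.1
    (CompactSpace.uniformContinuous_of_continuous κ.symm.continuous) ε hε
  obtain ⟨b, hbS, hbd⟩ := hb δ hδ
  refine ⟨φ b, hφS b hbS, fun s => ⟨?_, ?_⟩⟩
  · have h1 : κ.symm (b (κ s)) = φ b s := by
      rw [hφ]
      rfl
    have h2 : κ.symm (κ (c s)) = c s := κ.symm_apply_apply _
    rw [← h1, ← h2]
    refine hu ?_
    have h3 := (hbd (κ s)).1
    have h4 : (h ⟨κ s, (κ s).2.1⟩ : Cu (m + 1)) = io (m + 1) (c s) := hc s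
    rw [h4] at h3
    exact h3
  · have h1 : κ.symm (b⁻¹ (κ s)) = (φ b)⁻¹ s := by
      rw [← map_inv, hφ]
      rfl
    have h2 : κ.symm (κ (c⁻¹ s)) = c⁻¹ s := κ.symm_apply_apply _
    rw [← h1, ← h2]
    refine hu ?_
    have h3 := (hbd (κ s)).2
    have h4 : (h⁻¹ ⟨κ s, (κ s).2.1⟩ : Cu (m + 1)) = io (m + 1) (c⁻¹ s) := by
      have h5 : h (io (m + 1) (c⁻¹ s)) = io (m + 1) s := by
        rw [hc]
        exact congrArg _ (c.apply_symm_apply s)
      have h6 : (h⁻¹ (h (io (m + 1) (c⁻¹ s))) : Cu (m + 1)) = io (m + 1) (c⁻¹ s) :=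
        h.symm_apply_apply _
      rw [h5] at h6
      exact h6
    rw [h4] at h3
    exact h3

end Pool.Agent.W_d1cfb0_h99
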