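import Pool.Agent.W_d1cfb0_h45.Closure

/-!
# Restriction to the boundary preserves topological finite generation

`Q`, `S` compact metric, `ι : S → Q` continuous injective, `G` a group of homeomorphisms of `Q` whose
elements restrict to homeomorphisms of `S`, every homeomorphism of `S` being a restriction. If a finite
subset of `G` generates a dense subgroup of `G`, the restrictions generate a dense subgroup of `S ≃ₜ S`.
-/

namespace Pool.Agent.W_d1cfb0_h99

open Pool.Agent.W_d1cfb0_h45 Topology Set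

/-- The inverse of a continuous injection of compact metric spaces is uniformly continuous. -/
theorem unif_inv {Q S : Type*} [MetricSpace Q] [MetricSpace S] [CompactSpace S]
    {ι : S → Q} (hι : Continuous ι) (hinj : Function.Injective ι) :
    ∀ ε : ℝ, 0 < ε → ∃ δ : ℝ, 0 < δ ∧ ∀ s t, dist (ι s) (ι t) < δ → dist s t < ε := by
  have hemb : IsClosedEmbedding ι := hι.isClosedEmbedding hinj
  have hc := hemb.isEmbedding.toHomeomorph.symm.continuous
  have : CompactSpace (range ι) := isCompact_iff_compactSpace.1 (isCompact_range hι)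
  have hu := CompactSpace.uniformContinuous_of_continuous hc
  intro ε hε
  obtain ⟨δ, hδ, h1⟩ := Metric.uniformContinuous_iff.1 hu ε hε
  refine ⟨δ, hδ, fun s t hst => ?_⟩
  have h2 := @h1 (hemb.isEmbedding.toHomeomorph s) (hemb.isEmbedding.toHomeomorph t) hst
  rwa [Homeomorph.symm_apply_apply, Homeomorph.symm_apply_apply] at h2

theorem inv_res {Q S : Type*} [TopologicalSpace Q] [TopologicalSpace S] {ι : S → Q} {g : Q ≃ₜ Q}
    {b : S ≃ₜ S} (h : ∀ s, g (ι s) = ι (b s)) (s : S) : g⁻¹ (ι s) = ι (b⁻¹ s) := by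
  have h1 : g (ι (b⁻¹ s)) = ι s := by
    rw [h]
    exact congrArg ι (b.apply_symm_apply s)
  rw [← h1]
  exact g.symm_apply_apply _

theorem open_step_conv {Q S : Type*} [MetricSpace Q] [CompactSpace Q] [MetricSpace S]
    [CompactSpace S] {ι : S → Q} (hι : Continuous ι) (hinj : Function.Injective ι)
    (G : Subgroup (Q ≃ₜ Q)) (hres : ∀ h ∈ G, ∃ b : S ≃ₜ S, ∀ s, h (ι s) = ι (b s))
    (hsurj : ∀ b : S ≃ₜ S, ∃ h ∈ G, ∀ s, h (ι s) = ι (b s))
    {F : Set (Q ≃ₜ Q)} (hF : F.Finite) (hFG : ∀ h ∈ F, h ∈ G)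
    (hd : ∀ h ∈ G, h ∈ clo (Subgroup.closure F)) :
    ∃ F' : Set (S ≃ₜ S), F'.Finite ∧ ∀ b : S ≃ₜ S, b ∈ clo (Subgroup.closure F') := by
  classical
  obtain ⟨r, hr⟩ : ∃ r : (Q ≃ₜ Q) → (S ≃ₜ S), ∀ g ∈ G, ∀ s, g (ι s) = ι (r g s) :=
    ⟨fun g => if hg : g ∈ G then (hres g hg).choose else 1, fun g hg s => by
      simp only [dif_pos hg]
      exact (hres g hg).choose_spec s⟩
  have hcl : ∀ g ∈ Subgroup.closure F, ∃ b ∈ Subgroup.closure (r '' F), ∀ s, g (ι s) = ι (b s) := by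
    intro g hg
    induction hg using Subgroup.closure_induction with
    | mem x hx => exact ⟨r x, Subgroup.subset_closure (mem_image_of_mem r hx), hr x (hFG x hx)⟩
    | one => exact ⟨1, Subgroup.one_mem _, fun s => rfl⟩
    | mul x y _ _ hx hy =>
      obtain ⟨b, hb, h1⟩ := hx
      obtain ⟨b', hb', h2⟩ := hy
      refine ⟨b * b', Subgroup.mul_mem _ hb hb', fun s => ?_⟩
      show x (y (ι s)) = ι (b (b' s))
      rw [h2, h1]
    | inv x _ hx =>
      obtain ⟨b, hb, h1⟩ := hx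
      exact ⟨b⁻¹, Subgroup.inv_mem _ hb, inv_res h1⟩
  refine ⟨r '' F, hF.image r, fun b ε hε => ?_⟩
  obtain ⟨δ, hδ, h2⟩ := unif_inv hι hinj ε hε
  obtain ⟨h, hh, hb⟩ := hsurj b
  obtain ⟨g, hg, h3⟩ := hd h hh δ hδ
  obtain ⟨b', hb', h4⟩ := hcl g hg
  refine ⟨b', hb', fun s => ⟨h2 _ _ ?_, h2 _ _ ?_⟩⟩
  · rw [← h4, ← hb]
    exact (h3 _).1
  · rw [← inv_res h4, ← inv_res hb]
    exact (h3 _).2

end Pool.Agent.W_d1cfb0_h99
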