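import Pool.Agent.W_d1cfb0_h99.FinB
import Pool.Agent.W_d1cfb0_h99.Fwd

/-!
# `Σ_n` is topologically finitely generated iff the homeomorphism group of the boundary is
-/

namespace Pool.Agent.W_d1cfb0_h99

open Metric Set MeasureTheory Topology Filter Pool.Agent.W_d1cfb0_h45 Pool.Agent.W_MP_cd67d3_gt

theorem sigFG_iff {n : ℕ} (hn : 2 ≤ n) : SigFG n ↔ FG (Bd n) := by
  have hn1 : 1 ≤ n := by omega
  constructor
  · rintro ⟨k, T, hT, hd⟩
    rw [← FG_sphere_iff hn1, FG_iff]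
    obtain ⟨F', hF', h1⟩ := open_step_conv (continuous_io n) (io_inj n) (Sig n)
      (fun h _ => res h) (surj hn1) (Set.finite_range T)
      (by rintro _ ⟨i, rfl⟩; exact hT i) hd
    exact ⟨F', hF', fun b => (mem_clo_iff _ b).1 (h1 b)⟩
  · intro h
    exact sigFG_of_sphere hn ((FG_sphere_iff hn1).2 h)

theorem sigFG_of_euFG {n : ℕ} (hn : 2 ≤ n) (h : EuFG (n - 1)) : SigFG n := by
  obtain ⟨m, rfl⟩ : ∃ m, n = m + 1 := ⟨n - 1, by omega⟩
  exact sigFG_of_tfg (by omega) h.tfg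

end Pool.Agent.W_d1cfb0_h99
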