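import Pool.Agent.W_d1cfb0_h99.FinC
import Pool.Agent.W_d1cfb0_h45.Final

/-!
# Dimensions two and three
-/

namespace Pool.Agent.W_d1cfb0_h99

theorem sigFG_two : SigFG 2 := Pool.Agent.W_d1cfb0_h45.two_dim_sq

theorem sigFG_le_three {n : ℕ} (h2 : 2 ≤ n) (h3 : n ≤ 3) : SigFG n := by
  obtain rfl | rfl : n = 2 ∨ n = 3 := by omega
  · exact sigFG_two
  · exact sigFG_three

end Pool.Agent.W_d1cfb0_h99
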