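import Mathlib

/-!
# Limits of homeomorphisms with summable steps
-/

namespace Pool.Agent.W_d1cfb0_h99

open Filter Topology

/-- A sequence of continuous maps with summable uniform distances of consecutive members converges
uniformly to a continuous map. -/
theorem exists_lim_cont {X : Type*} [MetricSpace X] [CompleteSpace X] (f : ℕ → X → X)
    (hf : ∀ r, Continuous (f r)) (δ : ℕ → ℝ)
    (hδ : Summable δ) (h1 : ∀ r x, dist (f (r + 1) x) (f r x) ≤ δ r) :
    ∃ g : X → X, Continuous g ∧ ∀ ε : ℝ, 0 < ε → ∃ N, ∀ r, N ≤ r → ∀ x, dist (f r x) (g x) < ε := by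
  have h2 : ∀ x, ∃ a, Tendsto (fun r => f r x) atTop (𝓝 a) := fun x =>
    cauchySeq_tendsto_of_complete (cauchySeq_of_dist_le_of_summable δ
      (fun r => by rw [dist_comm]; exact h1 r x) hδ)
  choose g hg using h2
  have h3 : ∀ r x, dist (f r x) (g x) ≤ ∑' m, δ (r + m) := fun r x =>
    dist_le_tsum_of_dist_le_of_tendsto δ (fun r => by rw [dist_comm]; exact h1 r x) hδ (hg x) r
  have h4 : Tendsto (fun r => ∑' m, δ (r + m)) atTop (𝓝 0) := by
    have h5 := tendsto_sum_nat_add δ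
    refine h5.congr fun r => tsum_congr fun m => ?_
    rw [add_comm]
  have h5 : ∀ ε : ℝ, 0 < ε → ∃ N, ∀ r, N ≤ r → ∀ x, dist (f r x) (g x) < ε := by
    intro ε hε
    obtain ⟨N, hN⟩ := eventually_atTop.1 (h4.eventually (gt_mem_nhds hε))
    exact ⟨N, fun r hr x => (h3 r x).trans_lt (hN r hr)⟩
  refine ⟨g, ?_, h5⟩
  have h6 : TendstoUniformly f g atTop := by
    rw [Metric.tendstoUniformly_iff]
    intro ε hε
    obtain ⟨N, hN⟩ := h5 ε hε
    exact eventually_atTop.2 ⟨N, fun r hr x => by rw [dist_comm]; exact hN r hr x⟩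
  exact h6.continuous (Eventually.of_forall hf).frequently

/-- A sequence of homeomorphisms with summable uniform distances, also of the inverses, of
consecutive members converges uniformly with the inverses to a homeomorphism. -/
theorem exists_lim {X : Type*} [MetricSpace X] [CompleteSpace X] (f : ℕ → (X ≃ₜ X)) (δ : ℕ → ℝ)
    (hδ : Summable δ) (h1 : ∀ r x, dist (f (r + 1) x) (f r x) ≤ δ r)
    (h2 : ∀ r x, dist ((f (r + 1)).symm x) ((f r).symm x) ≤ δ r) :
    ∃ g : X ≃ₜ X, ∀ ε : ℝ, 0 < ε → ∃ N, ∀ r, N ≤ r → ∀ x,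
      dist (f r x) (g x) < ε ∧ dist ((f r).symm x) (g.symm x) < ε := by
  obtain ⟨g, hg, h3⟩ := exists_lim_cont (fun r => (f r : X → X)) (fun r => (f r).continuous) δ hδ h1
  obtain ⟨k, hk, h4⟩ := exists_lim_cont (fun r => ((f r).symm : X → X)) (fun r => (f r).symm.continuous) δ hδ h2
  have key : ∀ (f : ℕ → (X ≃ₜ X)) (g k : X → X) (_ : Continuous k)
      (_ : ∀ ε : ℝ, 0 < ε → ∃ N, ∀ r, N ≤ r → ∀ x, dist (f r x) (g x) < ε)
      (_ : ∀ ε : ℝ, 0 < ε → ∃ N, ∀ r, N ≤ r → ∀ x, dist ((f r).symm x) (k x) < ε), ∀ x, k (g x) = x := by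
    intro f g k hk h3 h4 x
    refine dist_le_zero.1 (le_of_forall_pos_lt_add fun ε hε => ?_)
    rw [zero_add]
    obtain ⟨η, hη, h5⟩ := Metric.continuousAt_iff.1 (hk.continuousAt (x := g x)) (ε / 2) (half_pos hε)
    obtain ⟨N, hN⟩ := h3 η hη
    obtain ⟨M, hM⟩ := h4 (ε / 2) (half_pos hε)
    have h6 := h5 (hN (max N M) (le_max_left _ _) x)
    have h7 := hM (max N M) (le_max_right _ _) (f (max N M) x)
    rw [(f (max N M)).symm_apply_apply] at h7
    have h8 := dist_triangle (k (g x)) (k (f (max N M) x)) x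
    have h9 := dist_comm (k (g x)) (k (f (max N M) x))
    have h10 := dist_comm (k (f (max N M) x)) x
    linarith
  refine ⟨⟨⟨g, k, key f g k hk h3 h4, key (fun r => (f r).symm) k g hg h4 h3⟩, hg, hk⟩, fun ε hε => ?_⟩
  obtain ⟨N, hN⟩ := h3 ε hε
  obtain ⟨M, hM⟩ := h4 ε hε
  exact ⟨max N M, fun r hr x => ⟨hN r ((le_max_left _ _).trans hr) x, hM r ((le_max_right _ _).trans hr) x⟩⟩

end Pool.Agent.W_d1cfb0_h99
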