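import Pool.Agent.W_d1cfb0_h99.Tree
import Pool.Agent.W_d1cfb0_h99.Lim
import Pool.Agent.W_d1cfb0_h99.Cells

/-!
# The theorem of Oxtoby and Ulam

Two measures on `ℝⁿ` which are finite on compact sets, without atoms and positive on open sets, with
the same mass on a box and null boundary, are related on the box by a homeomorphism which is the
identity outside of the open box. Proof by a back and forth construction with `exists_refine`.
-/

namespace Pool.Agent.W_d1cfb0_h99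

open MeasureTheory Set Filter Topology
open scoped ENNReal

/-- The state of the back and forth construction. -/
structure St {n : ℕ} (a b : V n) (ν μ : Measure (V n)) (η : ℝ) where
  u : V n ≃ₜ V n
  v : V n ≃ₜ V n
  L : List (V n × V n)
  hu : ∀ x, x ∉ inn a b → u x = x
  hv : ∀ x, x ∉ inn a b → v x = x
  part : Part (a, b) L
  agree : Agree (ν.map u) (μ.map v) L
  mesh : ∀ p ∈ L, ∀ x ∈ Icc p.1 p.2, ∀ y ∈ Icc p.1 p.2, dist x y ≤ η
  pre : ∀ p ∈ L, ∀ x ∈ Icc p.1 p.2, ∀ y ∈ Icc p.1 p.2, dist (u.symm x) (u.symm y) ≤ η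

theorem symm_out {n : ℕ} {a b : V n} {u : V n ≃ₜ V n} (hu : ∀ x, x ∉ inn a b → u x = x) :
    ∀ x, x ∉ inn a b → u.symm x = x := by
  intro x hx
  rw [Homeomorph.symm_apply_eq, hu x hx]

theorem mem_of_out {n : ℕ} {a b : V n} {u : V n ≃ₜ V n} (hu : ∀ x, x ∉ inn a b → u x = x)
    {x : V n} (hx : x ∈ inn a b) : u x ∈ inn a b := by
  by_contra h
  have h1 := symm_out hu (u x) h
  rw [u.symm_apply_apply] at h1
  exact h (h1 ▸ hx)

theorem mem_Icc_of_out {n : ℕ} {a b : V n} {u : V n ≃ₜ V n} (hu : ∀ x, x ∉ inn a b → u x = x)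
    {x : V n} (hx : x ∈ Icc a b) : u x ∈ Icc a b := by
  by_cases h : x ∈ inn a b
  · exact inn_subset a b (mem_of_out hu h)
  · rwa [hu x h]

theorem dist_le_of_sides {n : ℕ} {p : V n × V n} {ε : ℝ} (hε : 0 ≤ ε)
    (h : ∀ j, p.2 j - p.1 j ≤ ε) {x y : V n} (hx : x ∈ Icc p.1 p.2) (hy : y ∈ Icc p.1 p.2) :
    dist x y ≤ ε := by
  rw [dist_pi_le_iff hε]
  intro j
  rw [Real.dist_eq, abs_le]
  have h1 := hx.1 j
  have h2 := hx.2 j
  have h3 := hy.1 j
  have h4 := hy.2 j
  have h5 := h j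
  constructor <;> linarith

theorem half {n : ℕ} {a b : V n} {ν μ : Measure (V n)} {η : ℝ} (hν : Good ν) (hμ : Good μ)
    (hη : 0 ≤ η) (S : St a b ν μ η) {η' : ℝ} (hη' : 0 < η') :
    ∃ S' : St a b μ ν η', S'.u = S.v ∧ (∀ x, dist (S'.v x) (S.u x) ≤ η) ∧
      ∀ x, dist (S'.v.symm x) (S.u.symm x) ≤ η := by
  obtain ⟨u, v, L, hu, hv, part, agree, mesh, pre⟩ := S
  -- uniform continuity of `v⁻¹` on the box
  obtain ⟨δ, hδ, hδ2⟩ : ∃ δ > 0, ∀ x ∈ Icc a b, ∀ y ∈ Icc a b, dist x y ≤ δ →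
      dist (v.symm x) (v.symm y) ≤ η' := by
    have huc : UniformContinuousOn v.symm (Icc a b) :=
      isCompact_Icc.uniformContinuousOn_of_continuous v.symm.continuous.continuousOn
    rw [Metric.uniformContinuousOn_iff] at huc
    obtain ⟨δ, hδ, h⟩ := huc η' hη'
    exact ⟨δ / 2, half_pos hδ, fun x hx y hy hxy => (h x hx y hy (by linarith)).le⟩
  obtain ⟨g, hg, hgp, L', hL', hA', hm'⟩ := exists_refine (hν.map u) (hμ.map v) part agree
    (lt_min hδ hη')
  have hεpos : 0 < min δ η' := lt_min hδ hη'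
  refine ⟨⟨v, u.trans g, L', hv, ?_, hL', ?_, ?_, ?_⟩, rfl, ?_, ?_⟩
  · intro x hx
    rw [Homeomorph.trans_apply, hu x hx, hg x hx]
  · rw [map_map'] at hA'
    exact ⟨fun p hp => (hA'.mass p hp).symm, hA'.nul', hA'.nul⟩
  · intro p hp x hx y hy
    exact (dist_le_of_sides hεpos.le (hm' p hp) hx hy).trans (min_le_right _ _)
  · intro p hp x hx y hy
    exact hδ2 x (hL'.sub p hp hx) y (hL'.sub p hp hy)
      ((dist_le_of_sides hεpos.le (hm' p hp) hx hy).trans (min_le_left _ _))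
  · intro x
    change dist (g (u x)) (u x) ≤ η
    by_cases h : u x ∈ Icc a b
    · obtain ⟨p, hp, hxp⟩ := part.cover _ h
      exact mesh p hp _ ((hgp p hp _).2 hxp) _ hxp
    · rw [hg _ (fun hi => h (inn_subset a b hi)), dist_self]
      exact hη
  · intro x
    change dist (u.symm (g.symm x)) (u.symm x) ≤ η
    by_cases h : x ∈ Icc a b
    · obtain ⟨p, hp, hxp⟩ := part.cover _ h
      refine pre p hp _ ?_ _ hxp
      rw [← hgp p hp, g.apply_symm_apply]
      exact hxp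
    · rw [symm_out hg _ (fun hi => h (inn_subset a b hi)), dist_self]
      exact hη

theorem full {n : ℕ} {a b : V n} {ν μ : Measure (V n)} {η : ℝ} (hν : Good ν) (hμ : Good μ)
    (hη : 0 ≤ η) (S : St a b ν μ η) {η' : ℝ} (hη' : 0 < η') :
    ∃ S' : St a b ν μ η', ((∀ x, dist (S'.u x) (S.u x) ≤ η) ∧
      ∀ x, dist (S'.u.symm x) (S.u.symm x) ≤ η) ∧ (∀ x, dist (S'.v x) (S.v x) ≤ η') ∧
      ∀ x, dist (S'.v.symm x) (S.v.symm x) ≤ η' := by
  obtain ⟨S1, h1, h2, h3⟩ := half hν hμ hη S hη'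
  obtain ⟨S2, h4, h5, h6⟩ := half hμ hν hη'.le S1 hη'
  refine ⟨S2, ⟨?_, ?_⟩, ?_, ?_⟩
  · rw [h4]
    exact h2
  · rw [h4]
    exact h3
  · rw [← h1]
    exact h5
  · rw [← h1]
    exact h6

/-- The initial state. -/
theorem init {n : ℕ} {a b : V n} {ν μ : Measure (V n)} (hab : ∀ i, a i < b i)
    (hm : ν (Icc a b) = μ (Icc a b)) (h0 : ν (bdry a b) = 0) (h0' : μ (bdry a b) = 0) {η : ℝ}
    (hη : 0 ≤ η) (hs : ∀ j, b j - a j ≤ η) : Nonempty (St a b ν μ η) := by
  have e1 : ν.map (Homeomorph.refl (V n)) = ν := Measure.map_id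
  have e2 : μ.map (Homeomorph.refl (V n)) = μ := Measure.map_id
  refine ⟨⟨Homeomorph.refl _, Homeomorph.refl _, [(a, b)], fun _ _ => rfl, fun _ _ => rfl,
    ⟨?_, ?_, ?_, ?_⟩, ⟨?_, ?_, ?_⟩, ?_, ?_⟩⟩
  · intro p hp
    rw [List.mem_singleton] at hp
    subst hp
    exact hab
  · intro p hp
    rw [List.mem_singleton] at hp
    subst hp
    exact Subset.rfl
  · intro x hx
    exact ⟨(a, b), List.mem_singleton.2 rfl, hx⟩
  · exact List.pairwise_singleton _ _
  · intro p hp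
    rw [List.mem_singleton] at hp
    subst hp
    rw [e1, e2]
    exact hm
  · intro p hp
    rw [List.mem_singleton] at hp
    subst hp
    rw [e1]
    exact h0
  · intro p hp
    rw [List.mem_singleton] at hp
    subst hp
    rw [e2]
    exact h0'
  · intro p hp x hx y hy
    rw [List.mem_singleton] at hp
    subst hp
    exact dist_le_of_sides (p := (a, b)) hη hs hx hy
  · intro p hp x hx y hy
    rw [List.mem_singleton] at hp
    subst hp
    exact dist_le_of_sides (p := (a, b)) hη hs hx hy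

/-- The comparison on compact sets. -/
theorem compare {n : ℕ} {a b : V n} {ν μ : Measure (V n)} (hμ : Good μ)
    {u v : V n ≃ₜ V n}
    (h : ∀ δ : ℝ, 0 < δ → ∃ (η : ℝ) (S : St a b ν μ η), η ≤ δ ∧ (∀ x, dist (S.u x) (u x) < δ) ∧
      ∀ x, dist (S.v x) (v x) < δ) (hu : ∀ x, x ∉ inn a b → u x = x)
    {K : Set (V n)} (hK : IsCompact K) (hKq : K ⊆ Icc a b) :
    (ν.map u) K ≤ (μ.map v) K := by
  have i2 : IsFiniteMeasureOnCompacts (μ.map v) := ⟨fun {K} hK => (hμ.map v).fin K hK⟩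
  have hlim : Tendsto (fun r => (μ.map v) (Metric.cthickening r K)) (𝓝[>] 0)
      (𝓝 ((μ.map v) K)) :=
    (tendsto_measure_cthickening_of_isCompact hK).mono_left nhdsWithin_le_nhds
  refine ge_of_tendsto hlim ?_
  filter_upwards [self_mem_nhdsWithin] with r hr
  have hr0 : 0 < r := hr
  obtain ⟨η, S, hη, h1, h2⟩ := h (r / 3) (by linarith)
  have huq : ∀ x, u x ∈ Icc a b → x ∈ Icc a b := by
    intro x hx
    have := mem_Icc_of_out (symm_out hu) hx
    rwa [u.symm_apply_apply] at this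
  set K1 : Set (V n) := {y | y ∈ Icc a b ∧ ∃ x ∈ K, dist x y ≤ r / 3} with hK1
  have hc := cells S.part S.agree S.mesh (K := K1) (fun y hy => hy.1)
  calc (ν.map u) K = ν (u ⁻¹' K) := map_apply' _ _ _
    _ ≤ ν (S.u ⁻¹' K1) := by
        refine measure_mono fun x hx => ?_
        have hx' : u x ∈ K := hx
        exact ⟨mem_Icc_of_out S.hu (huq x (hKq hx')), u x, hx', by
          rw [dist_comm]
          exact (h1 x).le⟩
    _ = (ν.map S.u) K1 := (map_apply' _ _ _).symm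
    _ ≤ (μ.map S.v) {y | y ∈ Icc a b ∧ ∃ x ∈ K1, dist x y ≤ η} := hc
    _ = μ (S.v ⁻¹' {y | y ∈ Icc a b ∧ ∃ x ∈ K1, dist x y ≤ η}) := map_apply' _ _ _
    _ ≤ μ (v ⁻¹' Metric.cthickening r K) := by
        refine measure_mono fun x hx => ?_
        obtain ⟨_, y, ⟨_, z, hz, hzy⟩, hyx⟩ := hx
        refine Metric.mem_cthickening_of_dist_le (v x) z r K hz ?_
        have h3 := h2 x
        have h4 := dist_triangle4 (v x) (S.v x) y z
        have h5 := dist_comm (v x) (S.v x)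
        have h6 := dist_comm (S.v x) y
        have h7 := dist_comm y z
        linarith
    _ = (μ.map v) (Metric.cthickening r K) := (map_apply' _ _ _).symm

/-- Swap the two sides of a state (forgetting the bound for the preimages). -/
theorem compare' {n : ℕ} {a b : V n} {ν μ : Measure (V n)} (hν : Good ν)
    {u v : V n ≃ₜ V n}
    (h : ∀ δ : ℝ, 0 < δ → ∃ (η : ℝ) (S : St a b ν μ η), η ≤ δ ∧ (∀ x, dist (S.u x) (u x) < δ) ∧
      ∀ x, dist (S.v x) (v x) < δ) (hv : ∀ x, x ∉ inn a b → v x = x)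
    {K : Set (V n)} (hK : IsCompact K) (hKq : K ⊆ Icc a b) :
    (μ.map v) K ≤ (ν.map u) K := by
  have i2 : IsFiniteMeasureOnCompacts (ν.map u) := ⟨fun {K} hK => (hν.map u).fin K hK⟩
  have hlim : Tendsto (fun r => (ν.map u) (Metric.cthickening r K)) (𝓝[>] 0)
      (𝓝 ((ν.map u) K)) :=
    (tendsto_measure_cthickening_of_isCompact hK).mono_left nhdsWithin_le_nhds
  refine ge_of_tendsto hlim ?_
  filter_upwards [self_mem_nhdsWithin] with r hr
  have hr0 : 0 < r := hr
  obtain ⟨η, S, hη, h1, h2⟩ := h (r / 3) (by linarith)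
  have hvq : ∀ x, v x ∈ Icc a b → x ∈ Icc a b := by
    intro x hx
    have := mem_Icc_of_out (symm_out hv) hx
    rwa [v.symm_apply_apply] at this
  set K1 : Set (V n) := {y | y ∈ Icc a b ∧ ∃ x ∈ K, dist x y ≤ r / 3} with hK1
  have hA : Agree (μ.map S.v) (ν.map S.u) S.L :=
    ⟨fun p hp => (S.agree.mass p hp).symm, S.agree.nul', S.agree.nul⟩
  have hc := cells S.part hA S.mesh (K := K1) (fun y hy => hy.1)
  calc (μ.map v) K = μ (v ⁻¹' K) := map_apply' _ _ _
    _ ≤ μ (S.v ⁻¹' K1) := by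
        refine measure_mono fun x hx => ?_
        have hx' : v x ∈ K := hx
        exact ⟨mem_Icc_of_out S.hv (hvq x (hKq hx')), v x, hx', by
          rw [dist_comm]
          exact (h2 x).le⟩
    _ = (μ.map S.v) K1 := (map_apply' _ _ _).symm
    _ ≤ (ν.map S.u) {y | y ∈ Icc a b ∧ ∃ x ∈ K1, dist x y ≤ η} := hc
    _ = ν (S.u ⁻¹' {y | y ∈ Icc a b ∧ ∃ x ∈ K1, dist x y ≤ η}) := map_apply' _ _ _
    _ ≤ ν (u ⁻¹' Metric.cthickening r K) := by
        refine measure_mono fun x hx => ?_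
        obtain ⟨_, y, ⟨_, z, hz, hzy⟩, hyx⟩ := hx
        refine Metric.mem_cthickening_of_dist_le (u x) z r K hz ?_
        have h3 := h1 x
        have h4 := dist_triangle4 (u x) (S.u x) y z
        have h5 := dist_comm (u x) (S.u x)
        have h6 := dist_comm (S.u x) y
        have h7 := dist_comm y z
        linarith
    _ = (ν.map u) (Metric.cthickening r K) := (map_apply' _ _ _).symm

theorem oxtoby_ulam {n : ℕ} {ν μ : Measure (V n)} (hν : Good ν) (hμ : Good μ) {a b : V n}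
    (hab : ∀ i, a i < b i) (hm : ν (Icc a b) = μ (Icc a b)) (h0 : ν (bdry a b) = 0)
    (h0' : μ (bdry a b) = 0) :
    ∃ g : V n ≃ₜ V n, (∀ x, x ∉ inn a b → g x = x) ∧
      ∀ A : Set (V n), MeasurableSet A → A ⊆ Icc a b → (ν.map g) A = μ A := by
  set D : ℝ := ‖b - a‖ + 1 with hD
  have hD0 : 0 < D := by positivity
  have hDs : ∀ j, b j - a j ≤ D := by
    intro j
    have h1 := norm_le_pi_norm (b - a) j
    rw [Pi.sub_apply, Real.norm_eq_abs] at h1
    have h2 := le_abs_self (b j - a j)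
    linarith
  have hη : ∀ r : ℕ, 0 < D / 2 ^ r := fun r => by positivity
  obtain ⟨S0⟩ := init (η := D / 2 ^ 0) hab hm h0 h0' (hη 0).le (by simpa using hDs)
  let S : (r : ℕ) → St a b ν μ (D / 2 ^ r) := fun r =>
    Nat.rec S0 (fun r Sr => (full hν hμ (hη r).le Sr (hη (r + 1))).choose) r
  have hS : ∀ r, ((∀ x, dist ((S (r + 1)).u x) ((S r).u x) ≤ D / 2 ^ r) ∧
      ∀ x, dist ((S (r + 1)).u.symm x) ((S r).u.symm x) ≤ D / 2 ^ r) ∧
      (∀ x, dist ((S (r + 1)).v x) ((S r).v x) ≤ D / 2 ^ (r + 1)) ∧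
      ∀ x, dist ((S (r + 1)).v.symm x) ((S r).v.symm x) ≤ D / 2 ^ (r + 1) :=
    fun r => (full hν hμ (hη r).le (S r) (hη (r + 1))).choose_spec
  have hsum : Summable fun r : ℕ => D / 2 ^ r := by
    have h1 : Summable fun r : ℕ => ((1 / 2 : ℝ)) ^ r :=
      summable_geometric_of_lt_one (by norm_num) (by norm_num)
    refine (h1.mul_left D).congr fun r => ?_
    rw [one_div, inv_pow, div_eq_mul_inv]
  have hle : ∀ r : ℕ, D / 2 ^ (r + 1) ≤ D / 2 ^ r := by
    intro r
    rw [pow_succ]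
    exact div_le_div_of_nonneg_left hD0.le (by positivity) (by
      have : (0 : ℝ) < 2 ^ r := by positivity
      linarith)
  obtain ⟨u, hu⟩ := exists_lim (fun r => (S r).u) (fun r => D / 2 ^ r) hsum
    (fun r => (hS r).1.1) (fun r => (hS r).1.2)
  obtain ⟨v, hv⟩ := exists_lim (fun r => (S r).v) (fun r => D / 2 ^ r) hsum
    (fun r x => ((hS r).2.1 x).trans (hle r)) (fun r x => ((hS r).2.2 x).trans (hle r))
  have huo : ∀ x, x ∉ inn a b → u x = x := by
    intro x hx
    refine dist_le_zero.1 (le_of_forall_pos_lt_add fun ε hε => ?_)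
    obtain ⟨N, hN⟩ := hu ε hε
    have := (hN N le_rfl x).1
    rw [(S N).hu x hx] at this
    rw [dist_comm, zero_add]
    exact this
  have hvo : ∀ x, x ∉ inn a b → v x = x := by
    intro x hx
    refine dist_le_zero.1 (le_of_forall_pos_lt_add fun ε hε => ?_)
    obtain ⟨N, hN⟩ := hv ε hε
    have := (hN N le_rfl x).1
    rw [(S N).hv x hx] at this
    rw [dist_comm, zero_add]
    exact this
  have hst : ∀ δ : ℝ, 0 < δ → ∃ (η : ℝ) (S : St a b ν μ η), η ≤ δ ∧
      (∀ x, dist (S.u x) (u x) < δ) ∧ ∀ x, dist (S.v x) (v x) < δ := by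
    intro δ hδ
    obtain ⟨N1, hN1⟩ := hu δ hδ
    obtain ⟨N2, hN2⟩ := hv δ hδ
    obtain ⟨N3, hN3⟩ := ((hsum.tendsto_atTop_zero).eventually (gt_mem_nhds hδ)).exists_forall_of_atTop
    set N := max N1 (max N2 N3) with hN
    refine ⟨D / 2 ^ N, S N, ?_, ?_, ?_⟩
    · exact (hN3 N ((le_max_right N2 N3).trans (le_max_right _ _))).le
    · exact fun x => (hN1 N (le_max_left _ _) x).1
    · exact fun x => (hN2 N ((le_max_left N2 N3).trans (le_max_right _ _)) x).1
  refine ⟨u.trans v.symm, ?_, ?_⟩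
  · intro x hx
    rw [Homeomorph.trans_apply, huo x hx, symm_out hvo x hx]
  · intro A hA hAq
    have hvA : MeasurableSet (v '' A) := by
      rw [v.image_eq_preimage_symm]
      exact v.symm.continuous.measurable hA
    have hvAq : v '' A ⊆ Icc a b := by
      rintro y ⟨x, hx, rfl⟩
      exact mem_Icc_of_out hvo (hAq hx)
    have hkey : (ν.map u) (v '' A) = (μ.map v) (v '' A) :=
      eq_of_compact (q := (a, b)) (hν.map u) (hμ.map v)
        (fun K hK hKq => compare hμ hst huo hK hKq)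
        (fun K hK hKq => compare' hν hst hvo hK hKq) hvA hvAq
    rw [← map_map', map_apply' (ν.map u) v.symm A]
    have e1 : v.symm ⁻¹' A = v '' A := by rw [v.image_eq_preimage_symm]
    rw [e1, hkey, map_apply', preimage_image_eq _ v.injective]

end Pool.Agent.W_d1cfb0_h99
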