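import Pool.Agent.W_d1cfb0_U59.HomPolish

/-!
# The restriction to the boundary is open (Baire)

`Q`, `S` compact metric, `ι : S → Q` continuous injective, `G` a group of homeomorphisms of `Q`, closed
for uniform convergence with inverses, whose elements restrict to homeomorphisms of `S`, and every
homeomorphism of `S` is a restriction. `H ≤ G` has all elements of `G` which fix `ι S` pointwise in its
closure, and the restrictions of `H` are dense in `S ≃ₜ S`. Then `H` is dense in `G`.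

Proof: `G` and `S ≃ₜ S` are Polish groups, the restriction is a continuous surjective homomorphism,
hence open (`Pool.Agent.W_d1cfb0_U59.polish_open`), and `Pool.Agent.W_d1cfb0_U59.dense_of_quot` applies.
-/

namespace Pool.Agent.W_d1cfb0_h99

open Pool.Agent.W_d1cfb0_h45 Pool.Agent.W_d1cfb0_U59 Pool.Agent.W_MP_cd67d3_gt Topology Filter Set

attribute [local instance] homeoTopology

/-- The local form: an element of `G` whose restriction is a limit of restrictions of elements of `H` is in the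
closure of `H`. -/
theorem open_step_loc {Q S : Type*} [MetricSpace Q] [CompactSpace Q] [MetricSpace S] [CompactSpace S]
    {ι : S → Q} (hι : Continuous ι) (hinj : Function.Injective ι) (G : Subgroup (Q ≃ₜ Q))
    (hG : ∀ h ∈ clo G, h ∈ G) (hres : ∀ h ∈ G, ∃ b : S ≃ₜ S, ∀ s, h (ι s) = ι (b s))
    (hsurj : ∀ b : S ≃ₜ S, ∃ h ∈ G, ∀ s, h (ι s) = ι (b s))
    (H : Subgroup (Q ≃ₜ Q)) (hHG : H ≤ G) (hK : ∀ k ∈ G, (∀ s, k (ι s) = ι s) → k ∈ clo H) :
    ∀ h ∈ G, ∀ b : S ≃ₜ S, (∀ s, h (ι s) = ι (b s)) →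
      (∀ ε : ℝ, 0 < ε → ∃ g ∈ H, ∃ b' : S ≃ₜ S, (∀ s, g (ι s) = ι (b' s)) ∧
        ∀ s, dist (b' s) (b s) < ε ∧ dist (b'⁻¹ s) (b⁻¹ s) < ε) → h ∈ clo H := by
  have : IsTopologicalGroup (Q ≃ₜ Q) := isTopologicalGroup
  have : IsTopologicalGroup (S ≃ₜ S) := isTopologicalGroup
  have : PolishSpace (Q ≃ₜ Q) := polish_homeo
  have : PolishSpace (S ≃ₜ S) := polish_homeo
  have hGc : IsClosed (G : Set (Q ≃ₜ Q)) := by
    refine isClosed_of_closure_subset fun h hh => ?_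
    rw [← clo_eq_closure] at hh
    exact hG h hh
  have : PolishSpace G := hGc.polishSpace
  -- the restriction
  obtain ⟨r, hr⟩ : ∃ r : G → (S ≃ₜ S), ∀ (g : G) s, (g : Q ≃ₜ Q) (ι s) = ι (r g s) :=
    ⟨fun g => (hres g g.2).choose, fun g => (hres g g.2).choose_spec⟩
  have huniq : ∀ (g : G) (b : S ≃ₜ S), (∀ s, (g : Q ≃ₜ Q) (ι s) = ι (b s)) → r g = b := by
    intro g b hb
    ext s
    exact hinj ((hr g s).symm.trans (hb s))
  obtain ⟨f, hf⟩ : ∃ f : G →* (S ≃ₜ S), ∀ g, f g = r g := by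
    refine ⟨MonoidHom.mk' r fun g g' => ?_, fun g => rfl⟩
    refine huniq _ _ fun s => ?_
    show (g : Q ≃ₜ Q) ((g' : Q ≃ₜ Q) (ι s)) = ι (r g (r g' s))
    rw [hr g' s, hr g]
  have hfr : ∀ (g : G) s, (g : Q ≃ₜ Q) (ι s) = ι (f g s) := by
    intro g s
    rw [hf g]
    exact hr g s
  have hfi : ∀ (g : G) s, (g : Q ≃ₜ Q)⁻¹ (ι s) = ι ((f g)⁻¹ s) := by
    intro g s
    have h1 := hfr g⁻¹ s
    rw [map_inv] at h1
    exact h1
  -- the inverse of `ι` is uniformly continuous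
  have hunif : ∀ ε : ℝ, 0 < ε → ∃ δ : ℝ, 0 < δ ∧ ∀ s t, dist (ι s) (ι t) < δ → dist s t < ε := by
    have hemb : IsClosedEmbedding ι := hι.isClosedEmbedding hinj
    have hc := hemb.isEmbedding.toHomeomorph.symm.continuous
    have : CompactSpace (range ι) := isCompact_iff_compactSpace.1 (isCompact_range hι)
    have hu := CompactSpace.uniformContinuous_of_continuous hc
    intro ε hε
    obtain ⟨δ, hδ, h1⟩ := Metric.uniformContinuous_iff.1 hu ε hε
    refine ⟨δ, hδ, fun s t hst => ?_⟩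
    have h2 := @h1 (hemb.isEmbedding.toHomeomorph s) (hemb.isEmbedding.toHomeomorph t) hst
    rwa [Homeomorph.symm_apply_apply, Homeomorph.symm_apply_apply] at h2
  have hfc : Continuous f := by
    rw [continuous_iff_continuousAt]
    intro g s hs
    obtain ⟨ε, hε, h1⟩ := mem_nhds_homeo.1 hs
    obtain ⟨δ, hδ, h2⟩ := hunif ε hε
    have h3 : {g' : G | ∀ x, dist ((g' : Q ≃ₜ Q) x) ((g : Q ≃ₜ Q) x) < δ ∧
        dist ((g' : Q ≃ₜ Q)⁻¹ x) ((g : Q ≃ₜ Q)⁻¹ x) < δ} ∈ 𝓝 g := by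
      rw [nhds_subtype_eq_comap]
      exact ⟨_, mem_nhds_homeo.2 ⟨δ, hδ, fun g' hg' => hg'⟩, fun x hx => hx⟩
    refine mem_map.2 (mem_of_superset h3 fun g' hg' => h1 _ fun x => ⟨?_, ?_⟩)
    · refine h2 _ _ ?_
      rw [← hfr, ← hfr]
      exact (hg' _).1
    · refine h2 _ _ ?_
      rw [← hfi, ← hfi]
      exact (hg' _).2
  have hfs : Function.Surjective f := by
    intro b
    obtain ⟨h, hh, hb⟩ := hsurj b
    exact ⟨⟨h, hh⟩, (hf _).trans (huniq _ _ hb)⟩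
  have himg : ((↑) : G → (Q ≃ₜ Q)) '' ((H.subgroupOf G : Subgroup G) : Set G) = (H : Set (Q ≃ₜ Q)) := by
    ext h
    constructor
    · rintro ⟨g, hg, rfl⟩
      exact hg
    · intro hh
      exact ⟨⟨h, hHG hh⟩, hh, rfl⟩
  intro h hh b hb hd
  have hD := mem_closure_of_quot f hfc hfs (H.subgroupOf G) ?_ ⟨h, hh⟩ ?_
  · rw [closure_subtype, himg] at hD
    rw [clo_eq_closure]
    exact hD
  · intro k hk
    rw [closure_subtype, himg, ← clo_eq_closure]
    refine hK k k.2 fun s => ?_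
    have h1 : f k = 1 := hk
    rw [hfr k s, h1]
    rfl
  · have hfb : f ⟨h, hh⟩ = b := (hf _).trans (huniq _ _ hb)
    rw [hfb, mem_closure_iff_nhds]
    intro t ht
    obtain ⟨ε, hε, h1⟩ := mem_nhds_homeo.1 ht
    obtain ⟨g, hg, b', hb', h2⟩ := hd ε hε
    refine ⟨b', h1 b' h2, ⟨g, hHG hg⟩, hg, ?_⟩
    exact (hf _).trans (huniq _ _ hb')

theorem open_step {Q S : Type*} [MetricSpace Q] [CompactSpace Q] [MetricSpace S] [CompactSpace S]
    {ι : S → Q} (hι : Continuous ι) (hinj : Function.Injective ι) (G : Subgroup (Q ≃ₜ Q))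
    (hG : ∀ h ∈ clo G, h ∈ G) (hres : ∀ h ∈ G, ∃ b : S ≃ₜ S, ∀ s, h (ι s) = ι (b s))
    (hsurj : ∀ b : S ≃ₜ S, ∃ h ∈ G, ∀ s, h (ι s) = ι (b s))
    (H : Subgroup (Q ≃ₜ Q)) (hHG : H ≤ G) (hK : ∀ k ∈ G, (∀ s, k (ι s) = ι s) → k ∈ clo H)
    (hd : ∀ b : S ≃ₜ S, ∀ ε : ℝ, 0 < ε → ∃ g ∈ H, ∃ b' : S ≃ₜ S, (∀ s, g (ι s) = ι (b' s)) ∧
      ∀ s, dist (b' s) (b s) < ε ∧ dist (b'⁻¹ s) (b⁻¹ s) < ε) :
    ∀ h ∈ G, h ∈ clo H := by
  intro h hh
  obtain ⟨b, hb⟩ := hres h hh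
  exact open_step_loc hι hinj G hG hres hsurj H hHG hK h hh b hb (hd b)

end Pool.Agent.W_d1cfb0_h99
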