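import Pool.Agent.W_d1cfb0_h45.Closure

/-!
# The group of the measure preserving homeomorphisms of the cube

It is closed for uniform convergence of maps and inverses.
-/

namespace Pool.Agent.W_d1cfb0_h99

open MeasureTheory Set Topology Filter Pool.Agent.W_d1cfb0_h45

abbrev En (n : ℕ) := EuclideanSpace ℝ (Fin n)

/-- The cube `[0,1]^n`. -/
def Cu (n : ℕ) : Set (En n) := {x | ∀ i, x i ∈ Set.Icc (0 : ℝ) 1}

/-- `h` preserves the volume. -/
def PV {n : ℕ} (h : Cu n ≃ₜ Cu n) : Prop :=
  ∀ A : Set (En n), MeasurableSet A → A ⊆ Cu n →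
    volume (Subtype.val '' (h '' (Subtype.val ⁻¹' A))) = volume A

theorem isCompact_Cu (n : ℕ) : IsCompact (Cu n) := by
  have h : IsCompact (Set.pi Set.univ (fun _ : Fin n => Set.Icc (0 : ℝ) 1)) :=
    isCompact_univ_pi (fun _ => isCompact_Icc)
  have h2 := h.image (PiLp.continuous_toLp 2 (fun _ : Fin n => ℝ))
  convert h2 using 1
  ext x
  constructor
  · intro hx
    exact ⟨fun i => x i, fun i _ => hx i, rfl⟩
  · rintro ⟨y, hy, rfl⟩ i
    exact hy i (Set.mem_univ i)

instance (n : ℕ) : CompactSpace (Cu n) := isCompact_iff_compactSpace.1 (isCompact_Cu n)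

/-- Lebesgue measure on the cube. -/
noncomputable def vol (n : ℕ) : Measure (Cu n) := (volume : Measure (En n)).comap Subtype.val

theorem vol_apply {n : ℕ} (B : Set (Cu n)) : vol n B = volume (Subtype.val '' B) :=
  (MeasurableEmbedding.subtype_coe (isCompact_Cu n).measurableSet).comap_apply _ _

instance (n : ℕ) : IsFiniteMeasure (vol n) := by
  refine ⟨?_⟩
  rw [vol_apply, Subtype.coe_image_univ]
  exact (isCompact_Cu n).measure_lt_top

theorem PV_iff {n : ℕ} {h : Cu n ≃ₜ Cu n} : PV h ↔ MeasurePreserving h (vol n) (vol n) := by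
  have hC : MeasurableSet (Cu n) := (isCompact_Cu n).measurableSet
  constructor
  · intro hp
    refine ⟨h.continuous.measurable, ?_⟩
    ext B hB
    rw [Measure.map_apply h.continuous.measurable hB, vol_apply, vol_apply]
    have hB' : MeasurableSet (h ⁻¹' B) := h.continuous.measurable hB
    have h1 := hp (Subtype.val '' (h ⁻¹' B)) (MeasurableSet.subtype_image hC hB')
      (Subtype.coe_image_subset _ _)
    rw [Set.preimage_image_eq _ Subtype.val_injective, Set.image_preimage_eq _ h.surjective] at h1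
    exact h1.symm
  · intro hm A hA hs
    have hA' : MeasurableSet ((Subtype.val : Cu n → En n) ⁻¹' A) := measurable_subtype_coe hA
    have h1 := hm.measure_preimage
      (h.measurableEmbedding.measurableSet_image.2 hA').nullMeasurableSet
    rw [Set.preimage_image_eq _ h.injective, vol_apply, vol_apply, Subtype.image_preimage_coe,
      Set.inter_eq_right.2 hs] at h1
    exact h1.symm

/-- The group `Σ_n`. -/
def Sig (n : ℕ) : Subgroup (Cu n ≃ₜ Cu n) where
  carrier := {h | PV h}
  one_mem' := PV_iff.2 (MeasurePreserving.id _)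
  mul_mem' := by
    intro a b ha hb
    exact PV_iff.2 ((PV_iff.1 ha).comp (PV_iff.1 hb))
  inv_mem' := by
    intro a ha
    have h1 : MeasurePreserving a.toMeasurableEquiv (vol n) (vol n) := PV_iff.1 ha
    exact PV_iff.2 (h1.symm)

theorem mem_Sig {n : ℕ} {h : Cu n ≃ₜ Cu n} : h ∈ Sig n ↔ PV h := Iff.rfl

theorem Sig_closed {n : ℕ} : ∀ h ∈ clo (Sig n), h ∈ Sig n := by
  intro h hh
  rw [mem_Sig, PV_iff]
  refine ⟨h.continuous.measurable, ?_⟩
  refine ext_of_forall_integral_eq_of_IsFiniteMeasure fun f => ?_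
  rw [integral_map h.continuous.measurable.aemeasurable
    f.continuous.measurable.aestronglyMeasurable]
  -- approximating sequence
  have hk : ∀ k : ℕ, ∃ g ∈ Sig n, ∀ p, dist (g p) (h p) < 1 / ((k : ℝ) + 1) := by
    intro k
    obtain ⟨g, hg, h1⟩ := hh (1 / ((k : ℝ) + 1)) (by positivity)
    exact ⟨g, hg, fun p => (h1 p).1⟩
  choose g hg hgd using hk
  have h1 : ∀ k, ∫ x, f (g k x) ∂(vol n) = ∫ x, f x ∂(vol n) := by
    intro k
    have h2 := PV_iff.1 (mem_Sig.1 (hg k))
    exact h2.integral_comp' (f := (g k).toMeasurableEquiv) f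
  have h2 : Tendsto (fun k => ∫ x, f (g k x) ∂(vol n)) atTop (𝓝 (∫ x, f (h x) ∂(vol n))) := by
    refine tendsto_integral_of_dominated_convergence (fun _ => ‖f‖)
      (fun k => (f.continuous.comp (g k).continuous).measurable.aestronglyMeasurable)
      (integrable_const _) (fun k => ae_of_all _ fun x => f.norm_coe_le_norm _)
      (ae_of_all _ fun x => ?_)
    refine (f.continuous.tendsto _).comp ?_
    rw [tendsto_iff_dist_tendsto_zero]
    refine squeeze_zero (fun _ => dist_nonneg) (fun k => (hgd k x).le) ?_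
    exact tendsto_one_div_add_atTop_nhds_zero_nat
  have h3 : Tendsto (fun k => ∫ x, f (g k x) ∂(vol n)) atTop (𝓝 (∫ x, f x ∂(vol n))) := by
    simp only [h1]
    exact tendsto_const_nhds
  exact tendsto_nhds_unique h2 h3

end Pool.Agent.W_d1cfb0_h99
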