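import Pool.Agent.W_d1cfb0_h99.Defs

/-!
# One-parameter families of homeomorphisms of a box which move one coordinate
-/

namespace Pool.Agent.W_d1cfb0_h99

open MeasureTheory Set Function

/-- The map `logit v ↦ logit v + log e` on `[a, b]`, the identity outside. -/
noncomputable def shf (a b e u : ℝ) : ℝ :=
  u + max 0 (b - u) * max 0 (u - a) * (e - 1) / (max 0 (b - u) + e * max 0 (u - a))

theorem shf_den {a b e u : ℝ} (hab : a < b) (he : 0 < e) :
    0 < max 0 (b - u) + e * max 0 (u - a) := by
  rcases lt_or_ge u b with h | h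
  · rw [max_eq_right (by linarith)]
    have : 0 ≤ e * max 0 (u - a) := mul_nonneg he.le (le_max_left _ _)
    linarith
  · rw [max_eq_right (a := 0) (b := u - a) (by linarith)]
    have h1 : 0 < e * (u - a) := mul_pos he (by linarith)
    have h2 : 0 ≤ max 0 (b - u) := le_max_left _ _
    linarith

theorem shf_out {a b e u : ℝ} (h : u ≤ a ∨ b ≤ u) : shf a b e u = u := by
  unfold shf
  rcases h with h | h
  · rw [max_eq_left (a := 0) (b := u - a) (by linarith)]
    simp
  · rw [max_eq_left (a := 0) (b := b - u) (by linarith)]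
    simp

theorem shf_in {a b e u : ℝ} (hab : a < b) (he : 0 < e) (h1 : a ≤ u) (h2 : u ≤ b) :
    b - shf a b e u = (b - a) * (b - u) / ((b - u) + e * (u - a)) ∧
    shf a b e u - a = (b - a) * (e * (u - a)) / ((b - u) + e * (u - a)) := by
  have hd := shf_den (u := u) hab he
  unfold shf
  rw [max_eq_right (a := 0) (b := b - u) (by linarith),
    max_eq_right (a := 0) (b := u - a) (by linarith)] at *
  constructor
  · rw [eq_div_iff hd.ne', sub_mul, add_mul, div_mul_cancel₀ _ hd.ne']
    ring
  · rw [eq_div_iff hd.ne', sub_mul, add_mul, div_mul_cancel₀ _ hd.ne']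
    ring

theorem shf_mem {a b e u : ℝ} (hab : a < b) (he : 0 < e) (h1 : a < u) (h2 : u < b) :
    a < shf a b e u ∧ shf a b e u < b := by
  obtain ⟨h3, h4⟩ := shf_in hab he h1.le h2.le
  have hd : 0 < (b - u) + e * (u - a) := by
    have := mul_pos he (sub_pos.2 h1)
    linarith
  constructor
  · have : 0 < shf a b e u - a := by
      rw [h4]
      exact div_pos (mul_pos (by linarith) (mul_pos he (by linarith))) hd
    linarith
  · have : 0 < b - shf a b e u := by
      rw [h3]
      exact div_pos (mul_pos (by linarith) (by linarith)) hd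
    linarith

theorem shf_inv {a b e u : ℝ} (hab : a < b) (he : 0 < e) :
    shf a b e⁻¹ (shf a b e u) = u := by
  by_cases h : u ≤ a ∨ b ≤ u
  · rw [shf_out (e := e) h, shf_out h]
  push Not at h
  obtain ⟨h1, h2⟩ := h
  obtain ⟨h3, h4⟩ := shf_in hab he h1.le h2.le
  obtain ⟨h5, h6⟩ := shf_mem hab he h1 h2
  obtain ⟨h7, _⟩ := shf_in hab (inv_pos.2 he) h5.le h6.le
  have hd : 0 < (b - u) + e * (u - a) := by
    have := mul_pos he (sub_pos.2 h1)
    linarith
  have hba : b - a ≠ 0 := by
    intro h
    linarith
  have h8 : b - shf a b e⁻¹ (shf a b e u) = b - u := by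
    rw [h7, h3, h4]
    have e1 : (b - a) * (b - u) / (b - u + e * (u - a)) +
        e⁻¹ * ((b - a) * (e * (u - a)) / (b - u + e * (u - a))) =
        (b - a) * (b - a) / (b - u + e * (u - a)) := by
      field_simp
      ring
    rw [e1]
    field_simp
  linarith

theorem continuous_shf {X : Type*} [TopologicalSpace X] {a b : ℝ} (hab : a < b) {e u : X → ℝ}
    (he : Continuous e) (he0 : ∀ x, 0 < e x) (hu : Continuous u) :
    Continuous fun x => shf a b (e x) (u x) := by
  unfold shf
  refine hu.add (Continuous.div ?_ ?_ fun x => (shf_den hab (he0 x)).ne')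
  · exact ((continuous_const.max (continuous_const.sub hu)).mul
      (continuous_const.max (hu.sub continuous_const))).mul (he.sub continuous_const)
  · exact (continuous_const.max (continuous_const.sub hu)).add
      (he.mul (continuous_const.max (hu.sub continuous_const)))

/-- For a function `γ` not depending on the coordinate `i`: the homeomorphism
`x ↦ update x i (shf (a i) (b i) (exp (γ x)) (x i))`. -/
noncomputable def hmap {n : ℕ} (a b : V n) (i : Fin n) (hab : a i < b i) (γ : V n → ℝ)
    (hγ : Continuous γ) (hi : ∀ x v, γ (update x i v) = γ x) : V n ≃ₜ V n where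
  toFun x := update x i (shf (a i) (b i) (Real.exp (γ x)) (x i))
  invFun x := update x i (shf (a i) (b i) (Real.exp (γ x))⁻¹ (x i))
  left_inv x := by
    dsimp only
    rw [hi, update_self, shf_inv hab (Real.exp_pos _), update_idem, update_eq_self]
  right_inv x := by
    dsimp only
    rw [hi, update_self]
    have := shf_inv (u := x i) hab (inv_pos.2 (Real.exp_pos (γ x)))
    rw [inv_inv] at this
    rw [this, update_idem, update_eq_self]
  continuous_toFun := continuous_id.update i (continuous_shf hab
    (Real.continuous_exp.comp hγ) (fun x => Real.exp_pos _) (continuous_apply i))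
  continuous_invFun := continuous_id.update i (continuous_shf hab
    ((Real.continuous_exp.comp hγ).inv₀ fun x => (Real.exp_pos _).ne')
    (fun x => inv_pos.2 (Real.exp_pos _)) (continuous_apply i))

theorem hmap_apply {n : ℕ} (a b : V n) (i : Fin n) (hab : a i < b i) (γ : V n → ℝ)
    (hγ : Continuous γ) (hi : ∀ x v, γ (update x i v) = γ x) (x : V n) :
    hmap a b i hab γ hγ hi x = update x i (shf (a i) (b i) (Real.exp (γ x)) (x i)) := rfl

/-- The level function. -/
noncomputable def lev {n : ℕ} (a b : V n) (i : Fin n) (c : ℝ) (x : V n) : ℝ :=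
  Real.log ((b i - x i) / (x i - a i)) - Real.log ((b i - c) / (c - a i))

theorem lev_iff {a b c e u : ℝ} (hac : a < c) (hcb : c < b) (he : 0 < e) (h1 : a < u)
    (h2 : u < b) :
    (shf a b e u ≤ c ↔ Real.log e ≤ Real.log ((b - u) / (u - a)) - Real.log ((b - c) / (c - a))) ∧
    (shf a b e u = c ↔ Real.log e = Real.log ((b - u) / (u - a)) - Real.log ((b - c) / (c - a))) := by
  have hab := hac.trans hcb
  obtain ⟨h3, h4⟩ := shf_mem hab he h1 h2
  obtain ⟨h5, h6⟩ := shf_in hab he h1.le h2.le
  set w := shf a b e u with hw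
  have hd : 0 < (b - u) + e * (u - a) := by
    have := mul_pos he (sub_pos.2 h1)
    linarith
  have hua : 0 < u - a := by linarith
  have hbu : 0 < b - u := by linarith
  have hca : 0 < c - a := by linarith
  have hbc : 0 < b - c := by linarith
  have hwa : 0 < w - a := by linarith
  have hbw : 0 < b - w := by linarith
  -- the ratio of the image
  have hr : (b - w) / (w - a) = (b - u) / (u - a) / e := by
    rw [h5, h6]
    field_simp
  have hlog : Real.log ((b - w) / (w - a)) = Real.log ((b - u) / (u - a)) - Real.log e := by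
    rw [hr, Real.log_div (div_pos hbu hua).ne' he.ne']
  have key : ∀ {s t : ℝ}, 0 < s - a → 0 < t - a →
      ((b - t) / (t - a) ≤ (b - s) / (s - a) ↔ s ≤ t) := by
    intro s t hs ht
    rw [div_le_div_iff₀ ht hs]
    constructor
    · intro h
      have : (b - a) * s ≤ (b - a) * t := by nlinarith
      exact le_of_mul_le_mul_left this (by linarith)
    · intro h
      have : (b - a) * s ≤ (b - a) * t := mul_le_mul_of_nonneg_left h (by linarith)
      nlinarith
  have hle : w ≤ c ↔ Real.log ((b - c) / (c - a)) ≤ Real.log ((b - w) / (w - a)) := by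
    rw [Real.log_le_log_iff (div_pos hbc hca) (div_pos hbw hwa), key hwa hca]
  have hge : c ≤ w ↔ Real.log ((b - w) / (w - a)) ≤ Real.log ((b - c) / (c - a)) := by
    rw [Real.log_le_log_iff (div_pos hbw hwa) (div_pos hbc hca), key hca hwa]
  constructor
  · rw [hle, hlog]
    constructor <;> intro h <;> linarith
  · rw [le_antisymm_iff, hle, hge, hlog]
    constructor
    · rintro ⟨h, h'⟩
      linarith
    · intro h
      constructor <;> linarith

theorem hmap_le {n : ℕ} {a b : V n} {i : Fin n} (hab : a i < b i) {γ : V n → ℝ}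
    {hγ : Continuous γ} {hi : ∀ x v, γ (update x i v) = γ x} {c : ℝ} (hc : a i < c)
    (hc' : c < b i) {x : V n} (hx : a i < x i) (hx' : x i < b i) :
    (hmap a b i hab γ hγ hi x i ≤ c ↔ γ x ≤ lev a b i c x) ∧
    (hmap a b i hab γ hγ hi x i = c ↔ γ x = lev a b i c x) := by
  rw [hmap_apply, update_self]
  have := lev_iff hc hc' (Real.exp_pos (γ x)) hx hx'
  rw [Real.log_exp] at this
  exact this

theorem hmap_out {n : ℕ} {a b : V n} {i : Fin n} (hab : a i < b i) {γ : V n → ℝ}
    {hγ : Continuous γ} {hi : ∀ x v, γ (update x i v) = γ x} (h0 : ∀ x, (∃ j, j ≠ i ∧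
      (x j ≤ a j ∨ b j ≤ x j)) → γ x = 0) {x : V n} (hx : x ∉ inn a b) :
    hmap a b i hab γ hγ hi x = x := by
  rw [hmap_apply]
  have : ∃ j, x j ≤ a j ∨ b j ≤ x j := by
    by_contra hc
    push Not at hc
    exact hx fun j => hc j
  obtain ⟨j, hj⟩ := this
  by_cases hji : j = i
  · subst hji
    rw [shf_out hj, update_eq_self]
  · rw [h0 x ⟨j, hji, hj⟩, Real.exp_zero]
    have : shf (a i) (b i) 1 (x i) = x i := by
      unfold shf
      simp
    rw [this, update_eq_self]

end Pool.Agent.W_d1cfb0_h99
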