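import Pool.Agent.W_d1cfb0_h99.Surj
import Pool.Agent.W_d1cfb0_h99.OpenStep
import Pool.Agent.W_d1cfb0_h59.FinalCube

/-!
# The closure of a finitely generated group of measure preserving homeomorphisms of the cube is
determined by the boundary
-/

namespace Pool.Agent.W_d1cfb0_h99

open Metric Set MeasureTheory Pool.Agent.W_d1cfb0_h45

theorem exists_range {α : Type*} {s : Set α} (hs : s.Finite) :
    ∃ (k : ℕ) (T : Fin k → α), Set.range T = s := by
  have := hs.fintype
  refine ⟨Fintype.card s, fun i => ((Fintype.equivFin s).symm i : α), ?_⟩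
  ext g
  constructor
  · rintro ⟨i, rfl⟩
    exact ((Fintype.equivFin s).symm i).2
  · intro hg
    exact ⟨Fintype.equivFin s ⟨g, hg⟩, by simp⟩

/-- For every finite set `F` of homeomorphisms of the boundary there is a finite set `T` of elements
of `Σ_n` such that the closed group generated by `T` contains all elements of `Σ_n` whose boundary
values are in the closed group generated by `F`. -/
theorem main_loc {n : ℕ} (hn : 2 ≤ n) (F : Set (sphere (0 : V n) 1 ≃ₜ sphere (0 : V n) 1))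
    (hF : F.Finite) :
    ∃ (k : ℕ) (T : Fin k → (Cu n ≃ₜ Cu n)), (∀ i, PV (T i)) ∧
      ∀ h, PV h → ∀ b, (∀ s, h (io n s) = io n (b s)) → b ∈ clo (Subgroup.closure F) →
        h ∈ clo (Subgroup.closure (Set.range T)) := by
  have hn1 : 1 ≤ n := by omega
  obtain ⟨k0, T0, hT0, hB⟩ := Pool.Agent.W_d1cfb0_h59.final_boundary n hn (Cu n) rfl
  choose L hL1 hL2 using surj hn1
  obtain ⟨k, T, hT⟩ := exists_range ((Set.finite_range T0).union (hF.image L))
  have hTP : ∀ g ∈ Set.range T, PV g := by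
    rw [hT]
    rintro g (⟨i, rfl⟩ | ⟨b, hb, rfl⟩)
    · exact hT0 i
    · exact hL1 b
  refine ⟨k, T, fun i => hTP _ (Set.mem_range_self i), ?_⟩
  have hHG : Subgroup.closure (Set.range T) ≤ Sig n := by
    rw [Subgroup.closure_le]
    exact hTP
  have hK : ∀ k ∈ Sig n, (∀ s, k (io n s) = io n s) →
      k ∈ clo (Subgroup.closure (Set.range T)) := by
    intro h hh hhb ε hε
    obtain ⟨g, hg1, hg2⟩ := hB h hh (fun p hp => by
      obtain ⟨s, rfl⟩ := exists_io hn1 hp
      exact hhb s) ε hε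
    refine ⟨g, ?_, hg2⟩
    refine hg1 {u | u ∈ Subgroup.closure (Set.range T)}
      (Subgroup.one_mem _ : (1 : Cu n ≃ₜ Cu n) ∈ Subgroup.closure (Set.range T)) (fun i => ?_)
      (fun f hf f' hf' =>
        (Subgroup.mul_mem _ hf' hf : f' * f ∈ Subgroup.closure (Set.range T)))
      (fun f hf => (Subgroup.inv_mem _ hf : f⁻¹ ∈ Subgroup.closure (Set.range T)))
    refine Subgroup.subset_closure ?_
    rw [hT]
    exact Or.inl (Set.mem_range_self i)
  have hlift : ∀ b ∈ Subgroup.closure F, ∃ g ∈ Subgroup.closure (Set.range T),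
      ∀ s, g (io n s) = io n (b s) := by
    intro b hb
    refine Subgroup.closure_induction (p := fun b _ => ∃ g ∈ Subgroup.closure (Set.range T),
      ∀ s, g (io n s) = io n (b s)) ?_ ?_ ?_ ?_ hb
    · intro b hb
      refine ⟨L b, Subgroup.subset_closure ?_, hL2 b⟩
      rw [hT]
      exact Or.inr ⟨b, hb, rfl⟩
    · exact ⟨1, Subgroup.one_mem _, fun s => rfl⟩
    · rintro b c _ _ ⟨g, hg, hgb⟩ ⟨g', hg', hgc⟩
      refine ⟨g * g', Subgroup.mul_mem _ hg hg', fun s => ?_⟩
      show g (g' (io n s)) = io n (b (c s))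
      rw [hgc, hgb]
    · rintro b _ ⟨g, hg, hgb⟩
      refine ⟨g⁻¹, Subgroup.inv_mem _ hg, fun s => ?_⟩
      have h1 : g (io n (b⁻¹ s)) = io n s := by
        rw [hgb]
        exact congrArg (io n) (b.apply_symm_apply s)
      rw [← h1]
      exact g.symm_apply_apply _
  intro h hh b hb hbF
  refine open_step_loc (continuous_io n) (io_inj n) (Sig n) Sig_closed (fun h _ => res h)
    (surj hn1) _ hHG hK h hh b hb fun ε hε => ?_
  obtain ⟨b', hb', hd⟩ := hbF ε hε
  obtain ⟨g, hg, hgb⟩ := hlift b' hb'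
  exact ⟨g, hg, b', hgb, hd⟩

/-- Part 2: from the boundary to the cube. -/
theorem of_sphere {n : ℕ} (hn : 2 ≤ n) {F : Set (sphere (0 : V n) 1 ≃ₜ sphere (0 : V n) 1)}
    (hF : F.Finite) (hd : ∀ b, b ∈ clo (Subgroup.closure F)) :
    ∃ (k : ℕ) (T : Fin k → (Cu n ≃ₜ Cu n)), (∀ i, PV (T i)) ∧
      ∀ h, PV h → h ∈ clo (Subgroup.closure (Set.range T)) := by
  obtain ⟨k, T, hT, h1⟩ := main_loc hn F hF
  refine ⟨k, T, hT, fun h hh => ?_⟩
  obtain ⟨b, hb⟩ := res h
  exact h1 h hh b hb (hd b)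

end Pool.Agent.W_d1cfb0_h99
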