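import Pool.Agent.W_d1cfb0_h99.Shf
import Pool.Agent.W_d1cfb0_h99.Count

/-!
# Exact binary split

The homeomorphisms `hmap` with `γ x = s (β x w_t x)`, `β x = ∏ (x j - a j)₊ (b j - x j)₊` and
`w_t x = 1 + ∑ (x j - a j) t ^ (j + 1)` over `j ≠ i`. For all but countably many `t > 0` all the level
surfaces `{x | s β w_t = lev}` are null: `n + 1` of them with distinct `t` have at most one common point.
Then the mass of `{x | s β w_t ≤ lev}` is a continuous function of `s`.
-/

namespace Pool.Agent.W_d1cfb0_h99

open MeasureTheory Set Function Filter Topology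
open scoped ENNReal

/-- the product over the other coordinates -/
noncomputable def bet {n : ℕ} (a b : V n) (i : Fin n) (x : V n) : ℝ :=
  ∏ j ∈ Finset.univ.erase i, (max 0 (x j - a j) * max 0 (b j - x j))

/-- the other coordinates -/
noncomputable def yy {n : ℕ} (a : V n) (i : Fin n) (x : V n) (j : Fin n) : ℝ :=
  if j = i then 0 else x j - a j

noncomputable def ww {n : ℕ} (a : V n) (i : Fin n) (t : ℝ) (x : V n) : ℝ :=
  1 + ∑ j, yy a i x j * t ^ ((j : ℕ) + 1)

theorem continuous_bet {n : ℕ} (a b : V n) (i : Fin n) : Continuous (bet a b i) := by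
  unfold bet
  fun_prop

theorem continuous_yy {n : ℕ} (a : V n) (i j : Fin n) : Continuous fun x => yy a i x j := by
  unfold yy
  split_ifs
  · exact continuous_const
  · fun_prop

theorem continuous_ww {n : ℕ} (a : V n) (i : Fin n) (t : ℝ) : Continuous (ww a i t) := by
  unfold ww
  exact continuous_const.add (continuous_finsetSum _ fun j _ =>
    (continuous_yy a i j).mul continuous_const)

theorem bet_update {n : ℕ} (a b : V n) (i : Fin n) (x : V n) (v : ℝ) :
    bet a b i (update x i v) = bet a b i x := by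
  unfold bet
  refine Finset.prod_congr rfl fun j hj => ?_
  rw [update_of_ne (Finset.ne_of_mem_erase hj)]

theorem yy_update {n : ℕ} (a : V n) (i : Fin n) (x : V n) (v : ℝ) (j : Fin n) :
    yy a i (update x i v) j = yy a i x j := by
  unfold yy
  split_ifs with h
  · rfl
  · rw [update_of_ne h]

theorem ww_update {n : ℕ} (a : V n) (i : Fin n) (t : ℝ) (x : V n) (v : ℝ) :
    ww a i t (update x i v) = ww a i t x := by
  unfold ww
  simp only [yy_update]

theorem bet_pos {n : ℕ} {a b : V n} {i : Fin n} {x : V n} (hx : x ∈ inn a b) :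
    0 < bet a b i x := by
  unfold bet
  refine Finset.prod_pos fun j _ => ?_
  have h1 := (hx j).1
  have h2 := (hx j).2
  rw [max_eq_right (by linarith), max_eq_right (by linarith)]
  exact mul_pos (by linarith) (by linarith)

theorem bet_zero {n : ℕ} {a b : V n} {i : Fin n} {x : V n}
    (hx : ∃ j, j ≠ i ∧ (x j ≤ a j ∨ b j ≤ x j)) : bet a b i x = 0 := by
  obtain ⟨j, hj, h⟩ := hx
  unfold bet
  refine Finset.prod_eq_zero (Finset.mem_erase.2 ⟨hj, Finset.mem_univ j⟩) ?_
  rcases h with h | h
  · rw [max_eq_left (a := 0) (b := x j - a j) (by linarith), zero_mul]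
  · rw [max_eq_left (a := 0) (b := b j - x j) (by linarith), mul_zero]

theorem ww_pos {n : ℕ} {a b : V n} {i : Fin n} {t : ℝ} (ht : 0 < t) {x : V n}
    (hx : x ∈ inn a b) : 0 < ww a i t x := by
  unfold ww
  have : 0 ≤ ∑ j, yy a i x j * t ^ ((j : ℕ) + 1) := by
    refine Finset.sum_nonneg fun j _ => mul_nonneg ?_ (pow_nonneg ht.le _)
    unfold yy
    split_ifs
    · exact le_rfl
    · have := (hx j).1
      linarith
  linarith

/-- The coefficient vector. -/
theorem ww_eq {n : ℕ} (a : V n) (i : Fin n) (t K : ℝ) (x : V n) :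
    K * ww a i t x = ∑ k : Fin (n + 1), (Fin.cons K fun j => K * yy a i x j : Fin (n + 1) → ℝ) k *
      t ^ (k : ℕ) := by
  rw [Fin.sum_univ_succ]
  simp only [Fin.cons_zero, Fin.cons_succ, Fin.val_zero, pow_zero, mul_one, Fin.val_succ]
  unfold ww
  rw [mul_add, mul_one, Finset.mul_sum]
  congr 1
  refine Finset.sum_congr rfl fun j _ => ?_
  ring

theorem lev_inj {n : ℕ} {a b : V n} {i : Fin n} {c : ℝ} {x x' : V n} (hx : x ∈ inn a b)
    (hx' : x' ∈ inn a b) (h : lev a b i c x = lev a b i c x') : x i = x' i := by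
  unfold lev at h
  have h1 : 0 < x i - a i := sub_pos.2 (hx i).1
  have h2 : 0 < b i - x i := sub_pos.2 (hx i).2
  have h3 : 0 < x' i - a i := sub_pos.2 (hx' i).1
  have h4 : 0 < b i - x' i := sub_pos.2 (hx' i).2
  have h5 : Real.log ((b i - x i) / (x i - a i)) = Real.log ((b i - x' i) / (x' i - a i)) := by
    linarith
  have h6 := Real.log_injOn_pos (mem_Ioi.2 (div_pos h2 h1)) (mem_Ioi.2 (div_pos h4 h3)) h5
  rw [div_eq_div_iff h1.ne' h3.ne'] at h6
  have h7 : (b i - a i) * x i = (b i - a i) * x' i := by linarith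
  exact mul_left_cancel₀ (by linarith) h7

theorem measurable_lev {n : ℕ} (a b : V n) (i : Fin n) (c : ℝ) : Measurable (lev a b i c) := by
  unfold lev
  exact (Real.measurable_log.comp ((measurable_const.sub (measurable_pi_apply i)).div
    ((measurable_pi_apply i).sub measurable_const))).sub measurable_const

theorem common_point {n : ℕ} {a b : V n} {i : Fin n} {c : ℝ} (F : Finset ℝ)
    (hF : F.card = n + 1) (ht : ∀ t ∈ F, 0 < t) (s : ℝ → ℝ) (hs : ∀ t ∈ F, s t ≠ 0) {x x' : V n}
    (hx : x ∈ inn a b) (hx' : x' ∈ inn a b)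
    (h : ∀ t ∈ F, s t * (bet a b i x * ww a i t x) = lev a b i c x)
    (h' : ∀ t ∈ F, s t * (bet a b i x' * ww a i t x') = lev a b i c x') : x = x' := by
  have hne : F.Nonempty := by
    rw [← Finset.card_pos, hF]
    exact Nat.succ_pos n
  obtain ⟨t0, ht0⟩ := hne
  have hA : lev a b i c x ≠ 0 := by
    rw [← h t0 ht0]
    exact mul_ne_zero (hs t0 ht0) (mul_pos (bet_pos hx) (ww_pos (ht t0 ht0) hx)).ne'
  have hA' : lev a b i c x' ≠ 0 := by
    rw [← h' t0 ht0]
    exact mul_ne_zero (hs t0 ht0) (mul_pos (bet_pos hx') (ww_pos (ht t0 ht0) hx')).ne'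
  set K := bet a b i x / lev a b i c x with hK
  set K' := bet a b i x' / lev a b i c x' with hK'
  have h1 : ∀ t ∈ F, K * ww a i t x = K' * ww a i t x' := by
    intro t htF
    have e1 : s t * (K * ww a i t x) = 1 := by
      rw [hK, div_mul_eq_mul_div, mul_div_assoc', div_eq_one_iff_eq hA]
      exact h t htF
    have e2 : s t * (K' * ww a i t x') = 1 := by
      rw [hK', div_mul_eq_mul_div, mul_div_assoc', div_eq_one_iff_eq hA']
      exact h' t htF
    exact mul_left_cancel₀ (hs t htF) (e1.trans e2.symm)
  have h2 := coeff_eq (Fin.cons K fun j => K * yy a i x j) (Fin.cons K' fun j => K' * yy a i x' j)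
    F hF (fun t htF => by rw [← ww_eq, ← ww_eq]; exact h1 t htF)
  have h3 : K = K' := by
    have := congrFun h2 0
    simpa using this
  have h4 : ∀ j, yy a i x j = yy a i x' j := by
    intro j
    have := congrFun h2 j.succ
    simp only [Fin.cons_succ] at this
    rw [← h3] at this
    have hK0 : K ≠ 0 := div_ne_zero (bet_pos hx).ne' hA
    exact mul_left_cancel₀ hK0 this
  have h5 : ∀ j, j ≠ i → x j = x' j := by
    intro j hj
    have := h4 j
    unfold yy at this
    rw [if_neg hj, if_neg hj] at this
    linarith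
  have h6 : bet a b i x = bet a b i x' := by
    unfold bet
    refine Finset.prod_congr rfl fun j hj => ?_
    rw [h5 j (Finset.ne_of_mem_erase hj)]
  have h7 : lev a b i c x = lev a b i c x' := by
    rw [hK, hK', h6] at h3
    have := (bet_pos (i := i) hx').ne'
    rw [div_eq_div_iff hA hA'] at h3
    exact (mul_left_cancel₀ this h3).symm
  funext j
  by_cases hj : j = i
  · rw [hj]
    exact lev_inj hx hx' h7
  · exact h5 j hj

theorem exists_t {n : ℕ} {ν : Measure (V n)} (hν : Good ν) {a b : V n} (i : Fin n) {c : ℝ}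
    (hc : a i < c) (hc' : c < b i) (h0 : ν (Icc a b ∩ {x | x i = c}) = 0) :
    ∃ t : ℝ, 0 < t ∧ ∀ s : ℝ,
      ν (inn a b ∩ {x | s * (bet a b i x * ww a i t x) = lev a b i c x}) = 0 := by
  by_contra hcon
  push Not at hcon
  have hfin : ν (inn a b) < ⊤ := (measure_mono (inn_subset a b)).trans_lt
    (hν.fin _ isCompact_Icc)
  have hms : ∀ t s : ℝ, MeasurableSet
      (inn a b ∩ {x | s * (bet a b i x * ww a i t x) = lev a b i c x}) := by
    intro t s
    refine (isOpen_inn a b).measurableSet.inter (measurableSet_eq_fun ?_ (measurable_lev a b i c))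
    exact (continuous_const.mul ((continuous_bet a b i).mul (continuous_ww a i t))).measurable
  have hex : ∀ t : {t : ℝ // 0 < t}, ∃ s : ℝ,
      ν (inn a b ∩ {x | s * (bet a b i x * ww a i t x) = lev a b i c x}) ≠ 0 :=
    fun t => hcon t t.2
  choose s hs using hex
  have hs0 : ∀ t, s t ≠ 0 := by
    intro t hst
    refine hs t (measure_mono_null ?_ h0)
    rintro x ⟨hx, hx2⟩
    refine ⟨inn_subset a b hx, ?_⟩
    rw [hst] at hx2
    have hx2' : 0 * (bet a b i x * ww a i t x) = lev a b i c x := hx2
    rw [zero_mul] at hx2'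
    unfold lev at hx2'
    have h1 : 0 < x i - a i := sub_pos.2 (hx i).1
    have h2 : 0 < b i - x i := sub_pos.2 (hx i).2
    have h3 : 0 < c - a i := sub_pos.2 hc
    have h4 : 0 < b i - c := sub_pos.2 hc'
    have h5 : Real.log ((b i - x i) / (x i - a i)) = Real.log ((b i - c) / (c - a i)) := by
      linarith
    have h6 := Real.log_injOn_pos (mem_Ioi.2 (div_pos h2 h1)) (mem_Ioi.2 (div_pos h4 h3)) h5
    rw [div_eq_div_iff h1.ne' h3.ne'] at h6
    have h7 : (b i - a i) * x i = (b i - a i) * c := by linarith
    exact mul_left_cancel₀ (by linarith) h7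
  have : IsFiniteMeasure (ν.restrict (inn a b)) := ⟨by rwa [Measure.restrict_apply_univ]⟩
  have : Uncountable {t : ℝ // 0 < t} := by
    rw [← not_countable_iff]
    intro h
    have : (Ioi (0 : ℝ)).Countable := h
    have h2 := Cardinal.mk_Ioi_real 0
    rw [← Cardinal.le_aleph0_iff_set_countable, h2] at this
    exact absurd this (not_le.2 Cardinal.aleph0_lt_continuum)
  have key : ∀ F : Finset {t : ℝ // 0 < t}, F.card = n + 1 → (ν.restrict (inn a b))
      (⋂ t ∈ F, inn a b ∩ {x | s t * (bet a b i x * ww a i t x) = lev a b i c x}) = 0 := by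
    intro F hF
    classical
    set F' : Finset ℝ := F.map (Function.Embedding.subtype _) with hF'
    have hcard : F'.card = n + 1 := by rw [hF', Finset.card_map, hF]
    have hsub : (⋂ t ∈ F, inn a b ∩
        {x | s t * (bet a b i x * ww a i t x) = lev a b i c x}).Subsingleton := by
      intro x hx x' hx'
      have hne : F.Nonempty := by
        rw [← Finset.card_pos, hF]
        exact Nat.succ_pos n
      obtain ⟨t0, ht0⟩ := hne
      have hxi := (mem_iInter₂.1 hx t0 ht0).1
      have hxi' := (mem_iInter₂.1 hx' t0 ht0).1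
      refine common_point (c := c) (i := i) F' hcard ?_
        (fun t => if h : 0 < t then s ⟨t, h⟩ else 1) ?_ hxi hxi' ?_ ?_
      · intro t ht
        obtain ⟨u, _, rfl⟩ := Finset.mem_map.1 ht
        exact u.2
      · intro t ht
        obtain ⟨u, _, rfl⟩ := Finset.mem_map.1 ht
        change (if h : 0 < (u : ℝ) then s ⟨u, h⟩ else 1) ≠ 0
        rw [dif_pos u.2]
        exact hs0 u
      · intro t ht
        obtain ⟨u, hu, rfl⟩ := Finset.mem_map.1 ht
        change (if h : 0 < (u : ℝ) then s ⟨u, h⟩ else 1) * _ = _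
        rw [dif_pos u.2]
        exact (mem_iInter₂.1 hx u hu).2
      · intro t ht
        obtain ⟨u, hu, rfl⟩ := Finset.mem_map.1 ht
        change (if h : 0 < (u : ℝ) then s ⟨u, h⟩ else 1) * _ = _
        rw [dif_pos u.2]
        exact (mem_iInter₂.1 hx' u hu).2
    refine le_antisymm ((Measure.restrict_le_self _).trans ?_) bot_le
    rcases hsub.eq_empty_or_singleton with h | ⟨x, h⟩
    · rw [h, measure_empty]
    · rw [h, hν.atom]
  obtain ⟨t, ht⟩ := exists_null (ν.restrict (inn a b))
    (fun t : {t : ℝ // 0 < t} =>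
      inn a b ∩ {x | s t * (bet a b i x * ww a i t x) = lev a b i c x})
    (fun t => hms t (s t)) n key
  refine hs t ?_
  rw [Measure.restrict_apply (hms t (s t)), inter_right_comm, inter_self] at ht
  exact ht

theorem exists_split {n : ℕ} {ν : Measure (V n)} (hν : Good ν) {a b : V n}
    (hab : ∀ i, a i < b i) (hbd : ν (bdry a b) = 0) (i : Fin n) {c : ℝ} (hc : a i < c)
    (hc' : c < b i) (h0 : ν (Icc a b ∩ {x | x i = c}) = 0) {θ : ℝ≥0∞} (hθ : 0 < θ)
    (hθ' : θ < ν (Icc a b)) :
    ∃ g : V n ≃ₜ V n, (∀ x, x ∉ inn a b → g x = x) ∧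
      (ν.map g) (Icc a (Function.update b i c)) = θ ∧
      (ν.map g) (Icc a b ∩ {x | x i = c}) = 0 := by
  obtain ⟨t, ht0, ht⟩ := exists_t hν i hc hc' h0
  have hfin : ν (inn a b) < ⊤ := (measure_mono (inn_subset a b)).trans_lt
    (hν.fin _ isCompact_Icc)
  have : IsFiniteMeasure (ν.restrict (inn a b)) := ⟨by rwa [Measure.restrict_apply_univ]⟩
  set κ : V n → ℝ := fun x => bet a b i x * ww a i t x with hκ
  have hκc : Continuous κ := (continuous_bet a b i).mul (continuous_ww a i t)
  have hκp : ∀ x ∈ inn a b, 0 < κ x := fun x hx => mul_pos (bet_pos hx) (ww_pos ht0 hx)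
  have hκu : ∀ x v, κ (update x i v) = κ x := fun x v => by
    rw [hκ]
    dsimp only
    rw [bet_update, ww_update]
  set A : ℝ → Set (V n) := fun s => {x | s * κ x ≤ lev a b i c x} with hA
  have hAm : ∀ s, MeasurableSet (A s) := fun s =>
    measurableSet_le (continuous_const.mul hκc).measurable (measurable_lev a b i c)
  set Φ : ℝ → ℝ≥0∞ := fun s => (ν.restrict (inn a b)) (A s) with hΦ
  have hmem : ∀ᵐ x ∂(ν.restrict (inn a b)), x ∈ inn a b :=
    ae_restrict_mem (isOpen_inn a b).measurableSet
  have hcont : Continuous Φ := by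
    rw [continuous_iff_continuousAt]
    intro s
    refine tendsto_measure_of_ae_tendsto_indicator_of_isFiniteMeasure _ (hAm s) hAm ?_
    have h1 : ∀ᵐ x ∂(ν.restrict (inn a b)), s * κ x ≠ lev a b i c x := by
      have h2 : (ν.restrict (inn a b)) {x | s * κ x = lev a b i c x} = 0 := by
        have hms : MeasurableSet {x | s * κ x = lev a b i c x} :=
          measurableSet_eq_fun (continuous_const.mul hκc).measurable (measurable_lev a b i c)
        rw [Measure.restrict_apply hms, inter_comm]
        exact ht s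
      refine (measure_mono_null ?_ h2 : (ν.restrict (inn a b)) {x | ¬ s * κ x ≠ lev a b i c x} = 0)
      intro x hx
      exact not_not.1 hx
    filter_upwards [h1] with x hx
    have hcx : Continuous fun s : ℝ => s * κ x := continuous_id.mul continuous_const
    rcases lt_or_gt_of_ne hx with h | h
    · have : ∀ᶠ r in 𝓝 s, r * κ x < lev a b i c x :=
        (hcx.tendsto s).eventually (gt_mem_nhds h)
      filter_upwards [this] with r hr
      exact ⟨fun _ => h.le, fun _ => hr.le⟩
    · have : ∀ᶠ r in 𝓝 s, lev a b i c x < r * κ x :=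
        (hcx.tendsto s).eventually (lt_mem_nhds h)
      filter_upwards [this] with r hr
      exact ⟨fun h' => absurd h' (not_le.2 hr), fun h' => absurd h' (not_le.2 h)⟩
  have htop : Tendsto Φ atTop (𝓝 0) := by
    have h1 : Tendsto Φ atTop (𝓝 ((ν.restrict (inn a b)) ∅)) := by
      refine tendsto_measure_of_ae_tendsto_indicator_of_isFiniteMeasure _ MeasurableSet.empty
        hAm ?_
      filter_upwards [hmem] with x hx
      have h2 : Tendsto (fun s : ℝ => s * κ x) atTop atTop :=
        tendsto_id.atTop_mul_const (hκp x hx)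
      filter_upwards [h2.eventually_gt_atTop (lev a b i c x)] with s hs
      exact ⟨fun h => absurd h (not_le.2 hs), fun h => absurd h (notMem_empty x)⟩
    rwa [measure_empty] at h1
  have hbot : Tendsto Φ atBot (𝓝 (ν (Icc a b))) := by
    have h1 : Tendsto Φ atBot (𝓝 ((ν.restrict (inn a b)) univ)) := by
      refine tendsto_measure_of_ae_tendsto_indicator_of_isFiniteMeasure _ MeasurableSet.univ
        hAm ?_
      filter_upwards [hmem] with x hx
      have h2 : Tendsto (fun s : ℝ => s * κ x) atBot atBot :=
        tendsto_id.atBot_mul_const (hκp x hx)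
      filter_upwards [h2.eventually_lt_atBot (lev a b i c x)] with s hs
      exact ⟨fun _ => mem_univ x, fun _ => hs.le⟩
    have h2 : (ν.restrict (inn a b)) univ = ν (Icc a b) := by
      rw [Measure.restrict_apply_univ]
      refine le_antisymm (measure_mono (inn_subset a b)) ?_
      calc ν (Icc a b) ≤ ν (inn a b ∪ bdry a b) := measure_mono fun x hx => by
            by_cases h : x ∈ inn a b
            · exact Or.inl h
            · exact Or.inr ⟨hx, h⟩
        _ ≤ ν (inn a b) + ν (bdry a b) := measure_union_le _ _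
        _ = ν (inn a b) := by rw [hbd, add_zero]
    rwa [h2] at h1
  obtain ⟨s, hs⟩ : θ ∈ range Φ := by
    refine mem_range_of_exists_le_of_exists_ge hcont ?_ ?_
    · obtain ⟨s, hs⟩ := (htop.eventually (gt_mem_nhds hθ)).exists
      exact ⟨s, hs.le⟩
    · obtain ⟨s, hs⟩ := (hbot.eventually (lt_mem_nhds hθ')).exists
      exact ⟨s, hs.le⟩
  have hγc : Continuous fun x => s * κ x := continuous_const.mul hκc
  have hγu : ∀ x v, (fun x => s * κ x) (update x i v) = (fun x => s * κ x) x := fun x v => by
    dsimp only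
    rw [hκu]
  have hγ0 : ∀ x, (∃ j, j ≠ i ∧ (x j ≤ a j ∨ b j ≤ x j)) → (fun x => s * κ x) x = 0 := by
    intro x hx
    dsimp only
    rw [hκ]
    dsimp only
    rw [bet_zero hx, zero_mul, mul_zero]
  set g := hmap a b i (hab i) (fun x => s * κ x) hγc hγu with hg
  have hgout : ∀ x, x ∉ inn a b → g x = x := fun x hx => hmap_out (hab i) hγ0 hx
  have hgj : ∀ x j, j ≠ i → g x j = x j := by
    intro x j hj
    rw [hg, hmap_apply, update_of_ne hj]
  have hgi : ∀ x ∈ inn a b, a i < g x i := by
    intro x hx
    rw [hg, hmap_apply, update_self]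
    exact (shf_mem (hab i) (Real.exp_pos _) (hx i).1 (hx i).2).1
  have hgl := fun x (hx : x ∈ inn a b) => hmap_le (hab i) (γ := fun x => s * κ x) (hγ := hγc)
    (hi := hγu) hc hc' (hx i).1 (hx i).2
  refine ⟨g, hgout, ?_, ?_⟩
  · rw [map_apply', ← hs, hΦ]
    dsimp only
    rw [Measure.restrict_apply (hAm s)]
    refine le_antisymm ?_ ?_
    · calc ν (g ⁻¹' Icc a (update b i c)) ≤ ν ((A s ∩ inn a b) ∪ bdry a b) := by
            refine measure_mono fun x hx => ?_
            have hx' : g x ∈ Icc a (update b i c) := hx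
            by_cases h : x ∈ inn a b
            · left
              refine ⟨?_, h⟩
              have h2 : g x i ≤ c := by
                have := hx'.2 i
                rwa [update_self] at this
              exact (hgl x h).1.1 h2
            · right
              rw [hgout x h] at hx'
              refine ⟨⟨hx'.1, fun j => ?_⟩, h⟩
              by_cases hj : j = i
              · subst hj
                have := hx'.2 j
                rw [update_self] at this
                exact this.trans hc'.le
              · have := hx'.2 j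
                rwa [update_of_ne hj] at this
        _ ≤ ν (A s ∩ inn a b) + ν (bdry a b) := measure_union_le _ _
        _ = ν (A s ∩ inn a b) := by rw [hbd, add_zero]
    · refine measure_mono fun x hx => ?_
      obtain ⟨hx1, hx2⟩ := hx
      refine ⟨fun j => ?_, fun j => ?_⟩
      · by_cases hj : j = i
        · subst hj
          exact (hgi x hx2).le
        · rw [hgj x j hj]
          exact (hx2 j).1.le
      · by_cases hj : j = i
        · subst hj
          rw [update_self]
          exact (hgl x hx2).1.2 hx1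
        · rw [hgj x j hj, update_of_ne hj]
          exact (hx2 j).2.le
  · rw [map_apply']
    refine measure_mono_null (t := (inn a b ∩ {x | s * κ x = lev a b i c x}) ∪ bdry a b) ?_ ?_
    · intro x hx
      have hx' : g x ∈ Icc a b ∧ g x i = c := hx
      by_cases h : x ∈ inn a b
      · left
        exact ⟨h, (hgl x h).2.1 hx'.2⟩
      · right
        rw [hgout x h] at hx'
        exact ⟨hx'.1, h⟩
    · rw [measure_union_null_iff]
      exact ⟨ht s, hbd⟩

end Pool.Agent.W_d1cfb0_h99
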