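import Pool.Agent.W_d1cfb0_h99.Bd
import Pool.Agent.W_d1cfb0_h99.OU
import Pool.Agent.W_d1cfb0_h99.Cone
import Pool.Agent.W_d1cfb0_h99.BdInv

/-!
# The restriction of the measure preserving homeomorphisms of the cube to the boundary is onto
-/

namespace Pool.Agent.W_d1cfb0_h99

open Metric Set MeasureTheory

/-- Restriction to the boundary. -/
theorem res {n : ℕ} (h : Cu n ≃ₜ Cu n) :
    ∃ b : sphere (0 : V n) 1 ≃ₜ sphere (0 : V n) 1, ∀ s, h (io n s) = io n (b s) := by
  obtain ⟨b, hb⟩ := exists_res (((Jo n).trans h).trans (Jo n).symm)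
  refine ⟨b, fun s => ?_⟩
  have h1 : (((Jo n).trans h).trans (Jo n).symm) ⟨s, sphere_subset_closedBall s.2⟩ =
      ⟨b s, sphere_subset_closedBall (b s).2⟩ := Subtype.ext (hb s)
  have h2 := congrArg (Jo n) h1
  have h3 : Jo n ((((Jo n).trans h).trans (Jo n).symm) ⟨s, sphere_subset_closedBall s.2⟩) =
      h (io n s) := (Jo n).apply_symm_apply _
  rw [h3] at h2
  exact h2

theorem good_volume {n : ℕ} (hn : 1 ≤ n) : Good (volume : Measure (V n)) := by
  have : Nonempty (Fin n) := ⟨⟨0, hn⟩⟩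
  exact ⟨fun K hK => hK.measure_lt_top, fun x => measure_singleton x,
    fun U hU hne => hU.measure_pos _ hne⟩

theorem Icc_eq_ball (n : ℕ) : Icc (fun _ => -1 : V n) (fun _ => 1) = closedBall (0 : V n) 1 := by
  ext x
  rw [mem_closedBall_zero_iff, pi_norm_le_iff_of_nonneg zero_le_one]
  simp only [mem_Icc, Pi.le_def, Real.norm_eq_abs, abs_le]
  exact ⟨fun h i => ⟨h.1 i, h.2 i⟩, fun h => ⟨fun i => (h i).1, fun i => (h i).2⟩⟩

theorem inn_eq_ball {n : ℕ} (hn : 1 ≤ n) :
    inn (fun _ => -1 : V n) (fun _ => 1) = ball (0 : V n) 1 := by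
  have : Nonempty (Fin n) := ⟨⟨0, hn⟩⟩
  ext x
  rw [mem_ball_zero_iff, pi_norm_lt_iff zero_lt_one]
  simp only [inn, mem_ofPred_eq, Real.norm_eq_abs, abs_lt]

theorem bdry_eq_sphere {n : ℕ} (hn : 1 ≤ n) :
    bdry (fun _ => -1 : V n) (fun _ => 1) = sphere (0 : V n) 1 := by
  rw [bdry, Icc_eq_ball, inn_eq_ball hn, closedBall_sdiff_ball]

/-- A homeomorphism of the ball of the sup norm with given boundary values which preserves the
measure. -/
theorem exists_ext {n : ℕ} (hn : 1 ≤ n) (b : sphere (0 : V n) 1 ≃ₜ sphere (0 : V n) 1) :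
    ∃ B : V n ≃ₜ V n, (∀ s : sphere (0 : V n) 1, B s = b s) ∧
      (∀ x, x ∈ closedBall (0 : V n) 1 ↔ B x ∈ closedBall (0 : V n) 1) ∧
      ∀ Z : Set (V n), MeasurableSet Z → Z ⊆ closedBall (0 : V n) 1 →
        volume (B '' Z) = volume Z := by
  obtain ⟨c, hc1, hc2⟩ := exists_cone b
  have hcm : Measurable c := c.continuous.measurable
  have hcb : c ⁻¹' closedBall (0 : V n) 1 = closedBall (0 : V n) 1 := by
    ext x
    rw [mem_preimage, mem_closedBall_zero_iff, mem_closedBall_zero_iff, hc1]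
  have hcs : c ⁻¹' sphere (0 : V n) 1 = sphere (0 : V n) 1 := by
    ext x
    rw [mem_preimage, mem_sphere_zero_iff_norm, mem_sphere_zero_iff_norm, hc1]
  have hg := good_volume hn
  have hgc := hg.map c
  have hvs : volume (sphere (0 : V n) 1) = 0 := Measure.addHaar_sphere_of_ne_zero _ _ one_ne_zero
  obtain ⟨ψ, hψ1, hψ2⟩ := oxtoby_ulam hg hgc (a := fun _ => -1) (b := fun _ => 1)
    (fun _ => by norm_num)
    (by rw [Icc_eq_ball, Measure.map_apply hcm measurableSet_closedBall, hcb])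
    (by rw [bdry_eq_sphere hn, hvs])
    (by rw [bdry_eq_sphere hn, Measure.map_apply hcm isClosed_sphere.measurableSet, hcs, hvs])
  have hψm : Measurable ψ := ψ.continuous.measurable
  have hψ3 := symm_out hψ1
  have hsub : ∀ x, x ∈ closedBall (0 : V n) 1 → ψ x ∈ closedBall (0 : V n) 1 := by
    intro x hx
    rw [← Icc_eq_ball] at hx ⊢
    exact mem_Icc_of_out hψ1 hx
  have hsub' : ∀ x, x ∈ closedBall (0 : V n) 1 → ψ.symm x ∈ closedBall (0 : V n) 1 := by
    intro x hx
    rw [← Icc_eq_ball] at hx ⊢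
    exact mem_Icc_of_out hψ3 hx
  refine ⟨c.trans ψ.symm, fun s => ?_, fun x => ?_, fun Z hZ hZs => ?_⟩
  · show ψ.symm (c s) = b s
    rw [hc2]
    refine hψ3 _ fun h => ?_
    rw [inn_eq_ball hn, mem_ball_zero_iff] at h
    have := mem_sphere_zero_iff_norm.1 (b s).2
    exact h.ne this
  · show _ ↔ ψ.symm (c x) ∈ _
    have h1 : x ∈ closedBall (0 : V n) 1 ↔ c x ∈ closedBall (0 : V n) 1 := by
      rw [mem_closedBall_zero_iff, mem_closedBall_zero_iff, hc1]
    rw [h1]
    refine ⟨hsub' _, fun h => ?_⟩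
    have h2 := hsub _ h
    rwa [ψ.apply_symm_apply] at h2
  · have h1 : (c.trans ψ.symm) '' Z = ψ ⁻¹' (c '' Z) := by
      rw [← ψ.image_symm, ← image_comp]
      rfl
    have hcZ : MeasurableSet (c '' Z) := c.measurableEmbedding.measurableSet_image.2 hZ
    have hcZs : c '' Z ⊆ Icc (fun _ => -1) (fun _ => 1) := by
      rw [Icc_eq_ball]
      rintro _ ⟨x, hx, rfl⟩
      have := hZs hx
      rw [mem_closedBall_zero_iff] at this ⊢
      rwa [hc1]
    have h2 := hψ2 _ hcZ hcZs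
    rw [Measure.map_apply hψm hcZ, Measure.map_apply hcm hcZ, preimage_image_eq _ c.injective] at h2
    rw [h1, h2]

/-- `Phi` multiplies the measure by a constant. -/
theorem exists_const (n : ℕ) : ∃ k : ENNReal, ∀ W : Set (V n), MeasurableSet W →
    volume (Phi n '' W) = k * volume W := by
  refine ⟨ENNReal.ofReal |((2 : ℝ) ^ Module.finrank ℝ (V n))⁻¹|, fun W hW => ?_⟩
  have h1 : (volume : Measure (En n)).map (Phi n).symm =
      ENNReal.ofReal |((2 : ℝ) ^ Module.finrank ℝ (V n))⁻¹| • (volume : Measure (V n)) := by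
    have e : ((Phi n).symm : En n → V n) =
        (fun y : V n => y - fun _ => 1) ∘ (fun y : V n => (2 : ℝ) • y) ∘ (WithLp.ofLp (p := 2)) := by
      funext y i
      rfl
    have m1 : Measurable (WithLp.ofLp (p := 2) : En n → V n) :=
      (PiLp.continuous_ofLp 2 (fun _ : Fin n => ℝ)).measurable
    have m2 : Measurable (fun y : V n => (2 : ℝ) • y) := measurable_const_smul _
    have m3 : Measurable (fun y : V n => y - fun _ => (1 : ℝ)) := measurable_sub_const _
    rw [e, ← Measure.map_map m3 (m2.comp m1), ← Measure.map_map m2 m1,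
      (PiLp.volume_preserving_ofLp (Fin n)).map_eq,
      Measure.map_addHaar_smul _ two_ne_zero, Measure.map_smul,
      (measurePreserving_sub_right (volume : Measure (V n)) _).map_eq]
  have h2 : Phi n '' W = (Phi n).symm ⁻¹' W := by
    rw [← (Phi n).image_eq_preimage_symm]
  rw [h2, ← Measure.map_apply (Phi n).symm.continuous.measurable hW, h1]
  rfl

theorem surj {n : ℕ} (hn : 1 ≤ n) (b : sphere (0 : V n) 1 ≃ₜ sphere (0 : V n) 1) :
    ∃ h ∈ Sig n, ∀ s, h (io n s) = io n (b s) := by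
  obtain ⟨B, hB1, hB2, hB3⟩ := exists_ext hn b
  obtain ⟨k, hk⟩ := exists_const n
  have hH : ∀ x : En n, x ∈ Cu n ↔ (((Phi n).symm.trans B).trans (Phi n)) x ∈ Cu n := by
    intro x
    show _ ↔ Phi n (B ((Phi n).symm x)) ∈ Cu n
    rw [← mem_ball_iff, ← hB2, mem_ball_iff, (Phi n).apply_symm_apply]
  refine ⟨(((Phi n).symm.trans B).trans (Phi n)).subtype hH, ?_, fun s => ?_⟩
  · rw [mem_Sig]
    intro A hA hs
    have h1 : Subtype.val '' ((((Phi n).symm.trans B).trans (Phi n)).subtype hH ''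
        ((Subtype.val : Cu n → En n) ⁻¹' A)) = Phi n '' (B '' ((Phi n) ⁻¹' A)) := by
      ext y
      constructor
      · rintro ⟨_, ⟨x, hx, rfl⟩, rfl⟩
        refine ⟨B ((Phi n).symm x), ⟨(Phi n).symm x, ?_, rfl⟩, rfl⟩
        rw [mem_preimage, (Phi n).apply_symm_apply]
        exact hx
      · rintro ⟨_, ⟨x, hx, rfl⟩, rfl⟩
        refine ⟨(((Phi n).symm.trans B).trans (Phi n)).subtype hH ⟨Phi n x, hs hx⟩,
          ⟨⟨Phi n x, hs hx⟩, hx, rfl⟩, ?_⟩
        show Phi n (B ((Phi n).symm (Phi n x))) = _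
        rw [(Phi n).symm_apply_apply]
    have hZ : MeasurableSet (Phi n ⁻¹' A) := (Phi n).continuous.measurable hA
    have hZs : Phi n ⁻¹' A ⊆ closedBall (0 : V n) 1 := fun x hx => (mem_ball_iff x).2 (hs hx)
    rw [h1, hk _ (B.measurableEmbedding.measurableSet_image.2 hZ), hB3 _ hZ hZs, ← hk _ hZ,
      image_preimage_eq _ (Phi n).surjective]
  · apply Subtype.ext
    show Phi n (B ((Phi n).symm (Phi n s))) = Phi n (b s)
    rw [(Phi n).symm_apply_apply, hB1]

end Pool.Agent.W_d1cfb0_h99
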