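import Pool.Agent.W_d1cfb0_h99.Split

/-!
# The binary tree of boxes

Proof. Induction on `l`. `l = []`: `g = id`, `L = [(a, b)]`. `l = i :: l'`: choose `c` in
`(a i + (b i - a i) / 3, a i + 2 (b i - a i) / 3)` with `ν {x | x i = c} = 0 = μ {x | x i = c}`
(on the box). `θ = μ (Icc a (update b i c))`, positive and `< ν (Icc a b) = μ (Icc a b)` because `μ`
is positive on the open boxes. `exists_split` gives `g`. Apply the induction hypothesis to the boxes
`(a, update b i c)`, `(update a i c, b)` for `ν.map g` and for `(ν.map g).map g₁`, `μ`, to get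
`g₁`, `L₁`, `g₂`, `L₂`; the homeomorphisms `g₁`, `g₂` have disjoint supports `inn a (update b i c)`,
`inn (update a i c) b`. `L = L₁ ++ L₂`, the homeomorphism is `(g.trans g₁).trans g₂`.
-/

namespace Pool.Agent.W_d1cfb0_h99

open MeasureTheory Set Function
open scoped ENNReal

theorem fix_of_fix {X : Type*} [TopologicalSpace X] {g : X ≃ₜ X} {U A : Set X}
    (hg : ∀ x, x ∉ U → g x = x) (hd : Disjoint A U) (x : X) : g x ∈ A ↔ x ∈ A := by
  constructor
  · intro h
    have h1 : g (g x) = g x := hg _ (Set.disjoint_left.1 hd h)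
    rwa [g.injective h1] at h
  · intro h
    rw [hg x (Set.disjoint_left.1 hd h)]
    exact h

theorem map_of_disj {n : ℕ} (ν : Measure (V n)) {g : V n ≃ₜ V n} {U A : Set (V n)}
    (hg : ∀ x, x ∉ U → g x = x) (hd : Disjoint A U) : (ν.map g) A = ν A := by
  rw [map_apply']
  congr 1
  ext x
  exact fix_of_fix hg hd x

theorem supp_mem {n : ℕ} {a b : V n} {g : V n ≃ₜ V n} (hg : ∀ x, x ∉ inn a b → g x = x) (x : V n) :
    g x ∈ Icc a b ↔ x ∈ Icc a b := by
  have hi : ∀ x, x ∈ inn a b ↔ g x ∈ inn a b := by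
    intro x
    constructor
    · intro hx
      by_contra h
      have h1 : g (g x) = g x := hg _ h
      rw [g.injective h1] at h
      exact h hx
    · intro hx
      by_contra h
      rw [hg x h] at hx
      exact h hx
  by_cases h : x ∈ inn a b
  · exact ⟨fun _ => inn_subset a b h, fun _ => inn_subset a b ((hi x).1 h)⟩
  · rw [hg x h]

theorem supp_bdry {n : ℕ} {a b : V n} : Disjoint (bdry a b) (inn a b) :=
  Set.disjoint_left.2 fun _ hx hx' => hx.2 hx'

theorem inn_mono {n : ℕ} {p q : V n × V n} (hp : ∀ i, p.1 i < p.2 i)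
    (h : Icc p.1 p.2 ⊆ Icc q.1 q.2) : inn p.1 p.2 ⊆ inn q.1 q.2 := by
  have h1 := (h ⟨le_refl p.1, fun i => (hp i).le⟩).1
  have h2 := (h ⟨fun i => (hp i).le, le_refl p.2⟩).2
  exact fun x hx i => ⟨(h1 i).trans_lt (hx i).1, (hx i).2.trans_le (h2 i)⟩

/-- The two halves. -/
theorem lt_upd {n : ℕ} {a b : V n} (hab : ∀ i, a i < b i) {i : Fin n} {c : ℝ} (hc : a i < c)
    (hc' : c < b i) : (∀ j, a j < update b i c j) ∧ ∀ j, update a i c j < b j := by
  constructor
  · intro j
    by_cases hj : j = i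
    · subst hj
      rwa [update_self]
    · rw [update_of_ne hj]
      exact hab j
  · intro j
    by_cases hj : j = i
    · subst hj
      rwa [update_self]
    · rw [update_of_ne hj]
      exact hab j

theorem mem_left {n : ℕ} {a b : V n} {i : Fin n} {c : ℝ} (hc' : c < b i) {x : V n} :
    x ∈ Icc a (update b i c) ↔ x ∈ Icc a b ∧ x i ≤ c := by
  constructor
  · rintro ⟨h1, h2⟩
    have h3 : x i ≤ c := by
      have := h2 i
      rwa [update_self] at this
    refine ⟨⟨h1, fun j => ?_⟩, h3⟩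
    by_cases hj : j = i
    · subst hj
      exact h3.trans hc'.le
    · have := h2 j
      rwa [update_of_ne hj] at this
  · rintro ⟨⟨h1, h2⟩, h3⟩
    refine ⟨h1, fun j => ?_⟩
    by_cases hj : j = i
    · subst hj
      rwa [update_self]
    · rw [update_of_ne hj]
      exact h2 j

theorem mem_right {n : ℕ} {a b : V n} {i : Fin n} {c : ℝ} (hc : a i < c) {x : V n} :
    x ∈ Icc (update a i c) b ↔ x ∈ Icc a b ∧ c ≤ x i := by
  constructor
  · rintro ⟨h1, h2⟩
    have h3 : c ≤ x i := by
      have := h1 i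
      rwa [update_self] at this
    refine ⟨⟨fun j => ?_, h2⟩, h3⟩
    by_cases hj : j = i
    · subst hj
      exact hc.le.trans h3
    · have := h1 j
      rwa [update_of_ne hj] at this
  · rintro ⟨⟨h1, h2⟩, h3⟩
    refine ⟨fun j => ?_, h2⟩
    by_cases hj : j = i
    · subst hj
      rwa [update_self]
    · rw [update_of_ne hj]
      exact h1 j

theorem inn_left_lt {n : ℕ} {a b : V n} {i : Fin n} {c : ℝ} {x : V n}
    (hx : x ∈ inn a (update b i c)) : x i < c := by
  have := (hx i).2
  rwa [update_self] at this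

theorem inn_right_lt {n : ℕ} {a b : V n} {i : Fin n} {c : ℝ} {x : V n}
    (hx : x ∈ inn (update a i c) b) : c < x i := by
  have := (hx i).1
  rwa [update_self] at this

theorem bdry_left {n : ℕ} {a b : V n} {i : Fin n} {c : ℝ} (hc' : c < b i) :
    bdry a (update b i c) ⊆ bdry a b ∪ (Icc a b ∩ {x | x i = c}) := by
  rintro x hx
  obtain ⟨h1, j, hj⟩ := mem_bdry.1 hx
  have h2 := (mem_left hc').1 h1
  by_cases hji : j = i
  · subst hji
    rw [update_self] at hj
    rcases hj with hj | hj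
    · exact Or.inl (mem_bdry.2 ⟨h2.1, j, Or.inl hj⟩)
    · exact Or.inr ⟨h2.1, hj⟩
  · rw [update_of_ne hji] at hj
    exact Or.inl (mem_bdry.2 ⟨h2.1, j, hj⟩)

theorem bdry_right {n : ℕ} {a b : V n} {i : Fin n} {c : ℝ} (hc : a i < c) :
    bdry (update a i c) b ⊆ bdry a b ∪ (Icc a b ∩ {x | x i = c}) := by
  rintro x hx
  obtain ⟨h1, j, hj⟩ := mem_bdry.1 hx
  have h2 := (mem_right hc).1 h1
  by_cases hji : j = i
  · subst hji
    rw [update_self] at hj
    rcases hj with hj | hj
    · exact Or.inr ⟨h2.1, hj⟩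
    · exact Or.inl (mem_bdry.2 ⟨h2.1, j, Or.inr hj⟩)
  · rw [update_of_ne hji] at hj
    exact Or.inl (mem_bdry.2 ⟨h2.1, j, hj⟩)

theorem split_add {n : ℕ} {ρ : Measure (V n)} {a b : V n} {i : Fin n} {c : ℝ} (hc : a i < c)
    (hc' : c < b i) (h0 : ρ (Icc a b ∩ {x | x i = c}) = 0) :
    ρ (Icc a b) = ρ (Icc a (update b i c)) + ρ (Icc (update a i c) b) := by
  have h1 : Icc a b = Icc a (update b i c) ∪ Icc (update a i c) b := by
    ext x
    rw [mem_union, mem_left hc', mem_right hc]
    constructor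
    · intro hx
      rcases le_total (x i) c with h | h
      · exact Or.inl ⟨hx, h⟩
      · exact Or.inr ⟨hx, h⟩
    · rintro (h | h)
      · exact h.1
      · exact h.1
  have h2 : ρ (Icc a (update b i c) ∩ Icc (update a i c) b) = 0 := by
    refine measure_mono_null ?_ h0
    rintro x ⟨hx, hx'⟩
    rw [mem_left hc'] at hx
    rw [mem_right hc] at hx'
    exact ⟨hx.1, le_antisymm hx.2 hx'.2⟩
  rw [h1]
  exact measure_union₀ measurableSet_Icc.nullMeasurableSet h2

theorem Good.box_pos {n : ℕ} {ν : Measure (V n)} (hν : Good ν) {a b : V n}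
    (hab : ∀ i, a i < b i) : 0 < ν (Icc a b) := by
  refine (hν.pos (inn a b) (isOpen_inn a b) ⟨fun i => (a i + b i) / 2, fun i => ?_⟩).trans_le
    (measure_mono (inn_subset a b))
  have := hab i
  constructor <;> linarith

theorem exists_cut {n : ℕ} {ν μ : Measure (V n)} (hν : Good ν) (hμ : Good μ) (a b : V n)
    (i : Fin n) {s t : ℝ} (hst : s < t) : ∃ c, s < c ∧ c < t ∧
      ν (Icc a b ∩ {x | x i = c}) = 0 ∧ μ (Icc a b ∩ {x | x i = c}) = 0 := by
  have key : ∀ {ρ : Measure (V n)}, Good ρ →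
      Set.Countable {t : ℝ | 0 < (ρ.restrict (Icc a b)) {x | x i = t}} := by
    intro ρ hρ
    have : IsFiniteMeasure (ρ.restrict (Icc a b)) :=
      ⟨by rw [Measure.restrict_apply_univ]; exact hρ.fin _ isCompact_Icc⟩
    exact Measure.countable_meas_level_set_pos (measurable_pi_apply i)
  have hd := ((key hν).union (key hμ)).dense_compl ℝ
  obtain ⟨c, hc, hc2⟩ := hd.exists_between hst
  rw [mem_compl_iff, mem_union, not_or] at hc
  have e : ∀ {ρ : Measure (V n)}, ¬ (0 < (ρ.restrict (Icc a b)) {x | x i = c}) →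
      ρ (Icc a b ∩ {x | x i = c}) = 0 := by
    intro ρ h
    rw [Measure.restrict_apply (measurableSet_eq_fun (measurable_pi_apply i)
      measurable_const), inter_comm] at h
    exact le_antisymm (not_lt.1 h) bot_le
  exact ⟨c, hc2.1, hc2.2, e hc.1, e hc.2⟩

theorem exists_tree {n : ℕ} (l : List (Fin n)) : ∀ {ν μ : Measure (V n)} (_ : Good ν) (_ : Good μ)
    {a b : V n} (_ : ∀ i, a i < b i) (_ : ν (Icc a b) = μ (Icc a b)) (_ : ν (bdry a b) = 0)
    (_ : μ (bdry a b) = 0),
    ∃ g : V n ≃ₜ V n, (∀ x, x ∉ inn a b → g x = x) ∧ ∃ L : List (V n × V n),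
      Part (a, b) L ∧ Agree (ν.map g) μ L ∧
      ∀ p ∈ L, ∀ j, p.2 j - p.1 j ≤ (2 / 3 : ℝ) ^ (l.count j) * (b j - a j) := by
  induction l with
  | nil =>
    intro ν μ hν hμ a b hab hm h0 h0'
    have e1 : ν.map (Homeomorph.refl (V n)) = ν := Measure.map_id
    refine ⟨Homeomorph.refl _, fun _ _ => rfl, [(a, b)], ⟨?_, ?_, ?_, List.pairwise_singleton _ _⟩,
      ⟨?_, ?_, ?_⟩, ?_⟩
    · intro p hp
      rw [List.mem_singleton] at hp
      subst hp
      exact hab
    · intro p hp
      rw [List.mem_singleton] at hp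
      subst hp
      exact Subset.rfl
    · intro x hx
      exact ⟨(a, b), List.mem_singleton.2 rfl, hx⟩
    · intro p hp
      rw [List.mem_singleton] at hp
      subst hp
      rw [e1]
      exact hm
    · intro p hp
      rw [List.mem_singleton] at hp
      subst hp
      rw [e1]
      exact h0
    · intro p hp
      rw [List.mem_singleton] at hp
      subst hp
      exact h0'
    · intro p hp j
      rw [List.mem_singleton] at hp
      subst hp
      rw [List.count_nil, pow_zero, one_mul]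
  | cons i l ih =>
    intro ν μ hν hμ a b hab hm h0 h0'
    have hi := hab i
    obtain ⟨c, hc1, hc2, hcν, hcμ⟩ := exists_cut hν hμ a b i
      (s := a i + (b i - a i) / 3) (t := a i + 2 * (b i - a i) / 3) (by linarith)
    have hc : a i < c := by linarith
    have hc' : c < b i := by linarith
    obtain ⟨hlt1, hlt2⟩ := lt_upd hab hc hc'
    have hθ0 : 0 < μ (Icc a (update b i c)) := hμ.box_pos hlt1
    have hadd := split_add hc hc' hcμ
    have hfin1 : μ (Icc a (update b i c)) ≠ ⊤ := (hμ.fin _ isCompact_Icc).ne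
    have hθ1 : μ (Icc a (update b i c)) < ν (Icc a b) := by
      rw [hm, hadd]
      exact ENNReal.lt_add_right hfin1 (hμ.box_pos hlt2).ne'
    obtain ⟨g, hg, hg1, hg2⟩ := exists_split hν hab h0 i hc hc' hcν hθ0 hθ1
    have hGg := hν.map g
    have hgQ : (ν.map g) (Icc a b) = ν (Icc a b) := by
      rw [map_apply']
      congr 1
      ext x
      exact supp_mem hg x
    have hgb : (ν.map g) (bdry a b) = 0 := by
      rw [map_of_disj ν hg supp_bdry, h0]
    have hadd2 := split_add hc hc' hg2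
    have hm2 : (ν.map g) (Icc (update a i c) b) = μ (Icc (update a i c) b) := by
      rw [hgQ, hm, hadd, hg1] at hadd2
      exact ((ENNReal.add_right_inj hfin1).1 hadd2).symm
    have hb1 : (ν.map g) (bdry a (update b i c)) = 0 :=
      measure_mono_null (bdry_left hc') (measure_union_null hgb hg2)
    have hb1' : μ (bdry a (update b i c)) = 0 :=
      measure_mono_null (bdry_left hc') (measure_union_null h0' hcμ)
    have hb2 : (ν.map g) (bdry (update a i c) b) = 0 :=
      measure_mono_null (bdry_right hc) (measure_union_null hgb hg2)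
    have hb2' : μ (bdry (update a i c) b) = 0 :=
      measure_mono_null (bdry_right hc) (measure_union_null h0' hcμ)
    obtain ⟨g1, hg1s, L1, hP1, hA1, hs1⟩ := ih hGg hμ hlt1 hg1 hb1 hb1'
    have hdis1 : Disjoint (Icc (update a i c) b) (inn a (update b i c)) := by
      refine Set.disjoint_left.2 fun x hx hx' => ?_
      exact absurd (inn_left_lt hx') (not_lt.2 ((mem_right hc).1 hx).2)
    have hdis2 : Disjoint (Icc a (update b i c)) (inn (update a i c) b) := by
      refine Set.disjoint_left.2 fun x hx hx' => ?_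
      exact absurd (inn_right_lt hx') (not_lt.2 ((mem_left hc').1 hx).2)
    have hm3 : ((ν.map g).map g1) (Icc (update a i c) b) = μ (Icc (update a i c) b) := by
      rw [map_of_disj _ hg1s hdis1, hm2]
    have hb3 : ((ν.map g).map g1) (bdry (update a i c) b) = 0 := by
      rw [map_of_disj _ hg1s (hdis1.mono_left fun x hx => hx.1), hb2]
    obtain ⟨g2, hg2s, L2, hP2, hA2, hs2⟩ := ih (hGg.map g1) hμ hlt2 hm3 hb3 hb2'
    have hsubl : Icc a (update b i c) ⊆ Icc a b := fun x hx => ((mem_left hc').1 hx).1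
    have hsubr : Icc (update a i c) b ⊆ Icc a b := fun x hx => ((mem_right hc).1 hx).1
    have hinl : inn a (update b i c) ⊆ inn a b :=
      inn_mono (p := (a, update b i c)) (q := (a, b)) hlt1 hsubl
    have hinr : inn (update a i c) b ⊆ inn a b :=
      inn_mono (p := (update a i c, b)) (q := (a, b)) hlt2 hsubr
    have hmap : ν.map ((g.trans g1).trans g2) = ((ν.map g).map g1).map g2 := by
      rw [map_map', map_map']
      rfl
    refine ⟨(g.trans g1).trans g2, ?_, L1 ++ L2, ⟨?_, ?_, ?_, ?_⟩, ⟨?_, ?_, ?_⟩, ?_⟩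
    · intro x hx
      rw [Homeomorph.trans_apply, Homeomorph.trans_apply, hg x hx,
        hg1s x (fun h => hx (hinl h)), hg2s x (fun h => hx (hinr h))]
    · intro p hp
      rcases List.mem_append.1 hp with hp | hp
      · exact hP1.lt p hp
      · exact hP2.lt p hp
    · intro p hp
      rcases List.mem_append.1 hp with hp | hp
      · exact (hP1.sub p hp).trans hsubl
      · exact (hP2.sub p hp).trans hsubr
    · intro x hx
      rcases le_total (x i) c with h | h
      · obtain ⟨p, hp, hxp⟩ := hP1.cover x ((mem_left hc').2 ⟨hx, h⟩)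
        exact ⟨p, List.mem_append.2 (Or.inl hp), hxp⟩
      · obtain ⟨p, hp, hxp⟩ := hP2.cover x ((mem_right hc).2 ⟨hx, h⟩)
        exact ⟨p, List.mem_append.2 (Or.inr hp), hxp⟩
    · rw [List.pairwise_append]
      refine ⟨hP1.disj, hP2.disj, fun p hp p' hp' => ⟨?_, ?_⟩⟩
      · have h1 := inn_mono (q := (a, update b i c)) (hP1.lt p hp) (hP1.sub p hp)
        exact (hdis1.symm).mono h1 (hP2.sub p' hp')
      · have h1 := inn_mono (q := (update a i c, b)) (hP2.lt p' hp') (hP2.sub p' hp')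
        exact hdis2.mono (hP1.sub p hp) h1
    · intro p hp
      rw [hmap]
      rcases List.mem_append.1 hp with hp | hp
      · rw [map_of_disj _ hg2s (hdis2.mono_left (hP1.sub p hp))]
        exact hA1.mass p hp
      · exact hA2.mass p hp
    · intro p hp
      rw [hmap]
      rcases List.mem_append.1 hp with hp | hp
      · rw [map_of_disj _ hg2s (hdis2.mono_left (Subset.trans (fun x hx => hx.1) (hP1.sub p hp)))]
        exact hA1.nul p hp
      · exact hA2.nul p hp
    · intro p hp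
      rcases List.mem_append.1 hp with hp | hp
      · exact hA1.nul' p hp
      · exact hA2.nul' p hp
    · intro p hp j
      have hpos : (0 : ℝ) ≤ (2 / 3 : ℝ) ^ (l.count j) := by positivity
      rcases List.mem_append.1 hp with hp | hp
      · refine (hs1 p hp j).trans ?_
        by_cases hj : j = i
        · subst hj
          rw [update_self, List.count_cons_self, pow_succ, mul_assoc]
          refine mul_le_mul_of_nonneg_left ?_ hpos
          linarith
        · rw [update_of_ne hj, List.count_cons_of_ne (Ne.symm hj)]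
      · refine (hs2 p hp j).trans ?_
        by_cases hj : j = i
        · subst hj
          rw [update_self, List.count_cons_self, pow_succ, mul_assoc]
          refine mul_le_mul_of_nonneg_left ?_ hpos
          linarith
        · rw [update_of_ne hj, List.count_cons_of_ne (Ne.symm hj)]

theorem refine_list {n : ℕ} (l : List (Fin n)) {μ : Measure (V n)} (hμ : Good μ)
    (M : List (V n × V n)) : ∀ {ν : Measure (V n)} (_ : Good ν)
    (_ : ∀ p ∈ M, ∀ i, p.1 i < p.2 i)
    (_ : M.Pairwise fun p p' =>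
      Disjoint (inn p.1 p.2) (Icc p'.1 p'.2) ∧ Disjoint (Icc p.1 p.2) (inn p'.1 p'.2))
    (_ : Agree ν μ M),
    ∃ g : V n ≃ₜ V n, (∀ x, (∀ p ∈ M, x ∉ inn p.1 p.2) → g x = x) ∧
      (∀ p ∈ M, ∀ x, g x ∈ Icc p.1 p.2 ↔ x ∈ Icc p.1 p.2) ∧
      ∃ L' : List (V n × V n), (∀ p ∈ L', ∀ i, p.1 i < p.2 i) ∧
        (∀ p' ∈ L', ∃ p ∈ M, Icc p'.1 p'.2 ⊆ Icc p.1 p.2 ∧
          ∀ j, p'.2 j - p'.1 j ≤ (2 / 3 : ℝ) ^ (l.count j) * (p.2 j - p.1 j)) ∧
        (∀ p ∈ M, ∀ x ∈ Icc p.1 p.2, ∃ p' ∈ L', x ∈ Icc p'.1 p'.2) ∧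
        (L'.Pairwise fun p p' =>
          Disjoint (inn p.1 p.2) (Icc p'.1 p'.2) ∧ Disjoint (Icc p.1 p.2) (inn p'.1 p'.2)) ∧
        Agree (ν.map g) μ L' := by
  induction M with
  | nil =>
    intro ν hν _ _ _
    exact ⟨Homeomorph.refl _, fun _ _ => rfl, fun p hp => absurd hp List.not_mem_nil, [],
      fun p hp => absurd hp List.not_mem_nil, fun p hp => absurd hp List.not_mem_nil,
      fun p hp => absurd hp List.not_mem_nil, List.Pairwise.nil,
      ⟨fun p hp => absurd hp List.not_mem_nil, fun p hp => absurd hp List.not_mem_nil,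
        fun p hp => absurd hp List.not_mem_nil⟩⟩
  | cons p M ih =>
    intro ν hν hlt hd hA
    rw [List.pairwise_cons] at hd
    obtain ⟨g1, hg1, hg1p, L1, hl1, hs1, hc1, hd1, hA1⟩ := ih hν
      (fun p' hp' => hlt p' (List.mem_cons_of_mem _ hp')) hd.2
      ⟨fun p' hp' => hA.mass p' (List.mem_cons_of_mem _ hp'),
        fun p' hp' => hA.nul p' (List.mem_cons_of_mem _ hp'),
        fun p' hp' => hA.nul' p' (List.mem_cons_of_mem _ hp')⟩
    have hg1' : ∀ x, x ∉ (⋃ p' ∈ M, inn p'.1 p'.2) → g1 x = x := by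
      intro x hx
      refine hg1 x fun p' hp' hxp => hx (mem_iUnion₂.2 ⟨p', hp', hxp⟩)
    have hdp : Disjoint (Icc p.1 p.2) (⋃ p' ∈ M, inn p'.1 p'.2) := by
      refine Set.disjoint_left.2 fun x hx hx' => ?_
      obtain ⟨p', hp', hxp⟩ := mem_iUnion₂.1 hx'
      exact Set.disjoint_left.1 (hd.1 p' hp').2 hx hxp
    have hpmem : p ∈ p :: M := List.mem_cons_self
    obtain ⟨g2, hg2, L2, hP2, hA2, hs2⟩ := exists_tree l (hν.map g1) hμ (hlt p hpmem)
      (by rw [map_of_disj _ hg1' hdp]; exact hA.mass p hpmem)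
      (by rw [map_of_disj _ hg1' (hdp.mono_left fun x hx => hx.1)]; exact hA.nul p hpmem)
      (hA.nul' p hpmem)
    have hM : ∀ p' ∈ M, Disjoint (Icc p'.1 p'.2) (inn p.1 p.2) := fun p' hp' =>
      (hd.1 p' hp').1.symm
    have hmap : ν.map (g1.trans g2) = (ν.map g1).map g2 := by rw [map_map']
    refine ⟨g1.trans g2, ?_, ?_, L2 ++ L1, ?_, ?_, ?_, ?_, ⟨?_, ?_, ?_⟩⟩
    · intro x hx
      rw [Homeomorph.trans_apply, hg1 x fun p' hp' => hx p' (List.mem_cons_of_mem _ hp'),
        hg2 x (hx p hpmem)]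
    · intro p' hp' x
      rw [Homeomorph.trans_apply]
      rcases List.mem_cons.1 hp' with h | h
      · subst h
        rw [supp_mem hg2, fix_of_fix hg1' hdp]
      · rw [fix_of_fix hg2 (hM p' h), hg1p p' h]
    · intro p' hp'
      rcases List.mem_append.1 hp' with h | h
      · exact hP2.lt p' h
      · exact hl1 p' h
    · intro p' hp'
      rcases List.mem_append.1 hp' with h | h
      · exact ⟨p, hpmem, hP2.sub p' h, hs2 p' h⟩
      · obtain ⟨p'', hp'', h2⟩ := hs1 p' h
        exact ⟨p'', List.mem_cons_of_mem _ hp'', h2⟩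
    · intro p' hp' x hx
      rcases List.mem_cons.1 hp' with h | h
      · subst h
        obtain ⟨p'', hp'', h2⟩ := hP2.cover x hx
        exact ⟨p'', List.mem_append.2 (Or.inl hp''), h2⟩
      · obtain ⟨p'', hp'', h2⟩ := hc1 p' h x hx
        exact ⟨p'', List.mem_append.2 (Or.inr hp''), h2⟩
    · rw [List.pairwise_append]
      refine ⟨hP2.disj, hd1, fun q hq q' hq' => ?_⟩
      obtain ⟨p'', hp'', h2, _⟩ := hs1 q' hq'
      have h3 : inn q.1 q.2 ⊆ inn p.1 p.2 := inn_mono (q := p) (hP2.lt q hq) (hP2.sub q hq)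
      have h4 : inn q'.1 q'.2 ⊆ inn p''.1 p''.2 := inn_mono (hl1 q' hq') h2
      exact ⟨(hd.1 p'' hp'').1.mono h3 h2, (hd.1 p'' hp'').2.mono (hP2.sub q hq) h4⟩
    · intro p' hp'
      rw [hmap]
      rcases List.mem_append.1 hp' with h | h
      · exact hA2.mass p' h
      · obtain ⟨p'', hp'', h2, _⟩ := hs1 p' h
        rw [map_of_disj _ hg2 ((hM p'' hp'').mono_left h2)]
        exact hA1.mass p' h
    · intro p' hp'
      rw [hmap]
      rcases List.mem_append.1 hp' with h | h
      · exact hA2.nul p' h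
      · obtain ⟨p'', hp'', h2, _⟩ := hs1 p' h
        rw [map_of_disj _ hg2 ((hM p'' hp'').mono_left (Subset.trans (fun x hx => hx.1) h2))]
        exact hA1.nul p' h
    · intro p' hp'
      rcases List.mem_append.1 hp' with h | h
      · exact hA2.nul' p' h
      · exact hA1.nul' p' h

theorem exists_dirs (n k : ℕ) : ∃ l : List (Fin n), ∀ j, k ≤ l.count j := by
  induction k with
  | zero => exact ⟨[], fun j => Nat.zero_le _⟩
  | succ k ih =>
    obtain ⟨l, hl⟩ := ih
    refine ⟨l ++ List.finRange n, fun j => ?_⟩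
    rw [List.count_append]
    have : 0 < (List.finRange n).count j := List.count_pos_iff.2 (List.mem_finRange j)
    have := hl j
    omega

/-- Refinement of a partition. The homeomorphism preserves each box of `L`. -/
theorem exists_refine {n : ℕ} {ν μ : Measure (V n)} (hν : Good ν) (hμ : Good μ) {q : V n × V n}
    {L : List (V n × V n)} (hL : Part q L) (hA : Agree ν μ L) {ε : ℝ} (hε : 0 < ε) :
    ∃ g : V n ≃ₜ V n, (∀ x, x ∉ inn q.1 q.2 → g x = x) ∧
      (∀ p ∈ L, ∀ x, g x ∈ Icc p.1 p.2 ↔ x ∈ Icc p.1 p.2) ∧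
      ∃ L' : List (V n × V n), Part q L' ∧ Agree (ν.map g) μ L' ∧
        ∀ p ∈ L', ∀ j, p.2 j - p.1 j ≤ ε := by
  set D : ℝ := ‖q.2 - q.1‖ + 1 with hD
  have hD0 : 0 < D := by positivity
  have hDs : ∀ j, q.2 j - q.1 j ≤ D := by
    intro j
    have h1 := norm_le_pi_norm (q.2 - q.1) j
    rw [Pi.sub_apply, Real.norm_eq_abs] at h1
    have h2 := le_abs_self (q.2 j - q.1 j)
    linarith
  obtain ⟨k, hk⟩ := exists_pow_lt_of_lt_one (div_pos hε hD0) (show (2 / 3 : ℝ) < 1 by norm_num)
  obtain ⟨l, hl⟩ := exists_dirs n k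
  obtain ⟨g, hg, hgp, L', h1, h2, h3, h4, h5⟩ := refine_list l hμ L hν hL.lt hL.disj hA
  refine ⟨g, ?_, hgp, L', ⟨h1, ?_, ?_, h4⟩, h5, ?_⟩
  · intro x hx
    exact hg x fun p hp hxp => hx (inn_mono (q := q) (hL.lt p hp) (hL.sub p hp) hxp)
  · intro p' hp'
    obtain ⟨p, hp, h6, _⟩ := h2 p' hp'
    exact h6.trans (hL.sub p hp)
  · intro x hx
    obtain ⟨p, hp, hxp⟩ := hL.cover x hx
    exact h3 p hp x hxp
  · intro p' hp' j
    obtain ⟨p, hp, _, h7⟩ := h2 p' hp'
    refine (h7 j).trans ?_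
    have hp1 := (hL.sub p hp ⟨le_refl p.1, fun i => (hL.lt p hp i).le⟩).1 j
    have hp2 := (hL.sub p hp ⟨fun i => (hL.lt p hp i).le, le_refl p.2⟩).2 j
    have h8 : p.2 j - p.1 j ≤ D := by
      have := hDs j
      linarith
    have h9 : (2 / 3 : ℝ) ^ (l.count j) ≤ (2 / 3 : ℝ) ^ k :=
      pow_le_pow_of_le_one (by norm_num) (by norm_num) (hl j)
    have h10 : 0 ≤ p.2 j - p.1 j := by
      have := hL.lt p hp j
      linarith
    calc (2 / 3 : ℝ) ^ (l.count j) * (p.2 j - p.1 j) ≤ (2 / 3 : ℝ) ^ k * D :=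
          mul_le_mul h9 h8 h10 (by positivity)
      _ ≤ ε := by
          rw [lt_div_iff₀ hD0] at hk
          exact hk.le

end Pool.Agent.W_d1cfb0_h99
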